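import Mathlib

set_option autoImplicit false
set_option linter.style.haveILetI false
set_option linter.deprecated false

/-!
Comparison of Dedekind zeta functions near `s = 1` with finite Euler products.
-/

namespace Pool.Agent.Lib.MP_176ace_nt

open NumberField Filter Topology Ideal

noncomputable section

variable (K : Type*) [Field K] [NumberField K]

/-- The real term `N(I)^(-s)` attached to an ideal. -/
def idTerm (s : ℝ) (I : Ideal (𝓞 K)) : ℝ := (absNorm I : ℝ) ^ (-s)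

variable {K}

theorem idTerm_nonneg (s : ℝ) (I : Ideal (𝓞 K)) : 0 ≤ idTerm K s I := by
  unfold idTerm; positivity

theorem idTerm_mul (s : ℝ) (I J : Ideal (𝓞 K)) :
    idTerm K s (I * J) = idTerm K s I * idTerm K s J := by
  unfold idTerm
  rw [map_mul, Nat.cast_mul, Real.mul_rpow (by positivity) (by positivity)]

theorem idTerm_top (s : ℝ) : idTerm K s ⊤ = 1 := by
  unfold idTerm
  simp

variable (K)

/-- near `1` from the right the ideal sum converges and computes the Dedekind zeta function. -/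
theorem eventually_summable_idTerm :
    ∀ᶠ s : ℝ in 𝓝[>] 1, Summable (idTerm K s) ∧
      dedekindZeta K (s : ℂ) = ((∑' I, idTerm K s I : ℝ) : ℂ) := by
  have h1 := tendsto_sub_one_mul_dedekindZeta_nhdsGT K
  have h2 : ((dedekindZeta_residue K : ℝ) : ℂ) ≠ 0 := by
    exact_mod_cast dedekindZeta_residue_ne_zero K
  have h3 := h1.eventually_ne h2
  filter_upwards [h3, self_mem_nhdsWithin] with s hs hs1
  have hs1' : (1 : ℝ) < s := hs1
  have hs0 : (s : ℝ) ≠ 0 := by linarith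
  have hne : dedekindZeta K (s : ℂ) ≠ 0 := fun h => hs (by rw [h, mul_zero])
  -- summability of the L-series
  set c : ℕ → ℂ := fun n ↦ (Nat.card {I : Ideal (𝓞 K) // absNorm I = n} : ℂ) with hc
  have hsum : LSeriesSummable c (s : ℂ) := by
    by_contra hcon
    apply hne
    unfold dedekindZeta LSeries
    exact tsum_eq_zero_of_not_summable hcon
  -- real version of the terms
  have hterm : ∀ n : ℕ, LSeries.term c (s : ℂ) n
      = (((Nat.card {I : Ideal (𝓞 K) // absNorm I = n} : ℝ) * (n : ℝ) ^ (-s) : ℝ) : ℂ) := by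
    intro n
    rcases eq_or_ne n 0 with rfl | hn
    · simp [LSeries.term, Real.zero_rpow (neg_ne_zero.mpr hs0)]
    · rw [LSeries.term_of_ne_zero hn]
      rw [hc]
      push_cast
      rw [div_eq_mul_inv, Complex.ofReal_cpow (by positivity), ← Complex.cpow_neg]
      push_cast
      rfl
  set r : ℕ → ℝ := fun n ↦ (Nat.card {I : Ideal (𝓞 K) // absNorm I = n} : ℝ) * (n : ℝ) ^ (-s)
    with hr
  have hrsum : Summable r := by
    have : Summable (fun n ↦ ((r n : ℝ) : ℂ)) := by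
      refine hsum.congr fun n => ?_
      rw [hterm n]
    exact_mod_cast this
  have hfin : ∀ n : ℕ, Finite {I : Ideal (𝓞 K) // absNorm I = n} := fun n =>
    (Ideal.finite_setOfPred_absNorm_eq n).to_subtype
  -- the sigma type
  let e := Equiv.sigmaFiberEquiv (fun I : Ideal (𝓞 K) => absNorm I)
  have hfib : ∀ (n : ℕ) (y : {I : Ideal (𝓞 K) // absNorm I = n}),
      idTerm K s (e ⟨n, y⟩) = (n : ℝ) ^ (-s) := by
    intro n y
    have : e ⟨n, y⟩ = (y : Ideal (𝓞 K)) := rfl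
    rw [this, idTerm, y.2]
  have hin : ∀ n : ℕ, ∑' y : {I : Ideal (𝓞 K) // absNorm I = n}, idTerm K s (e ⟨n, y⟩) = r n := by
    intro n
    haveI := hfin n
    haveI := Fintype.ofFinite {I : Ideal (𝓞 K) // absNorm I = n}
    rw [tsum_fintype]
    simp only [hfib, Finset.sum_const, Finset.card_univ, nsmul_eq_mul, hr, Nat.card_eq_fintype_card]
  have hsig : Summable (fun x : (n : ℕ) × {I : Ideal (𝓞 K) // absNorm I = n} => idTerm K s (e x)) := by
    rw [summable_sigma_of_nonneg (fun x => idTerm_nonneg s _)]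
    refine ⟨fun n => ?_, ?_⟩
    · haveI := hfin n
      exact Summable.of_finite
    · simp only [hin]
      exact hrsum
  have hS : Summable (idTerm K s) := (e.summable_iff (f := idTerm K s)).mp hsig
  refine ⟨hS, ?_⟩
  have h5 : ∑' I, idTerm K s I = ∑' n, r n := by
    rw [← e.tsum_eq (idTerm K s), hsig.tsum_sigma]
    simp only [hin]
  rw [h5, Complex.ofReal_tsum]
  unfold dedekindZeta LSeries
  refine tsum_congr fun n => ?_
  rw [← hterm n]


variable {K}

/-- nonzero ideals prime to `S` -/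
def copTo (S : Finset (Ideal (𝓞 K))) : Set (Ideal (𝓞 K)) := {I | I ≠ ⊥ ∧ ∀ P ∈ S, ¬ P ∣ I}

/-- sieved zeta sum -/
def sieved (S : Finset (Ideal (𝓞 K))) (s : ℝ) : ℝ := ∑' I, (copTo S).indicator (idTerm K s) I

theorem idTerm_bot {s : ℝ} (hs : s ≠ 0) : idTerm K s ⊥ = 0 := by
  simp [idTerm, Real.zero_rpow (neg_ne_zero.mpr hs)]

theorem sieved_empty {s : ℝ} (hs : s ≠ 0) : sieved (K := K) ∅ s = ∑' I, idTerm K s I := by
  unfold sieved
  refine tsum_congr fun I => ?_
  by_cases hI : I = ⊥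
  · rw [hI, idTerm_bot hs]
    simp [Set.indicator, idTerm_bot hs]
  · rw [Set.indicator_of_mem]
    exact ⟨hI, by simp⟩

theorem sieved_insert {s : ℝ} (hs : Summable (idTerm K s)) (S : Finset (Ideal (𝓞 K)))
    (hS : ∀ P ∈ S, Prime P) {P : Ideal (𝓞 K)} (hP : Prime P) (hPS : P ∉ S) :
    sieved (insert P S) s = (1 - idTerm K s P) * sieved S s := by
  classical
  have hsS : Summable ((copTo S).indicator (idTerm K s)) := hs.indicator _
  set h : Ideal (𝓞 K) → ℝ := ({I | I ∈ copTo S ∧ P ∣ I}).indicator (idTerm K s) with hh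
  have hsh : Summable h := hs.indicator _
  have hsplit : ∀ I, (copTo (insert P S)).indicator (idTerm K s) I
      = (copTo S).indicator (idTerm K s) I - h I := by
    intro I
    by_cases h1 : I ∈ copTo S
    · by_cases h2 : P ∣ I
      · have h3 : I ∉ copTo (insert P S) := fun hI => hI.2 P (Finset.mem_insert_self _ _) h2
        have h4 : I ∈ ({I | I ∈ copTo S ∧ P ∣ I} : Set (Ideal (𝓞 K))) := ⟨h1, h2⟩
        rw [hh, Set.indicator_of_mem h1, Set.indicator_of_mem h4, Set.indicator_of_notMem h3]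
        ring
      · have h3 : I ∈ copTo (insert P S) := by
          refine ⟨h1.1, fun Q hQ => ?_⟩
          rcases Finset.mem_insert.mp hQ with rfl | hQ
          · exact h2
          · exact h1.2 Q hQ
        have h4 : I ∉ ({I | I ∈ copTo S ∧ P ∣ I} : Set (Ideal (𝓞 K))) := fun h => h2 h.2
        rw [hh, Set.indicator_of_mem h1, Set.indicator_of_notMem h4, Set.indicator_of_mem h3]
        ring
    · have h3 : I ∉ copTo (insert P S) :=
        fun hI => h1 ⟨hI.1, fun Q hQ => hI.2 Q (Finset.mem_insert_of_mem hQ)⟩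
      have h4 : I ∉ ({I | I ∈ copTo S ∧ P ∣ I} : Set (Ideal (𝓞 K))) := fun h => h1 h.1
      rw [hh, Set.indicator_of_notMem h1, Set.indicator_of_notMem h4, Set.indicator_of_notMem h3]
      ring
  have hinj : Function.Injective (fun J : Ideal (𝓞 K) => P * J) :=
    fun J J' hJ => mul_left_cancel₀ hP.ne_zero hJ
  have hh2 : ∑' I, h I = idTerm K s P * sieved S s := by
    have hsupp : Function.support h ⊆ Set.range (fun J : Ideal (𝓞 K) => P * J) := by
      intro I hI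
      have : I ∈ ({I | I ∈ copTo S ∧ P ∣ I} : Set (Ideal (𝓞 K))) := by
        by_contra hcon
        exact hI (by rw [hh, Set.indicator_of_notMem hcon])
      obtain ⟨J, hJ⟩ := this.2
      exact ⟨J, hJ.symm⟩
    rw [← hinj.tsum_eq hsupp]
    unfold sieved
    rw [← tsum_mul_left]
    refine tsum_congr fun J => ?_
    by_cases h1 : J ∈ copTo S
    · have h2 : P * J ∈ ({I | I ∈ copTo S ∧ P ∣ I} : Set (Ideal (𝓞 K))) := by
        refine ⟨⟨mul_ne_zero hP.ne_zero h1.1, fun Q hQ hd => ?_⟩, Dvd.intro _ rfl⟩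
        rcases (hS Q hQ).dvd_or_dvd hd with h | h
        · have : Q = P := by
            rw [← associated_iff_eq]
            exact (hS Q hQ).associated_of_dvd hP h
          exact hPS (this ▸ hQ)
        · exact h1.2 Q hQ h
      rw [hh, Set.indicator_of_mem h2, Set.indicator_of_mem h1, idTerm_mul]
    · have h2 : P * J ∉ ({I | I ∈ copTo S ∧ P ∣ I} : Set (Ideal (𝓞 K))) := by
        rintro ⟨h3, -⟩
        apply h1
        refine ⟨fun h => h3.1 (by rw [h, Ideal.mul_bot]), fun Q hQ hd => h3.2 Q hQ (hd.mul_left _)⟩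
      rw [hh, Set.indicator_of_notMem h2, Set.indicator_of_notMem h1, mul_zero]
  have : sieved (insert P S) s = sieved S s - ∑' I, h I := by
    unfold sieved
    rw [← hsS.tsum_sub hsh]
    exact tsum_congr hsplit
  rw [this, hh2]
  ring

theorem sieved_eq {s : ℝ} (hs0 : s ≠ 0) (hs : Summable (idTerm K s)) (S : Finset (Ideal (𝓞 K)))
    (hS : ∀ P ∈ S, Prime P) :
    sieved S s = (∏ P ∈ S, (1 - idTerm K s P)) * ∑' I, idTerm K s I := by
  classical
  induction S using Finset.induction_on with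
  | empty => simp [sieved_empty hs0]
  | insert P S hPS ih =>
    rw [sieved_insert hs S (fun Q hQ => hS Q (Finset.mem_insert_of_mem hQ))
      (hS P (Finset.mem_insert_self _ _)) hPS, ih (fun Q hQ => hS Q (Finset.mem_insert_of_mem hQ)),
      Finset.prod_insert hPS]
    ring

theorem one_le_sieved {s : ℝ} (hs : Summable (idTerm K s)) (S : Finset (Ideal (𝓞 K)))
    (hS : ∀ P ∈ S, Prime P) : 1 ≤ sieved S s := by
  classical
  have hsS : Summable ((copTo S).indicator (idTerm K s)) := hs.indicator _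
  have h1 : (copTo S).indicator (idTerm K s) ⊤ ≤ sieved S s := by
    unfold sieved
    exact hsS.le_tsum ⊤ (fun J _ => Set.indicator_nonneg (fun I _ => idTerm_nonneg s I) J)
  have h2 : (⊤ : Ideal (𝓞 K)) ∈ copTo S := by
    refine ⟨top_ne_bot, fun P hP hd => ?_⟩
    exact (hS P hP).not_isUnit (isUnit_of_dvd_unit hd (by rw [Ideal.isUnit_iff]))
  rw [Set.indicator_of_mem h2, idTerm_top] at h1
  exact h1

/-- if `S` contains all prime divisors of the members of a big finite set, the sieved sum is small -/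
theorem exists_sieved_le_two {s : ℝ} (hs : Summable (idTerm K s)) :
    ∃ S : Finset (Ideal (𝓞 K)), (∀ P ∈ S, Prime P) ∧ sieved S s ≤ 2 := by
  classical
  obtain ⟨T, hT⟩ := (hs.tendsto_cofinite_zero |> fun _ => hs.vanishing
    (Metric.ball_mem_nhds (0 : ℝ) one_pos))
  -- the prime divisors
  set S : Finset (Ideal (𝓞 K)) :=
    (T.filter (fun I => I ≠ ⊥)).biUnion
      (fun I => (UniqueFactorizationMonoid.normalizedFactors I).toFinset) with hS
  have hSp : ∀ P ∈ S, Prime P := by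
    intro P hP
    obtain ⟨I, hI, hPI⟩ := Finset.mem_biUnion.mp hP
    exact UniqueFactorizationMonoid.prime_of_normalized_factor P (Multiset.mem_toFinset.mp hPI)
  refine ⟨S, hSp, ?_⟩
  have hkey : ∀ I ∈ T, I ∈ copTo S → I = ⊤ := by
    intro I hIT hI
    by_contra hne
    have hnu : ¬ IsUnit I := by rwa [Ideal.isUnit_iff]
    obtain ⟨P, hP⟩ := UniqueFactorizationMonoid.exists_mem_normalizedFactors hI.1 hnu
    exact hI.2 P (Finset.mem_biUnion.mpr ⟨I, Finset.mem_filter.mpr ⟨hIT, hI.1⟩,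
      Multiset.mem_toFinset.mpr hP⟩) (UniqueFactorizationMonoid.dvd_of_mem_normalizedFactors hP)
  have hsS : Summable ((copTo S).indicator (idTerm K s)) := hs.indicator _
  unfold sieved
  refine hsS.tsum_le_of_sum_le fun U => ?_
  have h1 : ∑ I ∈ U, (copTo S).indicator (idTerm K s) I ≤
      ∑ I ∈ insert ⊤ (U \ T), (copTo S).indicator (idTerm K s) I := by
    rw [← Finset.sum_filter_add_sum_filter_not U (fun I => I ∈ T)]
    have h2 : ∑ I ∈ U.filter (fun I => I ∈ T), (copTo S).indicator (idTerm K s) I ≤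
        ∑ I ∈ ({⊤} : Finset (Ideal (𝓞 K))) \ (U \ T), (copTo S).indicator (idTerm K s) I := by
      by_cases hmem : (⊤ : Ideal (𝓞 K)) ∈ U.filter (fun I => I ∈ T)
      · have hss : ({⊤} : Finset (Ideal (𝓞 K))) \ (U \ T) = {⊤} := by
          rw [Finset.sdiff_eq_self_iff_disjoint, Finset.disjoint_singleton_left]
          simp only [Finset.mem_sdiff, not_and, not_not]
          intro _
          exact (Finset.mem_filter.mp hmem).2
        rw [hss]
        refine (Finset.sum_subset (Finset.singleton_subset_iff.mpr hmem) ?_).symm.le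
        intro I hI hI2
        rw [Set.indicator_of_notMem]
        intro hIc
        exact hI2 (Finset.mem_singleton.mpr (hkey I (Finset.mem_filter.mp hI).2 hIc))
      · have h0 : ∑ I ∈ U.filter (fun I => I ∈ T), (copTo S).indicator (idTerm K s) I = 0 := by
          refine Finset.sum_eq_zero fun I hI => ?_
          rw [Set.indicator_of_notMem]
          intro hIc
          have := hkey I (Finset.mem_filter.mp hI).2 hIc
          exact hmem (this ▸ hI)
        rw [h0]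
        exact Finset.sum_nonneg fun I _ => Set.indicator_nonneg (fun I _ => idTerm_nonneg s I) I
    have h3 : U.filter (fun I => ¬ I ∈ T) = U \ T := by
      ext I; simp
    rw [h3]
    have h4 : insert (⊤ : Ideal (𝓞 K)) (U \ T) = ({⊤} \ (U \ T)) ∪ (U \ T) := by
      rw [Finset.sdiff_union_self_eq_union]; rfl
    rw [h4, Finset.sum_union Finset.sdiff_disjoint]
    linarith
  refine h1.trans ?_
  have h5 : ∑ I ∈ U \ T, (copTo S).indicator (idTerm K s) I ≤ 1 := by
    have h6 : ∑ I ∈ U \ T, (copTo S).indicator (idTerm K s) I ≤ ∑ I ∈ U \ T, idTerm K s I :=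
      Finset.sum_le_sum fun I _ => Set.indicator_le_self' (fun _ _ => idTerm_nonneg s _) I
    have h7 := hT (U \ T) Finset.sdiff_disjoint
    rw [Metric.mem_ball, dist_zero_right] at h7
    have h8 := (le_abs_self _).trans_lt h7
    linarith
  have h9 : (copTo S).indicator (idTerm K s) ⊤ ≤ 1 := by
    rw [← idTerm_top (K := K) s]
    exact Set.indicator_le_self' (fun _ _ => idTerm_nonneg s _) _
  have h10 : ∑ I ∈ insert ⊤ (U \ T), (copTo S).indicator (idTerm K s) I ≤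
      (copTo S).indicator (idTerm K s) ⊤ + ∑ I ∈ U \ T, (copTo S).indicator (idTerm K s) I := by
    by_cases hmem : (⊤ : Ideal (𝓞 K)) ∈ U \ T
    · rw [Finset.insert_eq_of_mem hmem]
      have := Set.indicator_nonneg (s := copTo S) (fun I _ => idTerm_nonneg s I) (⊤ : Ideal (𝓞 K))
      linarith
    · rw [Finset.sum_insert hmem]
  linarith


theorem exists_prime_norm {P : Ideal (𝓞 K)} (hP : Prime P) :
    ∃ q f : ℕ, q.Prime ∧ 1 ≤ f ∧ absNorm P = q ^ f ∧ P ∣ span {(q : 𝓞 K)} := by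
  have hPp : P.IsPrime := (Ideal.prime_iff_isPrime hP.ne_zero).mp hP
  have h1 : ((absNorm P : ℕ) : 𝓞 K) ∈ P := Ideal.absNorm_mem P
  have h0 : absNorm P ≠ 0 := by
    rw [Ne, Ideal.absNorm_eq_zero_iff]; exact hP.ne_zero
  have hne1 : absNorm P ≠ 1 := by
    rw [Ne, Ideal.absNorm_eq_one_iff]; exact hPp.ne_top
  -- a prime factor in P
  have h2 : ∀ n : ℕ, n ≠ 0 → (n : 𝓞 K) ∈ P → ∃ q : ℕ, q.Prime ∧ (q : 𝓞 K) ∈ P := by
    intro n
    induction n using Nat.recOnMul with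
    | zero => intro h; exact absurd rfl h
    | one =>
      intro _ h
      exact absurd ((Ideal.eq_top_iff_one P).mpr (by simpa using h)) hPp.ne_top
    | prime p hp => intro _ h; exact ⟨p, hp, h⟩
    | mul a b ha hb =>
      intro hab h
      rw [Nat.cast_mul] at h
      rcases hPp.mem_or_mem h with h | h
      · exact ha (left_ne_zero_of_mul hab) h
      · exact hb (right_ne_zero_of_mul hab) h
  obtain ⟨q, hq, hqP⟩ := h2 _ h0 h1
  have h3 : P ∣ span {(q : 𝓞 K)} := by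
    rw [Ideal.dvd_span_singleton]; exact hqP
  have h4 : absNorm P ∣ q ^ Module.finrank ℤ (𝓞 K) := by
    rw [← Ideal.absNorm_span_natCast]
    exact Ideal.absNorm_dvd_absNorm_of_le (Ideal.dvd_iff_le.mp h3)
  obtain ⟨f, -, hf⟩ := (Nat.dvd_prime_pow hq).mp h4
  refine ⟨q, f, hq, ?_, hf, h3⟩
  rcases Nat.eq_zero_or_pos f with h | h
  · rw [h, pow_zero] at hf; exact absurd hf hne1
  · exact h

theorem two_le_absNorm {P : Ideal (𝓞 K)} (hP : Prime P) : 2 ≤ absNorm P := by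
  obtain ⟨q, f, hq, hf, h, -⟩ := exists_prime_norm hP
  rw [h]
  exact hq.two_le.trans (Nat.le_self_pow (by omega) q)

theorem card_le_of_dvd (S : Finset (Ideal (𝓞 K))) (hS : ∀ P ∈ S, Prime P) {q : ℕ} (hq : q.Prime)
    (hSq : ∀ P ∈ S, P ∣ span {(q : 𝓞 K)}) : S.card ≤ Module.finrank ℤ (𝓞 K) := by
  have h1 : ∏ P ∈ S, P ∣ span {(q : 𝓞 K)} := Finset.prod_primes_dvd _ hS hSq
  have h2 : absNorm (∏ P ∈ S, P) ∣ q ^ Module.finrank ℤ (𝓞 K) := by
    rw [← Ideal.absNorm_span_natCast]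
    exact Ideal.absNorm_dvd_absNorm_of_le (Ideal.dvd_iff_le.mp h1)
  have h3 : q ^ S.card ≤ absNorm (∏ P ∈ S, P) := by
    rw [map_prod, ← Finset.prod_const]
    refine Finset.prod_le_prod' fun P hP => ?_
    have h4 : absNorm P ∣ q ^ Module.finrank ℤ (𝓞 K) := by
      rw [← Ideal.absNorm_span_natCast]
      exact Ideal.absNorm_dvd_absNorm_of_le (Ideal.dvd_iff_le.mp (hSq P hP))
    obtain ⟨f, -, hf⟩ := (Nat.dvd_prime_pow hq).mp h4
    have h5 := two_le_absNorm (hS P hP)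
    rw [hf] at h5 ⊢
    have : f ≠ 0 := by rintro rfl; simp at h5
    exact Nat.le_self_pow this q
  have h6 : q ^ S.card ≤ q ^ Module.finrank ℤ (𝓞 K) :=
    h3.trans (Nat.le_of_dvd (pow_pos hq.pos _) h2)
  exact (Nat.pow_le_pow_iff_right hq.one_lt).mp h6

theorem sum_inv_bad_le (S : Finset (Ideal (𝓞 K))) (hS : ∀ P ∈ S, Prime P)
    (hbad : ∀ P ∈ S, ¬ (absNorm P).Prime) :
    ∑ P ∈ S, (absNorm P : ℝ)⁻¹ ≤ Module.finrank ℤ (𝓞 K) * ∑' k : ℕ, 1 / (k : ℝ) ^ 2 := by
  classical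
  have hsum : Summable (fun k : ℕ => 1 / (k : ℝ) ^ 2) := Real.summable_one_div_nat_pow.mpr (by norm_num)
  set U := S.image (fun P => (absNorm P).minFac) with hU
  have h1 : ∑ P ∈ S, (absNorm P : ℝ)⁻¹ =
      ∑ q ∈ U, ∑ P ∈ S.filter (fun P => (absNorm P).minFac = q), (absNorm P : ℝ)⁻¹ := by
    rw [Finset.sum_fiberwise_of_maps_to]
    intro P hP
    exact Finset.mem_image_of_mem _ hP
  rw [h1]
  have h2 : ∀ q ∈ U, ∑ P ∈ S.filter (fun P => (absNorm P).minFac = q), (absNorm P : ℝ)⁻¹ ≤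
      Module.finrank ℤ (𝓞 K) * (1 / (q : ℝ) ^ 2) := by
    intro q hqU
    obtain ⟨P0, hP0, hq0⟩ := Finset.mem_image.mp hqU
    have hqprime : q.Prime := by
      rw [← hq0]; exact Nat.minFac_prime (by have := two_le_absNorm (hS P0 hP0); omega)
    have h3 : ∀ P ∈ S.filter (fun P => (absNorm P).minFac = q),
        P ∣ span {(q : 𝓞 K)} ∧ (absNorm P : ℝ)⁻¹ ≤ 1 / (q : ℝ) ^ 2 := by
      intro P hP
      obtain ⟨hPS, hPq⟩ := Finset.mem_filter.mp hP
      obtain ⟨r, f, hr, hf, h, hd⟩ := exists_prime_norm (hS P hPS)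
      have hrq : r = q := by
        rw [← hPq, h, Nat.Prime.pow_minFac hr (by omega)]
      subst hrq
      refine ⟨hd, ?_⟩
      have hf2 : 2 ≤ f := by
        rcases Nat.lt_or_ge f 2 with h2 | h2
        · exfalso
          have : f = 1 := by omega
          rw [this, pow_one] at h
          exact hbad P hPS (h ▸ hr)
        · exact h2
      rw [h]
      push_cast
      rw [← one_div]
      have hr1 : (1 : ℝ) ≤ r := by exact_mod_cast hr.one_lt.le
      have hr0 : (0 : ℝ) < r := by linarith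
      exact one_div_le_one_div_of_le (by positivity) (pow_le_pow_right₀ hr1 hf2)
    calc ∑ P ∈ S.filter (fun P => (absNorm P).minFac = q), (absNorm P : ℝ)⁻¹
        ≤ ∑ P ∈ S.filter (fun P => (absNorm P).minFac = q), 1 / (q : ℝ) ^ 2 :=
          Finset.sum_le_sum fun P hP => (h3 P hP).2
      _ = (S.filter (fun P => (absNorm P).minFac = q)).card * (1 / (q : ℝ) ^ 2) := by
          rw [Finset.sum_const, nsmul_eq_mul]
      _ ≤ Module.finrank ℤ (𝓞 K) * (1 / (q : ℝ) ^ 2) := by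
          refine mul_le_mul_of_nonneg_right ?_ (by positivity)
          exact_mod_cast card_le_of_dvd _ (fun P hP => hS P (Finset.mem_filter.mp hP).1) hqprime
            (fun P hP => (h3 P hP).1)
  calc ∑ q ∈ U, ∑ P ∈ S.filter (fun P => (absNorm P).minFac = q), (absNorm P : ℝ)⁻¹
      ≤ ∑ q ∈ U, Module.finrank ℤ (𝓞 K) * (1 / (q : ℝ) ^ 2) := Finset.sum_le_sum h2
    _ = Module.finrank ℤ (𝓞 K) * ∑ q ∈ U, (1 / (q : ℝ) ^ 2) := by rw [Finset.mul_sum]
    _ ≤ _ := by
      refine mul_le_mul_of_nonneg_left ?_ (by positivity)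
      exact hsum.sum_le_tsum U (fun k _ => by positivity)

theorem idTerm_le_inv {s : ℝ} (hs : 1 ≤ s) {P : Ideal (𝓞 K)} (hP : Prime P) :
    idTerm K s P ≤ (absNorm P : ℝ)⁻¹ := by
  unfold idTerm
  rw [← Real.rpow_neg_one]
  have h2 : (2 : ℝ) ≤ absNorm P := by exact_mod_cast two_le_absNorm hP
  exact Real.rpow_le_rpow_of_exponent_le (by linarith) (by linarith)

theorem idTerm_le_half {s : ℝ} (hs : 1 ≤ s) {P : Ideal (𝓞 K)} (hP : Prime P) :
    idTerm K s P ≤ 1 / 2 := by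
  refine (idTerm_le_inv hs hP).trans ?_
  have h2 : (2 : ℝ) ≤ absNorm P := by exact_mod_cast two_le_absNorm hP
  rw [← one_div]
  exact one_div_le_one_div_of_le (by norm_num) h2

theorem exp_le_one_sub {x : ℝ} (h0 : 0 ≤ x) (h : x ≤ 1 / 2) : Real.exp (-(2 * x)) ≤ 1 - x := by
  rw [Real.exp_neg, inv_le_comm₀ (Real.exp_pos _) (by linarith)]
  have h1 : (1 - x)⁻¹ ≤ 1 + 2 * x := by
    rw [inv_le_iff_one_le_mul₀ (by linarith)]
    nlinarith
  have h2 := Real.add_one_le_exp (2 * x)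
  linarith

variable (K) in
theorem exists_bad_bound (B0 : Finset (Ideal (𝓞 K))) :
    ∃ c : ℝ, 0 < c ∧ ∀ (s : ℝ), 1 ≤ s → ∀ S : Finset (Ideal (𝓞 K)), (∀ P ∈ S, Prime P) →
      (∀ P ∈ S, ¬ (absNorm P).Prime ∨ P ∈ B0) → c ≤ ∏ P ∈ S, (1 - idTerm K s P) := by
  classical
  refine ⟨(1 / 2) ^ B0.card * Real.exp (-(2 * (Module.finrank ℤ (𝓞 K) * ∑' k : ℕ, 1 / (k : ℝ) ^ 2))),
    by positivity, ?_⟩
  intro s hs S hS hbad
  rw [← Finset.prod_filter_mul_prod_filter_not S (fun P => P ∈ B0)]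
  refine mul_le_mul ?_ ?_ (by positivity) ?_
  · calc ((1 : ℝ) / 2) ^ B0.card ≤ (1 / 2) ^ (S.filter (fun P => P ∈ B0)).card := by
          refine pow_le_pow_of_le_one (by norm_num) (by norm_num) (Finset.card_le_card ?_)
          intro P hP
          exact (Finset.mem_filter.mp hP).2
      _ = ∏ P ∈ S.filter (fun P => P ∈ B0), (1 / 2 : ℝ) := by rw [Finset.prod_const]
      _ ≤ _ := by
          refine Finset.prod_le_prod (fun _ _ => by norm_num) fun P hP => ?_
          have := idTerm_le_half hs (hS P (Finset.mem_filter.mp hP).1)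
          linarith
  · calc Real.exp (-(2 * (Module.finrank ℤ (𝓞 K) * ∑' k : ℕ, 1 / (k : ℝ) ^ 2)))
        ≤ Real.exp (-(2 * ∑ P ∈ S.filter (fun P => ¬ P ∈ B0), (absNorm P : ℝ)⁻¹)) := by
          refine Real.exp_le_exp.mpr ?_
          have := sum_inv_bad_le (S.filter (fun P => ¬ P ∈ B0))
            (fun P hP => hS P (Finset.mem_filter.mp hP).1) (fun P hP => by
              obtain ⟨h1, h2⟩ := Finset.mem_filter.mp hP
              exact (hbad P h1).resolve_right h2)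
          linarith
      _ ≤ Real.exp (∑ P ∈ S.filter (fun P => ¬ P ∈ B0), -(2 * idTerm K s P)) := by
          refine Real.exp_le_exp.mpr ?_
          rw [Finset.mul_sum, ← Finset.sum_neg_distrib]
          refine Finset.sum_le_sum fun P hP => ?_
          have := idTerm_le_inv hs (hS P (Finset.mem_filter.mp hP).1)
          linarith
      _ = ∏ P ∈ S.filter (fun P => ¬ P ∈ B0), Real.exp (-(2 * idTerm K s P)) := by
          rw [Real.exp_sum]
      _ ≤ _ := by
          refine Finset.prod_le_prod (fun _ _ => by positivity) fun P hP => ?_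
          exact exp_le_one_sub (idTerm_nonneg _ _) (idTerm_le_half hs (hS P (Finset.mem_filter.mp hP).1))
  · refine Finset.prod_nonneg fun P hP => ?_
    have := idTerm_le_half hs (hS P (Finset.mem_filter.mp hP).1)
    linarith


/-- Comparison theorem: it is impossible that outside a finite set every prime `P` of `F` of prime
norm has at least `ℓ ≥ 2` companions of the same norm in `L`, distinct for distinct `P`. -/
theorem zeta_compare {F L : Type*} [Field F] [NumberField F] [Field L] [NumberField L] {ℓ : ℕ}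
    (hℓ : 2 ≤ ℓ) (B0 : Finset (Ideal (𝓞 F))) (T : Ideal (𝓞 F) → Finset (Ideal (𝓞 L)))
    (hT : ∀ P : Ideal (𝓞 F), Prime P → (absNorm P).Prime → P ∉ B0 →
      (T P).card = ℓ ∧ ∀ Q ∈ T P, Prime Q ∧ absNorm Q = absNorm P)
    (hdisj : ∀ P P' : Ideal (𝓞 F), Prime P → (absNorm P).Prime → P ∉ B0 →
      Prime P' → (absNorm P').Prime → P' ∉ B0 → P ≠ P' → Disjoint (T P) (T P')) : False := by
  classical
  obtain ⟨c, hc0, hc⟩ := exists_bad_bound F B0
  -- main inequality
  have hmain : ∀ᶠ s : ℝ in 𝓝[>] 1, (c * ‖dedekindZeta F (s : ℂ)‖) ^ ℓ ≤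
      2 ^ ℓ * ‖dedekindZeta L (s : ℂ)‖ := by
    filter_upwards [eventually_summable_idTerm F, eventually_summable_idTerm L,
      self_mem_nhdsWithin] with s hF hL hs1
    have hs1' : (1 : ℝ) < s := hs1
    have hs0 : s ≠ 0 := by linarith
    obtain ⟨hF1, hF2⟩ := hF
    obtain ⟨hL1, hL2⟩ := hL
    set ZF := ∑' I, idTerm F s I with hZF
    set ZL := ∑' I, idTerm L s I with hZL
    have hZF0 : 0 ≤ ZF := tsum_nonneg fun I => idTerm_nonneg s I
    have hZL0 : 0 ≤ ZL := tsum_nonneg fun I => idTerm_nonneg s I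
    rw [hF2, hL2, Complex.norm_real, Complex.norm_real, Real.norm_of_nonneg hZF0,
      Real.norm_of_nonneg hZL0]
    obtain ⟨S, hS, hS2⟩ := exists_sieved_le_two hF1
    rw [sieved_eq hs0 hF1 S hS, ← hZF] at hS2
    set Sg := S.filter (fun P => (absNorm P).Prime ∧ P ∉ B0) with hSg
    set Sb := S.filter (fun P => ¬ ((absNorm P).Prime ∧ P ∉ B0)) with hSb
    set g := ∏ P ∈ Sg, (1 - idTerm F s P) with hg
    have hg0 : 0 ≤ g := by
      refine Finset.prod_nonneg fun P hP => ?_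
      have := idTerm_le_half hs1'.le (hS P (Finset.mem_filter.mp hP).1)
      linarith
    have h1 : (∏ P ∈ S, (1 - idTerm F s P)) = g * ∏ P ∈ Sb, (1 - idTerm F s P) := by
      rw [hg, hSg, hSb, Finset.prod_filter_mul_prod_filter_not]
    have h2 : c ≤ ∏ P ∈ Sb, (1 - idTerm F s P) := by
      refine hc s hs1'.le Sb (fun P hP => hS P (Finset.mem_filter.mp hP).1) fun P hP => ?_
      have := (Finset.mem_filter.mp hP).2
      tauto
    have h3 : c * ZF * g ≤ 2 := by
      calc c * ZF * g = g * c * ZF := by ring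
        _ ≤ g * (∏ P ∈ Sb, (1 - idTerm F s P)) * ZF := by gcongr
        _ ≤ 2 := by rw [← h1]; exact hS2
    -- lower bound for `L`
    set V := Sg.biUnion T with hV
    have hVp : ∀ Q ∈ V, Prime Q := by
      intro Q hQ
      obtain ⟨P, hP, hQP⟩ := Finset.mem_biUnion.mp hQ
      obtain ⟨hPS, hPn, hPB⟩ := Finset.mem_filter.mp hP
      exact ((hT P (hS P hPS) hPn hPB).2 Q hQP).1
    have h4 := one_le_sieved hL1 V hVp
    rw [sieved_eq hs0 hL1 V hVp, ← hZL] at h4
    have h5 : ∏ Q ∈ V, (1 - idTerm L s Q) = g ^ ℓ := by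
      rw [hV, Finset.prod_biUnion, hg, ← Finset.prod_pow]
      · refine Finset.prod_congr rfl fun P hP => ?_
        obtain ⟨hPS, hPn, hPB⟩ := Finset.mem_filter.mp hP
        obtain ⟨h6, h7⟩ := hT P (hS P hPS) hPn hPB
        rw [Finset.prod_congr rfl (g := fun _ => 1 - idTerm F s P), Finset.prod_const, h6]
        intro Q hQ
        unfold idTerm
        rw [(h7 Q hQ).2]
      · intro P hP P' hP' hne
        obtain ⟨hPS, hPn, hPB⟩ := Finset.mem_filter.mp hP
        obtain ⟨hPS', hPn', hPB'⟩ := Finset.mem_filter.mp hP'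
        exact hdisj P P' (hS P hPS) hPn hPB (hS P' hPS') hPn' hPB' hne
    rw [h5] at h4
    calc (c * ZF) ^ ℓ ≤ (c * ZF) ^ ℓ * (g ^ ℓ * ZL) := by
          have : 0 ≤ (c * ZF) ^ ℓ := by positivity
          nlinarith
      _ = (c * ZF * g) ^ ℓ * ZL := by ring
      _ ≤ 2 ^ ℓ * ZL := by
          gcongr
  -- limit
  have hF := tendsto_sub_one_mul_dedekindZeta_nhdsGT F
  have hL := tendsto_sub_one_mul_dedekindZeta_nhdsGT L
  have hlim1 : Tendsto (fun s : ℝ => (c * ‖((s : ℂ) - 1) * dedekindZeta F s‖) ^ ℓ) (𝓝[>] 1)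
      (𝓝 ((c * ‖((dedekindZeta_residue F : ℝ) : ℂ)‖) ^ ℓ)) :=
    (hF.norm.const_mul c).pow ℓ
  have hlim0 : Tendsto (fun s : ℝ => ‖(s : ℂ) - 1‖ ^ (ℓ - 1)) (𝓝[>] 1) (𝓝 (0 ^ (ℓ - 1))) := by
    have : Tendsto (fun s : ℝ => ‖(s : ℂ) - 1‖) (𝓝[>] 1) (𝓝 0) := by
      have h : Continuous (fun s : ℝ => ‖(s : ℂ) - 1‖) := by fun_prop
      have h' := h.tendsto 1
      simp only [Complex.ofReal_one, sub_self, norm_zero] at h'
      exact h'.mono_left nhdsWithin_le_nhds
    exact this.pow _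
  rw [zero_pow (by omega)] at hlim0
  have hlim2 : Tendsto (fun s : ℝ => 2 ^ ℓ * (‖(s : ℂ) - 1‖ ^ (ℓ - 1) *
      ‖((s : ℂ) - 1) * dedekindZeta L s‖)) (𝓝[>] 1)
      (𝓝 (2 ^ ℓ * (0 * ‖((dedekindZeta_residue L : ℝ) : ℂ)‖))) :=
    (hlim0.mul hL.norm).const_mul _
  have hle : (c * ‖((dedekindZeta_residue F : ℝ) : ℂ)‖) ^ ℓ ≤
      2 ^ ℓ * (0 * ‖((dedekindZeta_residue L : ℝ) : ℂ)‖) := by
    refine le_of_tendsto_of_tendsto hlim1 hlim2 ?_
    filter_upwards [hmain] with s hs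
    rw [norm_mul, norm_mul]
    obtain ⟨k, rfl⟩ : ∃ k, ℓ = k + 1 := ⟨ℓ - 1, by omega⟩
    simp only [Nat.add_sub_cancel]
    calc (c * (‖(s : ℂ) - 1‖ * ‖dedekindZeta F s‖)) ^ (k + 1)
        = ‖(s : ℂ) - 1‖ ^ (k + 1) * (c * ‖dedekindZeta F s‖) ^ (k + 1) := by ring
      _ ≤ ‖(s : ℂ) - 1‖ ^ (k + 1) * (2 ^ (k + 1) * ‖dedekindZeta L s‖) := by gcongr
      _ = _ := by ring
  rw [zero_mul, mul_zero] at hle
  have hpos : 0 < (c * ‖((dedekindZeta_residue F : ℝ) : ℂ)‖) ^ ℓ := by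
    have h0 : ((dedekindZeta_residue F : ℝ) : ℂ) ≠ 0 := by
      exact_mod_cast dedekindZeta_residue_ne_zero F
    positivity
  linarith

/-- there are infinitely many primes of prime norm -/
theorem exists_prime_norm_notMem (F : Type*) [Field F] [NumberField F]
    (B0 : Finset (Ideal (𝓞 F))) : ∃ P : Ideal (𝓞 F), Prime P ∧ (absNorm P).Prime ∧ P ∉ B0 := by
  by_contra hcon
  push Not at hcon
  refine zeta_compare (F := F) (L := F) (ℓ := 2) le_rfl B0 (fun _ => ∅) ?_ ?_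
  · intro P hP hPn hPB
    exact absurd (hcon P hP hPn) hPB
  · intro P P' hP hPn hPB
    exact absurd (hcon P hP hPn) hPB


open Polynomial

theorem finite_primes_mem {F : Type*} [Field F] [NumberField F] (x : 𝓞 F) (hx : x ≠ 0) :
    {P : Ideal (𝓞 F) | Prime P ∧ x ∈ P}.Finite := by
  classical
  have h1 : span {x} ≠ (⊥ : Ideal (𝓞 F)) := by
    rwa [Ne, Ideal.span_singleton_eq_bot]
  refine (UniqueFactorizationMonoid.normalizedFactors (span {x})).toFinset.finite_toSet.subset ?_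
  rintro P ⟨hP, hxP⟩
  rw [Finset.mem_coe, Multiset.mem_toFinset]
  obtain ⟨Q, hQ, hPQ⟩ := UniqueFactorizationMonoid.exists_mem_normalizedFactors_of_dvd h1
    hP.irreducible ((Ideal.dvd_span_singleton).mpr hxP)
  rw [associated_iff_eq] at hPQ
  rwa [hPQ]

theorem kummer_split {F L : Type*} [Field F] [NumberField F] [Field L] [NumberField L]
    [Algebra F L] {ℓ : ℕ} (hℓ : ℓ.Prime) (hrank : Module.finrank F L = ℓ)
    {ζ γ : 𝓞 F} {δ : 𝓞 L} (hδ : δ ^ ℓ = algebraMap (𝓞 F) (𝓞 L) γ)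
    (hζ : IsPrimitiveRoot ζ ℓ)
    (φ : ℕ → 𝓞 L →+* 𝓞 L)
    (hφF : ∀ i (x : 𝓞 F), φ i (algebraMap (𝓞 F) (𝓞 L) x) = algebraMap (𝓞 F) (𝓞 L) x)
    (hφδ : ∀ i, φ i δ = algebraMap (𝓞 F) (𝓞 L) (ζ ^ i) * δ)
    {P : Ideal (𝓞 F)} (hP : Prime P) {t : 𝓞 F} (ht : t ^ ℓ - γ ∈ P) (hγP : γ ∉ P)
    (hζP : ∀ i < ℓ, ∀ j < ℓ, i ≠ j → ζ ^ i - ζ ^ j ∉ P) :
    (IsDedekindDomain.primesOverFinset P (𝓞 L)).card = ℓ ∧
      ∀ Q ∈ IsDedekindDomain.primesOverFinset P (𝓞 L), Prime Q ∧ absNorm Q = absNorm P := by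
  classical
  have hPp : P.IsPrime := (Ideal.prime_iff_isPrime hP.ne_zero).mp hP
  have hPne : P ≠ ⊥ := hP.ne_zero
  have hPm : P.IsMaximal := hPp.isMaximal hPne
  have htP : t ∉ P := by
    intro h
    apply hγP
    have h1 : t ^ ℓ ∈ P := P.pow_mem_of_mem h ℓ hℓ.pos
    have := P.sub_mem h1 ht
    simpa using this
  -- a prime above
  obtain ⟨Q, hQp, hQo⟩ : ∃ Q : Ideal (𝓞 L), Q.IsPrime ∧ Q.LiesOver P := by
    obtain ⟨⟨Q, hQ⟩⟩ := (inferInstance : Nonempty (P.primesOver (𝓞 L)))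
    exact ⟨Q, hQ.1, hQ.2⟩
  have hQP : ∀ x : 𝓞 F, algebraMap (𝓞 F) (𝓞 L) x ∈ Q ↔ x ∈ P := by
    intro x
    rw [hQo.over, Ideal.under_def, Ideal.mem_comap]
  have hζ' : IsPrimitiveRoot (algebraMap (𝓞 F) (𝓞 L) ζ) ℓ :=
    hζ.map_of_injective (FaithfulSMul.algebraMap_injective (𝓞 F) (𝓞 L))
  obtain ⟨j, hj, hjQ⟩ : ∃ j < ℓ, δ - algebraMap (𝓞 F) (𝓞 L) (ζ ^ j * t) ∈ Q := by
    have h1 : ∏ μ ∈ nthRootsFinset ℓ (1 : 𝓞 L), (δ - μ * algebraMap (𝓞 F) (𝓞 L) t) ∈ Q := by
      rw [← hζ'.pow_sub_pow_eq_prod_sub_mul _ _ hℓ.pos, hδ, ← map_pow, ← map_sub, hQP]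
      have := P.neg_mem ht
      simpa using this
    obtain ⟨μ, hμ, h⟩ := (hQp.prod_mem_iff).mp h1
    haveI : NeZero ℓ := ⟨hℓ.ne_zero⟩
    rw [Polynomial.mem_nthRootsFinset hℓ.pos] at hμ
    obtain ⟨i, hi, rfl⟩ := hζ'.eq_pow_of_pow_eq_one hμ
    refine ⟨i, hi, ?_⟩
    rw [map_mul, map_pow]
    exact h
  -- the translates
  have hinj : Function.Injective (fun i : Fin ℓ => Q.comap (φ i)) := by
    intro a b hab
    simp only at hab
    by_contra hne
    -- `ζ^a δ - ζ^j t ∈ Q` characterises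
    have key : ∀ (i k : ℕ), δ - algebraMap (𝓞 F) (𝓞 L) (ζ ^ k * t) ∈ Q.comap (φ i) ↔
        algebraMap (𝓞 F) (𝓞 L) (ζ ^ i * ζ ^ j * t - ζ ^ k * t) ∈ Q := by
      intro i k
      rw [Ideal.mem_comap, map_sub, hφF, hφδ]
      have h2 : algebraMap (𝓞 F) (𝓞 L) (ζ ^ i * ζ ^ j * t - ζ ^ k * t) =
          (algebraMap (𝓞 F) (𝓞 L) (ζ ^ i) * δ - algebraMap (𝓞 F) (𝓞 L) (ζ ^ k * t)) -
          algebraMap (𝓞 F) (𝓞 L) (ζ ^ i) * (δ - algebraMap (𝓞 F) (𝓞 L) (ζ ^ j * t)) := by
        simp only [map_sub, map_mul]; ring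
      rw [h2]
      constructor
      · intro h; exact Q.sub_mem h (Q.mul_mem_left _ hjQ)
      · intro h
        have := Q.add_mem h (Q.mul_mem_left (algebraMap (𝓞 F) (𝓞 L) (ζ ^ (i : ℕ))) hjQ)
        simpa using this
    have h3 : δ - algebraMap (𝓞 F) (𝓞 L) (ζ ^ ((a : ℕ) + j) * t) ∈ Q.comap (φ a) := by
      rw [key, ← pow_add, sub_self, map_zero]
      exact Q.zero_mem
    rw [hab, key, hQP] at h3
    have h4 : ζ ^ j * t * (ζ ^ (b : ℕ) - ζ ^ (a : ℕ)) ∈ P := by
      convert h3 using 1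
      ring
    rcases hPp.mem_or_mem h4 with h5 | h5
    · rcases hPp.mem_or_mem h5 with h6 | h6
      · have h7 : (1 : 𝓞 F) ∈ P := by
          rw [← hζ.pow_eq_one]
          obtain ⟨k, hk⟩ := Nat.exists_eq_add_of_le hj.le
          rw [hk, pow_add]
          exact P.mul_mem_right _ h6
        exact hPp.ne_top ((Ideal.eq_top_iff_one P).mpr h7)
      · exact htP h6
    · exact hζP b b.2 a a.2 (fun h => hne (Fin.ext h.symm)) h5
  have hmem : ∀ i : Fin ℓ, Q.comap (φ i) ∈ IsDedekindDomain.primesOverFinset P (𝓞 L) := by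
    intro i
    rw [IsDedekindDomain.mem_primesOverFinset_iff hPne]
    refine ⟨Ideal.IsPrime.comap _, ⟨?_⟩⟩
    ext x
    rw [Ideal.under_def, Ideal.mem_comap, Ideal.mem_comap, hφF, hQP]
  have hcard : ℓ ≤ (IsDedekindDomain.primesOverFinset P (𝓞 L)).card := by
    calc ℓ = (Finset.univ.image (fun i : Fin ℓ => Q.comap (φ i))).card := by
          rw [Finset.card_image_of_injective _ hinj, Finset.card_univ, Fintype.card_fin]
      _ ≤ _ := Finset.card_le_card (by
          intro R hR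
          obtain ⟨i, -, rfl⟩ := Finset.mem_image.mp hR
          exact hmem i)
  have hsum := Ideal.sum_ramification_inertia (𝓞 L) F L hPne
  rw [hrank] at hsum
  have hpos : ∀ R ∈ IsDedekindDomain.primesOverFinset P (𝓞 L),
      1 ≤ P.ramificationIdx' R * P.inertiaDeg' R := by
    intro R hR
    rw [IsDedekindDomain.mem_primesOverFinset_iff hPne] at hR
    haveI := hR.1
    haveI := hR.2
    have h1 : 0 < P.inertiaDeg' R := Ideal.inertiaDeg'_pos P R
    have h2 : P.ramificationIdx' R ≠ 0 :=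
      Ideal.IsDedekindDomain.ramificationIdx'_ne_zero_of_liesOver R hPne
    exact Nat.mul_pos (Nat.pos_of_ne_zero h2) h1
  have hle : (IsDedekindDomain.primesOverFinset P (𝓞 L)).card ≤ ℓ := by
    rw [← hsum, Finset.card_eq_sum_ones]
    exact Finset.sum_le_sum hpos
  have hcard' := le_antisymm hle hcard
  refine ⟨hcard', fun R hR => ?_⟩
  have heq : ∀ R ∈ IsDedekindDomain.primesOverFinset P (𝓞 L),
      1 = P.ramificationIdx' R * P.inertiaDeg' R := by
    rw [← Finset.sum_eq_sum_iff_of_le hpos, hsum, ← Finset.card_eq_sum_ones, hcard']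
  have h1 := heq R hR
  have h2 : P.inertiaDeg' R = 1 := Nat.eq_one_of_mul_eq_one_left h1.symm
  rw [IsDedekindDomain.mem_primesOverFinset_iff hPne] at hR
  haveI := hR.1
  haveI := hR.2
  refine ⟨(Ideal.prime_iff_isPrime (Ideal.ne_bot_of_liesOver_of_ne_bot hPne R)).mpr hR.1, ?_⟩
  rw [Ideal.absNorm_eq_pow_inertiaDeg'_of_liesOver R P hPp hPne, h2, pow_one]


/-- there is a Kummer extension with its automorphisms -/
theorem exists_kummer {F : Type} [Field F] [NumberField F] {ℓ : ℕ} (hℓ : ℓ.Prime)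
    {ζ : 𝓞 F} (hζ : IsPrimitiveRoot ζ ℓ) {γ : 𝓞 F} (hγ : ∀ c : F, c ^ ℓ ≠ (γ : F)) :
    ∃ (L : Type) (_ : Field L) (_ : NumberField L) (_ : Algebra F L) (δ : 𝓞 L)
      (φ : ℕ → 𝓞 L →+* 𝓞 L), Module.finrank F L = ℓ ∧ δ ^ ℓ = algebraMap (𝓞 F) (𝓞 L) γ ∧
      (∀ i (x : 𝓞 F), φ i (algebraMap (𝓞 F) (𝓞 L) x) = algebraMap (𝓞 F) (𝓞 L) x) ∧
      (∀ i, φ i δ = algebraMap (𝓞 F) (𝓞 L) (ζ ^ i) * δ) := by
  have hirr : Irreducible (X ^ ℓ - C (γ : F) : F[X]) := X_pow_sub_C_irreducible_of_prime hℓ hγ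
  haveI : Fact (Irreducible (X ^ ℓ - C (γ : F) : F[X])) := ⟨hirr⟩
  have hf0 : (X ^ ℓ - C (γ : F) : F[X]) ≠ 0 := hirr.ne_zero
  let L := AdjoinRoot (X ^ ℓ - C (γ : F) : F[X])
  let pb := AdjoinRoot.powerBasis hf0
  haveI : Module.Finite F L := pb.finite
  haveI : NumberField L := NumberField.of_module_finite F L
  have hrank : Module.finrank F L = ℓ := by
    rw [pb.finrank, AdjoinRoot.powerBasis_dim, natDegree_X_pow_sub_C]
  let δ : L := AdjoinRoot.root (X ^ ℓ - C (γ : F) : F[X])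
  have hδ : δ ^ ℓ = algebraMap F L (γ : F) := by
    have h := AdjoinRoot.eval₂_root (X ^ ℓ - C (γ : F) : F[X])
    rw [eval₂_sub, eval₂_pow, eval₂_X, eval₂_C, sub_eq_zero] at h
    exact h
  have hδint : IsIntegral ℤ δ := by
    have h1 : IsIntegral ℤ (δ ^ ℓ) := by
      rw [hδ]
      exact (RingOfIntegers.isIntegral_coe γ).algebraMap
    exact h1.of_pow hℓ.pos
  let δ' : 𝓞 L := ⟨δ, hδint⟩
  have hδ' : δ' ^ ℓ = algebraMap (𝓞 F) (𝓞 L) γ := by
    apply RingOfIntegers.coe_injective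
    exact hδ
  -- the automorphisms
  have hex : ∀ i : ℕ, ∃ σ : L →ₐ[F] L, σ δ = algebraMap F L ((ζ : F) ^ i) * δ := by
    intro i
    have h1 : (algebraMap F L ((ζ : F) ^ i) * δ) ^ ℓ = algebraMap F L (γ : F) := by
      rw [mul_pow, hδ, ← map_pow, ← pow_mul, mul_comm i, pow_mul]
      have : (ζ : F) ^ ℓ = 1 := by
        have := congrArg (algebraMap (𝓞 F) F) hζ.pow_eq_one
        simpa using this
      rw [this, one_pow, map_one, one_mul]
    have h0 : eval₂ ((Algebra.ofId F L : F →ₐ[F] L) : F →+* L)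
        (algebraMap F L ((ζ : F) ^ i) * δ) (X ^ ℓ - C (γ : F) : F[X]) = 0 := by
      rw [eval₂_sub, eval₂_pow, eval₂_X, eval₂_C, h1, sub_eq_zero]
      rfl
    refine ⟨AdjoinRoot.liftAlgHom _ (Algebra.ofId F L) _ h0, ?_⟩
    exact AdjoinRoot.lift_root h0
  choose σ hσ using hex
  refine ⟨L, inferInstance, inferInstance, inferInstance, δ',
    fun i => RingOfIntegers.mapRingHom ((σ i : L →ₐ[F] L) : L →+* L), hrank, hδ', ?_, ?_⟩
  · intro i x
    apply RingOfIntegers.coe_injective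
    change σ i (algebraMap F L (x : F)) = algebraMap F L (x : F)
    exact (σ i).commutes _
  · intro i
    apply RingOfIntegers.coe_injective
    change σ i δ = algebraMap (𝓞 L) L (algebraMap (𝓞 F) (𝓞 L) (ζ ^ i) * δ')
    rw [hσ, map_mul]
    congr 1

theorem exists_prime_not_pow {F : Type} [Field F] [NumberField F] {ℓ : ℕ} (hℓ : ℓ.Prime)
    {ζ : 𝓞 F} (hζ : IsPrimitiveRoot ζ ℓ) {γ : 𝓞 F} (hγ : ∀ c : F, c ^ ℓ ≠ (γ : F))
    (B0 : Finset (Ideal (𝓞 F))) :
    ∃ P : Ideal (𝓞 F), Prime P ∧ (absNorm P).Prime ∧ P ∉ B0 ∧ ∀ t : 𝓞 F, t ^ ℓ - γ ∉ P := by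
  classical
  by_contra hcon
  push Not at hcon
  obtain ⟨L, iL, iN, iA, δ, φ, hrank, hδ, hφF, hφδ⟩ := exists_kummer hℓ hζ hγ
  have hγ0 : γ ≠ 0 := by
    intro h
    exact hγ 0 (by rw [h]; simp [hℓ.ne_zero])
  set x0 : 𝓞 F := γ * ∏ i ∈ Finset.range ℓ, ∏ j ∈ (Finset.range ℓ).erase i, (ζ ^ i - ζ ^ j) with hx0
  have hx0ne : x0 ≠ 0 := by
    refine mul_ne_zero hγ0 (Finset.prod_ne_zero_iff.mpr fun i hi => Finset.prod_ne_zero_iff.mpr
      fun j hj => ?_)
    intro h
    have h2 := hζ.pow_inj (Finset.mem_range.mp hi)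
      (Finset.mem_range.mp (Finset.mem_of_mem_erase hj)) (sub_eq_zero.mp h)
    exact Finset.ne_of_mem_erase hj h2.symm
  set B1 := B0 ∪ (finite_primes_mem x0 hx0ne).toFinset with hB1
  refine zeta_compare (F := F) (L := L) hℓ.two_le B1
    (fun P => IsDedekindDomain.primesOverFinset P (𝓞 L)) ?_ ?_
  · intro P hP hPn hPB
    have hPB0 : P ∉ B0 := fun h => hPB (Finset.mem_union_left _ h)
    have hx0P : x0 ∉ P := fun h => hPB (Finset.mem_union_right _ (by
      rw [Set.Finite.mem_toFinset]; exact ⟨hP, h⟩))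
    obtain ⟨t, ht⟩ := hcon P hP hPn hPB0
    have hγP : γ ∉ P := fun h => hx0P (P.mul_mem_right _ h)
    have hζP : ∀ i < ℓ, ∀ j < ℓ, i ≠ j → ζ ^ i - ζ ^ j ∉ P := by
      intro i hi j hj hij h
      apply hx0P
      refine P.mul_mem_left _ ?_
      refine P.mem_of_dvd ((Finset.dvd_prod_of_mem _ (Finset.mem_erase.mpr
        ⟨hij.symm, Finset.mem_range.mpr hj⟩)).trans (Finset.dvd_prod_of_mem
        (fun i => ∏ j ∈ (Finset.range ℓ).erase i, (ζ ^ i - ζ ^ j)) (Finset.mem_range.mpr hi))) h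
    exact kummer_split hℓ hrank hδ hζ φ hφF hφδ hP ht hγP hζP
  · intro P P' hP hPn hPB hP' hPn' hPB' hne
    rw [Finset.disjoint_left]
    intro Q hQ hQ'
    have hPm : P.IsMaximal :=
      ((Ideal.prime_iff_isPrime hP.ne_zero).mp hP).isMaximal hP.ne_zero
    have hPm' : P'.IsMaximal :=
      ((Ideal.prime_iff_isPrime hP'.ne_zero).mp hP').isMaximal hP'.ne_zero
    rw [IsDedekindDomain.mem_primesOverFinset_iff hP.ne_zero] at hQ
    rw [IsDedekindDomain.mem_primesOverFinset_iff hP'.ne_zero] at hQ'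
    exact hne (hQ.2.over.trans hQ'.2.over.symm)

end

end Pool.Agent.Lib.MP_176ace_nt
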