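import Mathlib
import Pool.Agent.Lib.MP_176ace_nt.Zeta

section

set_option autoImplicit false
set_option linter.style.haveILetI false

/-!
The valuations of `θ - c` for the roots `c` of `A` and of `A - C`.
-/

namespace Pool.Agent.Lib.MP_176ace_nt

open Polynomial

/-- the completely split polynomial with roots `a` -/
noncomputable def splitPoly {ι : Type*} [Fintype ι] (a : ι → ℤ) : ℤ[X] := ∏ i, (X - C (a i))

section

variable {K : Type*} [Field K] {Γ₀ : Type*} [LinearOrderedCommGroupWithZero Γ₀]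
  (w : Valuation K Γ₀)

theorem val_int_le_one (n : ℤ) : w (n : K) ≤ 1 := by
  have h : (n : K) ∈ w.integer := intCast_mem w.integer n
  exact h

theorem mul_lt_one_aux {x y : Γ₀} (hx : x ≤ 1) (hy : y < 1) : x * y < 1 :=
  (mul_le_of_le_one_left' hx).trans_lt hy

theorem val_eq_one_of_isCoprime {x y : ℤ} (h : IsCoprime x y) (hy : w (y : K) < 1) :
    w (x : K) = 1 := by
  obtain ⟨a, b, hab⟩ := h
  refine le_antisymm (val_int_le_one w x) (not_lt.mp fun hx => ?_)
  have h1 : ((a : K) * x + b * y) = 1 := by exact_mod_cast congrArg (Int.cast : ℤ → K) hab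
  have h2 : w ((a : K) * x + b * y) < 1 := by
    refine w.map_add_lt ?_ ?_
    · rw [map_mul]
      exact mul_lt_one_aux (val_int_le_one w a) hx
    · rw [map_mul]
      exact mul_lt_one_aux (val_int_le_one w b) hy
  rw [h1, map_one] at h2
  exact lt_irrefl _ h2

theorem val_eq_one_of_dvd {x y : ℤ} (h : x ∣ y) (hy : w (y : K) = 1) : w (x : K) = 1 := by
  obtain ⟨z, rfl⟩ := h
  refine le_antisymm (val_int_le_one w x) (not_lt.mp fun hx => ?_)
  rw [Int.cast_mul, map_mul] at hy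
  exact absurd hy (mul_lt_one_of_lt_of_le hx (val_int_le_one w z)).ne

theorem val_le_of_dvd {x y : ℤ} (h : x ∣ y) : w (y : K) ≤ w (x : K) := by
  obtain ⟨z, rfl⟩ := h
  rw [Int.cast_mul, map_mul]
  exact mul_le_of_le_one_right' (val_int_le_one w z)

theorem aeval_splitPoly {ι : Type*} [Fintype ι] {R : Type*} [CommRing R] (a : ι → ℤ) (θ : R) :
    aeval θ (splitPoly a) = ∏ i, (θ - (a i : R)) := by
  simp [splitPoly, map_prod]

theorem val_forms {ι κ : Type*} [Fintype ι] (a : ι → ℤ) (b : κ → ℤ) {c u v s N : ℤ} {m : ℕ}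
    {θ : K} (hm : 0 < m)
    (hb : ∀ j, (splitPoly a).eval (b j) = c)
    (e1 : (s : K) * aeval θ (splitPoly a) = -(u : K) ^ m) (e2 : s * c = v ^ m - u ^ m)
    (hNa : ∀ i i', i ≠ i' → (a i - a i') ∣ N)
    (hNd : ∀ j, (derivative (splitPoly a)).eval (b j) ∣ N)
    (hNs : N ∣ s) (huN : IsCoprime u N) (huv : IsCoprime u v) :
    ∃ (ω : Γ₀) (za : ι → Γ₀) (zb : κ → Γ₀), ω ≠ 0 ∧
      (∀ i, w (θ - (a i : K)) = ω * za i ^ m) ∧ (∀ j, w (θ - (b j : K)) = ω * zb j ^ m) := by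
  classical
  -- case of a pole
  by_cases hθ : 1 < w θ
  · refine ⟨w θ, fun _ => 1, fun _ => 1, ?_, ?_, ?_⟩
    · exact (zero_lt_one.trans hθ).ne'
    · intro i
      rw [one_pow, mul_one]
      exact w.map_sub_eq_of_lt_left ((val_int_le_one w _).trans_lt hθ)
    · intro j
      rw [one_pow, mul_one]
      exact w.map_sub_eq_of_lt_left ((val_int_le_one w _).trans_lt hθ)
  rw [not_lt] at hθ
  -- `θ` integral
  have hsub : ∀ n : ℤ, w (θ - (n : K)) ≤ 1 := fun n =>
    w.map_sub_le hθ (val_int_le_one w n)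
  have hA : w (aeval θ (splitPoly a)) ≤ 1 := by
    rw [aeval_splitPoly, map_prod]
    exact Finset.prod_le_one' fun i _ => hsub _
  have e1' : w (s : K) * w (aeval θ (splitPoly a)) = w (u : K) ^ m := by
    rw [← map_mul, e1, Valuation.map_neg, map_pow]
  have hN : w (N : K) = 1 := by
    by_contra hne
    have hlt : w (N : K) < 1 := lt_of_le_of_ne (val_int_le_one w N) hne
    have h1 : w (u : K) = 1 := val_eq_one_of_isCoprime w huN hlt
    have h2 : w (s : K) < 1 := (val_le_of_dvd w hNs).trans_lt hlt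
    rw [h1, one_pow] at e1'
    exact absurd e1' (mul_lt_one_of_lt_of_le h2 hA).ne
  have e2' : (s : K) * c = (v : K) ^ m - (u : K) ^ m := by exact_mod_cast congrArg (Int.cast : ℤ → K) e2
  -- if `u` or `v` is not a unit then `s` is
  have hsu : w (u : K) < 1 → w (s : K) = 1 := by
    intro hu
    have hv : w (v : K) = 1 := val_eq_one_of_isCoprime w huv.symm hu
    have h1 : w ((v : K) ^ m - (u : K) ^ m) = 1 := by
      rw [w.map_sub_eq_of_lt_left, map_pow, hv, one_pow]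
      rw [map_pow, map_pow, hv, one_pow]
      exact pow_lt_one₀ zero_le hu hm.ne'
    rw [← e2', map_mul] at h1
    refine le_antisymm (val_int_le_one w s) (not_lt.mp fun h => ?_)
    exact absurd h1 (mul_lt_one_of_lt_of_le h (val_int_le_one w c)).ne
  have hsv : w (v : K) < 1 → w (s : K) = 1 := by
    intro hv
    have hu : w (u : K) = 1 := val_eq_one_of_isCoprime w huv hv
    have h1 : w ((v : K) ^ m - (u : K) ^ m) = 1 := by
      rw [w.map_sub_eq_of_lt_right, map_pow, hu, one_pow]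
      rw [map_pow, map_pow, hu, one_pow]
      exact pow_lt_one₀ zero_le hv hm.ne'
    rw [← e2', map_mul] at h1
    refine le_antisymm (val_int_le_one w s) (not_lt.mp fun h => ?_)
    exact absurd h1 (mul_lt_one_of_lt_of_le h (val_int_le_one w c)).ne
  -- differences
  have hdiff : ∀ x y : ℤ, (x - y) ∣ N → w (θ - (x : K)) < 1 → w (θ - (y : K)) = 1 := by
    intro x y hxy hx
    have h1 : w ((x - y : ℤ) : K) = 1 := val_eq_one_of_dvd w hxy hN
    have h2 : θ - (y : K) = (θ - (x : K)) + ((x - y : ℤ) : K) := by push_cast; ring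
    rw [h2, w.map_add_eq_of_lt_right (by rw [h1]; exact hx), h1]
  have ha' : ∀ i, w (θ - (a i : K)) < 1 → w (θ - (a i : K)) = w (u : K) ^ m := by
    intro i hi
    have h1 : w (aeval θ (splitPoly a)) = w (θ - (a i : K)) := by
      rw [aeval_splitPoly, map_prod, Finset.prod_eq_single_of_mem i (Finset.mem_univ i)]
      intro i' _ hne
      exact hdiff _ _ (hNa i i' hne.symm) hi
    rw [h1] at e1'
    have h2 : w (u : K) < 1 := by
      by_contra hcon
      have h3 : w (u : K) = 1 := le_antisymm (val_int_le_one w u) (not_lt.mp hcon)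
      rw [h3, one_pow] at e1'
      exact absurd e1' (mul_lt_one_aux (val_int_le_one w s) hi).ne
    rw [hsu h2, one_mul] at e1'
    exact e1'
  have hb' : ∀ j, w (θ - (b j : K)) < 1 → w (θ - (b j : K)) = w (v : K) ^ m := by
    intro j hj
    -- Taylor expansion in the valuation ring
    let t : w.integer := ⟨θ, hθ⟩
    obtain ⟨k, hk⟩ := Polynomial.binomExpansion ((splitPoly a).map (Int.castRingHom w.integer))
      ((b j : ℤ) : w.integer) (t - ((b j : ℤ) : w.integer))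
    have h1 := congrArg (Subtype.val : w.integer → K) hk
    have h2 : ∀ (f : ℤ[X]) (x : w.integer),
        (((f.map (Int.castRingHom w.integer)).eval x : w.integer) : K) = aeval (x : K) f := by
      intro f x
      rw [eval_map, aeval_def, ← Subring.coe_subtype, hom_eval₂]
      congr 1
    have h3 : ∀ (f : ℤ[X]) (n : ℤ), aeval ((n : ℤ) : K) f = ((f.eval n : ℤ) : K) := by
      intro f n
      have h4 : ((n : ℤ) : K) = algebraMap ℤ K n := by simp
      rw [h4, aeval_algebraMap_apply_eq_algebraMap_eval]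
      simp
    rw [add_sub_cancel, h2] at h1
    have h4 : ((((b j : ℤ) : w.integer)) : K) = ((b j : ℤ) : K) := by simp
    have ht : (t : K) = θ := rfl
    simp only [Subring.coe_add, Subring.coe_mul, derivative_map, h2, h3, hb,
      Subring.coe_pow, AddSubgroupClass.coe_sub, h4, ht] at h1
    have h5 : aeval θ (splitPoly a) - (c : K) = (θ - (b j : K)) *
        ((((derivative (splitPoly a)).eval (b j) : ℤ) : K) + (k : K) * (θ - (b j : K))) := by
      rw [h1]; ring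
    have h6 : w ((((derivative (splitPoly a)).eval (b j) : ℤ) : K) + (k : K) * (θ - (b j : K))) = 1 := by
      have h7 : w (((derivative (splitPoly a)).eval (b j) : ℤ) : K) = 1 :=
        val_eq_one_of_dvd w (hNd j) hN
      rw [w.map_add_eq_of_lt_left, h7]
      rw [h7, map_mul]
      exact mul_lt_one_aux k.2 hj
    have h8 : (s : K) * (aeval θ (splitPoly a) - (c : K)) = -(v : K) ^ m := by
      rw [mul_sub, e1, e2']; ring
    have h9 : w (s : K) * w (θ - (b j : K)) = w (v : K) ^ m := by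
      have := congrArg w h8
      rw [h5, map_mul, map_mul, h6, mul_one, Valuation.map_neg, map_pow] at this
      exact this
    have h10 : w (v : K) < 1 := by
      by_contra hcon
      have h3 : w (v : K) = 1 := le_antisymm (val_int_le_one w v) (not_lt.mp hcon)
      rw [h3, one_pow] at h9
      exact absurd h9 (mul_lt_one_aux (val_int_le_one w s) hj).ne
    rw [hsv h10, one_mul] at h9
    exact h9
  refine ⟨1, fun i => if w (θ - (a i : K)) < 1 then w (u : K) else 1,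
    fun j => if w (θ - (b j : K)) < 1 then w (v : K) else 1, one_ne_zero, ?_, ?_⟩
  · intro i
    dsimp only
    rw [one_mul]
    split_ifs with h
    · exact ha' i h
    · rw [one_pow]
      exact le_antisymm (hsub _) (not_lt.mp h)
  · intro j
    dsimp only
    rw [one_mul]
    split_ifs with h
    · exact hb' j h
    · rw [one_pow]
      exact le_antisymm (hsub _) (not_lt.mp h)

end

end Pool.Agent.Lib.MP_176ace_nt
end

section

section

set_option autoImplicit false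
set_option linter.style.haveILetI false

/-!
From elements of `K` whose ideals are `m`-th powers and which are independent modulo powers to
copies of `(ℤ/m)^r` in the class group.
-/

namespace Pool.Agent.Lib.MP_176ace_nt

open NumberField

/-- Chinese remainder theorem for integers, finite families. -/
theorem crt_int {ι : Type*} (s : Finset ι) (M : ι → ℕ) (t : ι → ℤ)
    (hM : Set.Pairwise (s : Set ι) (Function.onFun Nat.Coprime M)) :
    ∃ x : ℤ, ∀ i ∈ s, (M i : ℤ) ∣ x - t i := by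
  classical
  induction s using Finset.induction_on with
  | empty => exact ⟨0, by simp⟩
  | insert j s hj ih =>
    obtain ⟨x, hx⟩ := ih (hM.mono (by simp))
    have hcop : Nat.Coprime (M j) (∏ i ∈ s, M i) := by
      refine Nat.Coprime.prod_right fun i hi => ?_
      exact hM (by simp) (by simp [hi]) (by rintro rfl; exact hj hi)
    have hc : IsCoprime (M j : ℤ) ((∏ i ∈ s, M i : ℕ) : ℤ) := Nat.isCoprime_iff_coprime.mpr hcop
    obtain ⟨a, b, hab⟩ := hc
    refine ⟨x + b * ((∏ i ∈ s, M i : ℕ) : ℤ) * (t j - x), ?_⟩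
    intro i hi
    rcases Finset.mem_insert.mp hi with rfl | hi
    · refine ⟨a * (x - t i), ?_⟩
      have : b * ((∏ i ∈ s, M i : ℕ) : ℤ) = 1 - a * (M i : ℤ) := by linarith
      rw [this]; ring
    · have h1 : (M i : ℤ) ∣ ((∏ i ∈ s, M i : ℕ) : ℤ) := by
        exact_mod_cast Finset.dvd_prod_of_mem M hi
      have h2 : x + b * ((∏ i ∈ s, M i : ℕ) : ℤ) * (t j - x) - t i =
          (x - t i) + (b * (t j - x)) * ((∏ i ∈ s, M i : ℕ) : ℤ) := by ring
      rw [h2]
      exact dvd_add (hx i hi) (h1.mul_left _)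

/-- criterion for an embedding of `(ℤ/m)^r` -/
theorem exists_embedding {G : Type*} [CommGroup G] {m : ℕ} (hm : 0 < m) {r : ℕ} (y : Fin r → G)
    (hy : ∀ i, y i ^ m = 1)
    (hind : ∀ ℓ : ℕ, ℓ.Prime → ℓ ∣ m → ∀ c : Fin r → ℤ, (∏ i, y i ^ c i) ^ (m / ℓ) = 1 →
      ∀ i, (ℓ : ℤ) ∣ c i) :
    ∃ f : Multiplicative (Fin r → ZMod m) →* G, Function.Injective f := by
  classical
  haveI : NeZero m := ⟨hm.ne'⟩
  have hz : ∀ i, (zmultiplesHom (Additive G) (Additive.ofMul (y i))) (m : ℤ) = 0 := by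
    intro i
    rw [zmultiplesHom_apply]
    have := hy i
    rw [← zpow_natCast] at this
    rw [← ofMul_zpow, this, ofMul_one]
  let φ : ∀ i : Fin r, ZMod m →+ Additive G := fun i => ZMod.lift m ⟨_, hz i⟩
  have hφ : ∀ i (k : ℤ), φ i (k : ZMod m) = k • Additive.ofMul (y i) := by
    intro i k
    rw [ZMod.lift_coe]; rfl
  let F : (Fin r → ZMod m) →+ Additive G :=
    ∑ i, (φ i).comp (Pi.evalAddMonoidHom (fun _ : Fin r => ZMod m) i)
  have hF : ∀ c : Fin r → ℤ, F (fun i => (c i : ZMod m)) = Additive.ofMul (∏ i, y i ^ c i) := by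
    intro c
    have h1 : F (fun i => (c i : ZMod m)) = ∑ i, φ i (c i : ZMod m) := by
      simp only [F, AddMonoidHom.finsetSum_apply, AddMonoidHom.comp_apply, Pi.evalAddMonoidHom_apply]
    rw [h1, ofMul_prod]
    refine Finset.sum_congr rfl fun i _ => ?_
    rw [hφ, ofMul_zpow]
  refine ⟨AddMonoidHom.toMultiplicativeLeft F, ?_⟩
  have hinj : Function.Injective F := by
    rw [injective_iff_map_eq_zero]
    intro c hc
    by_contra hne
    -- an element of prime order in the kernel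
    set o := addOrderOf c with ho
    have ho1 : o ≠ 1 := by rw [ho, Ne, AddMonoid.addOrderOf_eq_one_iff]; exact hne
    obtain ⟨ℓ, hℓ, hℓo⟩ := Nat.exists_prime_and_dvd ho1
    have hom : o ∣ m := by
      rw [ho, addOrderOf_dvd_iff_nsmul_eq_zero]
      ext i
      simp
    obtain ⟨k, hk⟩ := hℓo
    set c' := k • c with hc'
    have hc'0 : c' ≠ 0 := by
      intro h
      have h1 := addOrderOf_dvd_of_nsmul_eq_zero h
      rw [← ho, hk] at h1
      have hk0 : 0 < k := by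
        rcases Nat.eq_zero_or_pos k with h2 | h2
        · exfalso
          have : o = 0 := by rw [hk, h2, mul_zero]
          rw [this] at hom
          exact hm.ne' (Nat.eq_zero_of_zero_dvd hom)
        · exact h2
      have h3 := Nat.le_of_dvd hk0 h1
      have h4 := hℓ.two_le
      nlinarith
    have hℓc' : ℓ • c' = 0 := by
      rw [hc', ← mul_nsmul', ← hk, ho]
      exact addOrderOf_nsmul_eq_zero c
    have hFc' : F c' = 0 := by rw [hc', map_nsmul, hc, smul_zero]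
    have hℓm : ℓ ∣ m := (Dvd.intro _ hk.symm).trans hom
    -- divide by `m / ℓ`
    have hdiv : ∀ i, (m / ℓ) ∣ (c' i).val := by
      intro i
      have h1 : ((ℓ * (c' i).val : ℕ) : ZMod m) = 0 := by
        have := congrFun hℓc' i
        simpa using this
      rw [ZMod.natCast_eq_zero_iff] at h1
      have h2 : ℓ * (m / ℓ) = m := Nat.mul_div_cancel' hℓm
      generalize (c' i).val = w at h1
      rw [← h2] at h1
      exact Nat.dvd_of_mul_dvd_mul_left hℓ.pos h1
    choose e he using hdiv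
    have h5 : (∏ i, y i ^ ((e i : ℕ) : ℤ)) ^ (m / ℓ) = 1 := by
      have h6 : F c' = Additive.ofMul ((∏ i, y i ^ ((e i : ℕ) : ℤ)) ^ (m / ℓ)) := by
        have h7 : c' = fun i => ((((m / ℓ) * e i : ℕ) : ℤ) : ZMod m) := by
          ext i
          rw [← he i]
          simp
        rw [h7, hF]
        congr 1
        rw [← Finset.prod_pow]
        refine Finset.prod_congr rfl fun i _ => ?_
        rw [← zpow_natCast (y i ^ _), ← zpow_mul]
        congr 1
        push_cast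
        ring
      rw [hFc'] at h6
      exact (Additive.ofMul.injective h6).symm
    have h8 := hind ℓ hℓ hℓm _ h5
    apply hc'0
    ext i
    have h9 : ℓ ∣ e i := by exact_mod_cast h8 i
    have h10 : m ∣ (c' i).val := by
      rw [he i]
      calc m = m / ℓ * ℓ := (Nat.div_mul_cancel hℓm).symm
        _ ∣ m / ℓ * e i := Nat.mul_dvd_mul_left _ h9
    have h11 := Nat.eq_zero_of_dvd_of_lt h10 (ZMod.val_lt (c' i))
    rw [Pi.zero_apply]
    exact (ZMod.val_eq_zero _).mp h11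
  intro x y hxy
  exact hinj hxy

end Pool.Agent.Lib.MP_176ace_nt
end

section

set_option autoImplicit false
set_option linter.style.haveILetI false

/-!
Roots of integer polynomials and roots of unity in the `q`-adic integers.
-/

namespace Pool.Agent.Lib.MP_176ace_nt

open Polynomial

theorem hensel_int {q : ℕ} [Fact q.Prime] (f : ℤ[X]) (x0 : ℤ) (h0 : (q : ℤ) ∣ f.eval x0)
    (h1 : ¬ (q : ℤ) ∣ (derivative f).eval x0) :
    ∃ z : ℤ_[q], aeval z f = 0 ∧ PadicInt.toZMod z = (x0 : ZMod q) := by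
  have e1 : ∀ g : ℤ[X], aeval (x0 : ℤ_[q]) g = ((g.eval x0 : ℤ) : ℤ_[q]) := by
    intro g
    have := aeval_algebraMap_apply ℤ_[q] x0 g
    simp only [eq_intCast, coe_aeval_eq_eval] at this
    rw [this]
  have n0 : ‖aeval (x0 : ℤ_[q]) f‖ < 1 := by
    rw [e1, PadicInt.norm_int_lt_one_iff_dvd]
    exact h0
  have n1 : ‖aeval (x0 : ℤ_[q]) (derivative f)‖ = 1 := by
    rw [e1]
    refine le_antisymm (PadicInt.norm_le_one _) (not_lt.mp fun h => h1 ?_)
    rwa [PadicInt.norm_int_lt_one_iff_dvd] at h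
  obtain ⟨z, hz0, hz1, -, -⟩ := hensels_lemma (F := f) (a := (x0 : ℤ_[q]))
    (by rw [n1, one_pow]; exact n0)
  refine ⟨z, hz0, ?_⟩
  rw [n1] at hz1
  have h2 : z - (x0 : ℤ_[q]) ∈ RingHom.ker (PadicInt.toZMod (p := q)) := by
    rw [PadicInt.ker_toZMod, PadicInt.maximalIdeal_eq_span_p, Ideal.mem_span_singleton]
    exact (PadicInt.norm_lt_one_iff_dvd _).mp hz1
  rw [RingHom.mem_ker, map_sub, map_intCast, sub_eq_zero] at h2
  exact h2

theorem exists_primitiveRoot_zmod {q M : ℕ} [Fact q.Prime] (hq : M ∣ q - 1) :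
    ∃ x : ZMod q, IsPrimitiveRoot x M := by
  obtain ⟨g, hg⟩ := IsCyclic.exists_ofOrder_eq_natCard (α := (ZMod q)ˣ)
  have hq1 : 1 < q := (Fact.out : q.Prime).one_lt
  have hc : Nat.card (ZMod q)ˣ = q - 1 := by
    rw [Nat.card_eq_fintype_card, ZMod.card_units_eq_totient, Nat.totient_prime Fact.out]
  rw [hc] at hg
  obtain ⟨k, hk⟩ := hq
  have h1 : IsPrimitiveRoot g (q - 1) := hg ▸ IsPrimitiveRoot.orderOf g
  have h2 : IsPrimitiveRoot (g ^ k) M := h1.pow (by omega) (by rw [hk, mul_comm])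
  exact ⟨_, IsPrimitiveRoot.coe_units_iff.mpr h2⟩

theorem exists_primitiveRoot_padicInt {q M : ℕ} [Fact q.Prime] (hM : 0 < M) (hq : M ∣ q - 1) :
    ∃ z : ℤ_[q], IsPrimitiveRoot z M := by
  obtain ⟨x, hx⟩ := exists_primitiveRoot_zmod hq
  have hq1 : 1 < q := (Fact.out : q.Prime).one_lt
  obtain ⟨x0, rfl⟩ := ZMod.intCast_surjective x
  have hx0 : (x0 : ZMod q) ≠ 0 := by
    intro h
    have := hx.pow_eq_one
    rw [h, zero_pow (by omega)] at this
    exact zero_ne_one this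
  obtain ⟨z, hz, hz1⟩ := hensel_int (q := q) (X ^ M - 1 : ℤ[X]) x0
    (by
      rw [← ZMod.intCast_zmod_eq_zero_iff_dvd]
      simp only [eval_sub, eval_pow, eval_X, eval_one, Int.cast_sub, Int.cast_pow, Int.cast_one]
      rw [hx.pow_eq_one, sub_self])
    (by
      rw [← ZMod.intCast_zmod_eq_zero_iff_dvd]
      simp only [derivative_sub, derivative_X_pow, derivative_one, sub_zero, eval_mul, eval_pow,
        eval_X, Int.cast_mul, Int.cast_pow]
      refine mul_ne_zero ?_ (pow_ne_zero _ hx0)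
      simp only [eval_C, Int.cast_natCast, Ne]
      rw [ZMod.natCast_eq_zero_iff]
      intro h
      have h3 := Nat.le_of_dvd hM h
      have h4 := Nat.le_of_dvd (by omega) hq
      omega)
  refine ⟨z, IsPrimitiveRoot.mk_of_lt z hM ?_ ?_⟩
  · simpa [sub_eq_zero] using hz
  · intro l hl hlM hzl
    have h3 : (x0 : ZMod q) ^ l = 1 := by
      rw [← hz1, ← map_pow, hzl, map_one]
    exact absurd (Nat.le_of_dvd hl (hx.dvd_of_pow_eq_one l h3)) (by omega)

theorem exists_ringHom_padic {q M : ℕ} [Fact q.Prime] [NeZero M] (hq : M ∣ q - 1)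
    (E : Type) [Field E] [Algebra ℚ E] [IsCyclotomicExtension {M} ℚ E] :
    Nonempty (E →+* ℚ_[q]) := by
  obtain ⟨z, hz⟩ := exists_primitiveRoot_padicInt (q := q) (NeZero.pos M) hq
  have hz' : IsPrimitiveRoot (z : ℚ_[q]) M :=
    hz.map_of_injective (f := algebraMap ℤ_[q] ℚ_[q]) (IsFractionRing.injective _ _)
  have hs := IsCyclotomicExtension.zeta_spec M ℚ E
  refine ⟨((hs.powerBasis ℚ).lift (z : ℚ_[q]) ?_ : E →ₐ[ℚ] ℚ_[q])⟩
  haveI : NeZero ((M : ℕ) : ℚ) := ⟨by exact_mod_cast NeZero.ne M⟩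
  rw [IsPrimitiveRoot.powerBasis_gen, ← hs.minpoly_eq_cyclotomic_of_irreducible
    (cyclotomic.irreducible_rat (NeZero.pos M))]
  rw [aeval_def, eval₂_eq_eval_map, map_cyclotomic]
  exact hz'.isRoot_cyclotomic (NeZero.pos M)

end Pool.Agent.Lib.MP_176ace_nt
end

section

set_option autoImplicit false
set_option linter.style.haveILetI false

/-!
Real roots of `A(x) = -T` for large `T`, and the unit rank.
-/

namespace Pool.Agent.Lib.MP_176ace_nt

open NumberField

theorem lt_of_prod_eq {ι : Type*} [Fintype ι] (a : ι → ℤ) {R0 T : ℝ} (hR0 : 0 ≤ R0)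
    (hR : ∀ i, |(a i : ℝ)| ≤ R0) (hT : (2 * R0) ^ Fintype.card ι < T) {x : ℝ}
    (hx : ∏ i, (x - (a i : ℝ)) = -T) : x < -R0 := by
  by_contra hcon
  rw [not_lt] at hcon
  have hT0 : 0 < T := lt_of_le_of_lt (by positivity) hT
  rcases le_or_gt x R0 with h | h
  · have h1 : |∏ i, (x - (a i : ℝ))| ≤ (2 * R0) ^ Fintype.card ι := by
      rw [Finset.abs_prod, Fintype.card, ← Finset.prod_const]
      refine Finset.prod_le_prod (fun _ _ => abs_nonneg _) fun i _ => ?_
      have h2 := hR i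
      rw [abs_le] at h2
      rw [abs_le]
      constructor <;> linarith
    rw [hx, abs_neg, abs_of_pos hT0] at h1
    linarith
  · have h1 : 0 < ∏ i, (x - (a i : ℝ)) := by
      refine Finset.prod_pos fun i _ => ?_
      have h2 := hR i
      rw [abs_le] at h2
      linarith
    linarith

theorem prod_sub_neg {ι : Type*} [Fintype ι] (a : ι → ℤ) (x : ℝ) :
    ∏ i, (x - (a i : ℝ)) = (-1) ^ Fintype.card ι * ∏ i, ((a i : ℝ) - x) := by
  rw [Fintype.card, ← Finset.prod_const, ← Finset.prod_mul_distrib]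
  refine Finset.prod_congr rfl fun i _ => ?_
  ring

theorem no_root_of_even {ι : Type*} [Fintype ι] (a : ι → ℤ) {R0 T : ℝ} (hR0 : 0 ≤ R0)
    (hR : ∀ i, |(a i : ℝ)| ≤ R0) (hT : (2 * R0) ^ Fintype.card ι < T)
    (heven : Even (Fintype.card ι)) (x : ℝ) : ∏ i, (x - (a i : ℝ)) ≠ -T := by
  intro hx
  have h1 := lt_of_prod_eq a hR0 hR hT hx
  have hT0 : 0 < T := lt_of_le_of_lt (by positivity) hT
  rw [prod_sub_neg, heven.neg_one_pow, one_mul] at hx
  have h2 : 0 < ∏ i, ((a i : ℝ) - x) := by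
    refine Finset.prod_pos fun i _ => ?_
    have h2 := hR i
    rw [abs_le] at h2
    linarith
  linarith

theorem root_unique {ι : Type*} [Fintype ι] [Nonempty ι] (a : ι → ℤ) {R0 T : ℝ} (hR0 : 0 ≤ R0)
    (hR : ∀ i, |(a i : ℝ)| ≤ R0) (hT : (2 * R0) ^ Fintype.card ι < T) {x y : ℝ}
    (hx : ∏ i, (x - (a i : ℝ)) = -T) (hy : ∏ i, (y - (a i : ℝ)) = -T) : x = y := by
  have key : ∀ x y : ℝ, ∏ i, (x - (a i : ℝ)) = -T → ∏ i, (y - (a i : ℝ)) = -T → ¬ x < y := by
    intro x y hx hy hlt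
    have h1 := lt_of_prod_eq a hR0 hR hT hy
    rw [prod_sub_neg] at hx hy
    have h2 : ∏ i, ((a i : ℝ) - y) < ∏ i, ((a i : ℝ) - x) := by
      refine Finset.prod_lt_prod_of_nonempty (fun i _ => ?_) (fun i _ => ?_) Finset.univ_nonempty
      · have h2 := hR i
        rw [abs_le] at h2
        linarith
      · linarith
    have h3 : (-1 : ℝ) ^ Fintype.card ι ≠ 0 := pow_ne_zero _ (by norm_num)
    have h4 : ∏ i, ((a i : ℝ) - y) = ∏ i, ((a i : ℝ) - x) :=
      mul_left_cancel₀ h3 (hy.trans hx.symm)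
    linarith
  rcases lt_trichotomy x y with h | h | h
  · exact absurd h (key x y hx hy)
  · exact h
  · exact absurd h (key y x hy hx)

theorem unitRank_le {K : Type*} [Field K] [NumberField K] {d : ℕ} (hd : Module.finrank ℚ K = d)
    (h1 : ∀ φ ψ : K →+* ℝ, φ = ψ) (h2 : Even d → IsEmpty (K →+* ℝ)) :
    Units.rank K + 1 ≤ (d + 1) / 2 := by
  classical
  have hr := InfinitePlace.card_add_two_mul_card_eq_rank K
  have hc := InfinitePlace.card_eq_nrRealPlaces_add_nrComplexPlaces K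
  have hrank : Units.rank K = Fintype.card (InfinitePlace K) - 1 := rfl
  have hpos : 0 < Fintype.card (InfinitePlace K) := Fintype.card_pos
  have hr1 : InfinitePlace.nrRealPlaces K ≤ 1 := by
    unfold InfinitePlace.nrRealPlaces
    rw [Fintype.card_le_one_iff]
    rintro ⟨v, hv⟩ ⟨w, hw⟩
    apply Subtype.ext
    have h3 := h1 (InfinitePlace.embedding_of_isReal hv) (InfinitePlace.embedding_of_isReal hw)
    have h4 : v.embedding = w.embedding := by
      ext x
      have := RingHom.congr_fun h3 x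
      have h5 := InfinitePlace.embedding_of_isReal_apply hv x
      have h6 := InfinitePlace.embedding_of_isReal_apply hw x
      rw [← h5, ← h6, this]
    have h7 : v = w := by
      rw [← InfinitePlace.mk_embedding v, ← InfinitePlace.mk_embedding w, h4]
    exact h7
  have hr0 : Even d → InfinitePlace.nrRealPlaces K = 0 := by
    intro he
    unfold InfinitePlace.nrRealPlaces
    rw [Fintype.card_eq_zero_iff]
    refine ⟨fun ⟨v, hv⟩ => (h2 he).false (InfinitePlace.embedding_of_isReal hv)⟩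
  rw [hd] at hr
  rcases Nat.even_or_odd d with he | ho
  · have := hr0 he
    omega
  · obtain ⟨k, hk⟩ := ho
    omega

end Pool.Agent.Lib.MP_176ace_nt
end

section

set_option autoImplicit false
set_option linter.style.haveILetI false

/-!
Existence of detecting primes: primes `q ≡ 1 mod M` at which an integer `β` is an `m`-th power while
an integer `γ` is not an `ℓ`-th power.
-/

namespace Pool.Agent.Lib.MP_176ace_nt

open Polynomial NumberField

theorem irreducible_of_eisenstein {E : Type*} [Field E] {p : ℕ} [Fact p.Prime] (σ : E →+* ℚ_[p])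
    {m : ℕ} (hm : 0 < m) {β : ℤ} (h1 : (p : ℤ) ∣ β) (h2 : ¬ (p : ℤ) ^ 2 ∣ β) :
    Irreducible (X ^ m - C (β : E) : E[X]) := by
  have hp : (Ideal.span {(p : ℤ_[p])}).IsPrime := by
    rw [← PadicInt.maximalIdeal_eq_span_p]
    exact (IsLocalRing.maximalIdeal.isMaximal _).isPrime
  have hdeg : (X ^ m - C (β : ℤ_[p]) : ℤ_[p][X]).natDegree = m := natDegree_X_pow_sub_C
  have hE : (X ^ m - C (β : ℤ_[p]) : ℤ_[p][X]).IsEisensteinAt (Ideal.span {(p : ℤ_[p])}) := by
    refine ⟨?_, ?_, ?_⟩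
    · rw [(monic_X_pow_sub_C _ hm.ne').leadingCoeff]
      exact fun h => hp.ne_top ((Ideal.eq_top_iff_one _).mpr h)
    · intro n hn
      rw [hdeg] at hn
      rw [coeff_sub, coeff_X_pow, if_neg hn.ne, zero_sub, neg_mem_iff, coeff_C]
      split_ifs with h
      · rw [Ideal.mem_span_singleton]
        have := map_dvd (Int.castRingHom ℤ_[p]) h1
        simpa using this
      · exact Ideal.zero_mem _
    · rw [coeff_sub, coeff_X_pow, if_neg hm.ne, zero_sub, neg_mem_iff, coeff_C, if_pos rfl,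
        Ideal.span_singleton_pow, Ideal.mem_span_singleton]
      intro h
      apply h2
      rw [← PadicInt.norm_int_le_pow_iff_dvd]
      exact (PadicInt.norm_le_pow_iff_mem_span_pow (β : ℤ_[p]) 2).mpr (by
        rwa [Ideal.mem_span_singleton])
  have h3 : Irreducible (X ^ m - C (β : ℤ_[p]) : ℤ_[p][X]) :=
    hE.irreducible hp (monic_X_pow_sub_C _ hm.ne').isPrimitive (by rw [hdeg]; exact hm)
  have h4 := ((monic_X_pow_sub_C (β : ℤ_[p]) hm.ne').irreducible_iff_irreducible_map_fraction_map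
    (K := ℚ_[p])).mp h3
  refine (monic_X_pow_sub_C (β : E) hm.ne').irreducible_of_irreducible_map σ _ ?_
  convert h4 using 1
  simp [Polynomial.map_sub]

theorem eval₂_of_eq {E S : Type*} [Field E] [CommRing S] {m : ℕ} {b : E} {f : E[X]}
    (hf : f = X ^ m - C b) (i : E →+* S) (x : S) : eval₂ i x f = x ^ m - i b := by
  rw [hf]; simp

theorem adjoinRoot_pow_form {E : Type*} [Field E] {m : ℕ} (hm : 0 < m) {η : E}
    (hη : IsPrimitiveRoot η m) {b : E} {f : E[X]} (hf : f = X ^ m - C b)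
    (hirr : Irreducible f) {ℓ : ℕ}
    (hℓ : ℓ.Prime) {ξ : E} (hξ : IsPrimitiveRoot ξ ℓ) {c : AdjoinRoot f} {γ : E}
    (hc : c ^ ℓ = AdjoinRoot.of _ γ) :
    ∃ j < m, ∃ e : E, c = AdjoinRoot.of _ e * AdjoinRoot.root _ ^ j := by
  classical
  have hfm : f.Monic := by rw [hf]; exact monic_X_pow_sub_C _ hm.ne'
  have hfd : f.natDegree = m := by rw [hf]; exact natDegree_X_pow_sub_C
  haveI : Fact (Irreducible f) := ⟨hirr⟩
  by_cases hc0 : c = 0
  · exact ⟨0, hm, 0, by rw [hc0]; simp⟩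
  obtain ⟨g0, hg0⟩ := AdjoinRoot.mk_surjective (g := f) c
  set g := g0 %ₘ f with hg
  have hgc : AdjoinRoot.mk f g = c := by
    rw [hg, ← hg0, AdjoinRoot.mk_eq_mk, modByMonic_eq_sub_mul_div _ f]
    exact ⟨-(g0 /ₘ f), by ring⟩
  have hgdeg : g.degree < f.degree := degree_modByMonic_lt _ hfm
  have hroot : (AdjoinRoot.root f) ^ m = AdjoinRoot.of f b := by
    have h := AdjoinRoot.eval₂_root f
    rw [eval₂_of_eq hf, sub_eq_zero] at h
    exact h
  have h0 : eval₂ (AdjoinRoot.of f) (AdjoinRoot.of f η * AdjoinRoot.root f) f = 0 := by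
    rw [eval₂_of_eq hf, mul_pow, hroot, ← map_pow, hη.pow_eq_one, map_one,
      one_mul, sub_self]
  let σ : AdjoinRoot f →+* AdjoinRoot f := AdjoinRoot.lift (AdjoinRoot.of f) _ h0
  have hσ : ∀ x, σ (AdjoinRoot.of f x) = AdjoinRoot.of f x := fun x => AdjoinRoot.lift_of h0
  have hσmk : ∀ p : E[X], σ (AdjoinRoot.mk f p) = AdjoinRoot.mk f (p.comp (C η * X)) := by
    intro p
    have h1 : σ (AdjoinRoot.mk f p) = eval₂ (AdjoinRoot.of f) (AdjoinRoot.of f η * AdjoinRoot.root f) p :=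
      AdjoinRoot.lift_mk h0 p
    rw [h1, comp, hom_eval₂]
    congr 1
  have h1 : (σ c / c) ^ ℓ = 1 := by
    rw [div_pow, ← map_pow, hc, hσ, ← hc, div_self (pow_ne_zero _ hc0)]
  have hξ' : IsPrimitiveRoot (AdjoinRoot.of f ξ) ℓ := hξ.map_of_injective (AdjoinRoot.of f).injective
  haveI : NeZero ℓ := ⟨hℓ.ne_zero⟩
  obtain ⟨k, -, hk⟩ := hξ'.eq_pow_of_pow_eq_one h1
  have h2 : σ c = AdjoinRoot.of f (ξ ^ k) * c := by
    rw [map_pow, hk, div_mul_cancel₀ _ hc0]
  have h3 : g.comp (C η * X) = C (ξ ^ k) * g := by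
    have h4 : AdjoinRoot.mk f (g.comp (C η * X)) = AdjoinRoot.mk f (C (ξ ^ k) * g) := by
      rw [← hσmk, hgc, h2, map_mul, hgc]; rfl
    rw [AdjoinRoot.mk_eq_mk] at h4
    by_contra hne
    have h5 : f.natDegree ≤ (g.comp (C η * X) - C (ξ ^ k) * g).natDegree :=
      natDegree_le_of_dvd h4 (sub_ne_zero.mpr hne)
    have h6 : g.natDegree < f.natDegree := by
      refine natDegree_lt_natDegree ?_ hgdeg
      rintro hg0'
      rw [hg0', map_zero] at hgc
      exact hc0 hgc.symm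
    have h7 : (g.comp (C η * X)).natDegree ≤ g.natDegree := by
      refine natDegree_comp_le.trans ?_
      have h10 : (C η * X : E[X]).natDegree ≤ 1 :=
        (natDegree_C_mul_le _ _).trans natDegree_X_le
      calc g.natDegree * (C η * X : E[X]).natDegree ≤ g.natDegree * 1 :=
            Nat.mul_le_mul_left _ h10
        _ = g.natDegree := mul_one _
    have h8 : (C (ξ ^ k) * g).natDegree ≤ g.natDegree := natDegree_C_mul_le _ _
    have h9 := natDegree_sub_le (g.comp (C η * X)) (C (ξ ^ k) * g)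
    omega
  have hgne : g ≠ 0 := by
    intro h
    rw [h, map_zero] at hgc
    exact hc0 hgc.symm
  have hcoef : ∀ i, g.coeff i ≠ 0 → η ^ i = ξ ^ k := by
    intro i hi
    have h4 := congrArg (fun p => p.coeff i) h3
    simp only [comp_C_mul_X_coeff, coeff_C_mul] at h4
    rw [mul_comm (g.coeff i)] at h4
    exact mul_right_cancel₀ hi h4
  have hlt : ∀ i, g.coeff i ≠ 0 → i < m := by
    intro i hi
    by_contra hcon
    apply hi
    apply coeff_eq_zero_of_degree_lt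
    refine hgdeg.trans_le ?_
    rw [degree_eq_natDegree hfm.ne_zero, hfd]
    exact_mod_cast not_lt.mp hcon
  have hlead : g.coeff g.natDegree ≠ 0 := by
    rwa [coeff_natDegree, Ne, leadingCoeff_eq_zero]
  refine ⟨g.natDegree, hlt _ hlead, g.coeff g.natDegree, ?_⟩
  have hgm : g = C (g.coeff g.natDegree) * X ^ g.natDegree := by
    ext i
    rw [coeff_C_mul_X_pow]
    split_ifs with h
    · rw [h]
    · by_contra hne
      apply h
      exact hη.pow_inj (hlt i hne) (hlt _ hlead) ((hcoef i hne).trans (hcoef _ hlead).symm)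
  conv_lhs => rw [← hgc, hgm]
  rw [map_mul, map_pow, AdjoinRoot.mk_X, AdjoinRoot.mk_C]

theorem not_pow_adjoinRoot {E : Type*} [Field E] [CharZero E] {m : ℕ} (hm : 0 < m) {η : E}
    (hη : IsPrimitiveRoot η m) {ℓ : ℕ} (hℓ : ℓ.Prime) {ξ : E} (hξ : IsPrimitiveRoot ξ ℓ)
    {β γ : ℤ} (hγ0 : γ ≠ 0) {p₁ p₂ : ℕ} [Fact p₁.Prime] [Fact p₂.Prime] (σ₁ : E →+* ℚ_[p₁])
    (σ₂ : E →+* ℚ_[p₂]) (h1 : (p₁ : ℤ) ∣ β) (h2 : ¬ (p₁ : ℤ) ^ 2 ∣ β) (h3 : ¬ (p₁ : ℤ) ∣ γ)
    (h4 : ¬ ℓ ∣ padicValInt p₂ γ) {f : E[X]} (hf : f = X ^ m - C (β : E))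
    (c : AdjoinRoot f) : c ^ ℓ ≠ AdjoinRoot.of f (γ : E) := by
  intro hc
  have hirr : Irreducible f := hf ▸ irreducible_of_eisenstein σ₁ hm h1 h2
  haveI : Fact (Irreducible f) := ⟨hirr⟩
  obtain ⟨j, hj, e, rfl⟩ := adjoinRoot_pow_form hm hη hf hirr hℓ hξ hc
  have hroot : (AdjoinRoot.root f) ^ m = AdjoinRoot.of f (β : E) := by
    have h := AdjoinRoot.eval₂_root f
    rw [eval₂_of_eq hf, sub_eq_zero] at h
    exact h
  have hβ0 : β ≠ 0 := by rintro rfl; exact h2 (dvd_zero _)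
  have hγE : (γ : E) ≠ 0 := by exact_mod_cast hγ0
  have he0 : e ≠ 0 := by
    rintro rfl
    rw [map_zero, zero_mul, zero_pow hℓ.ne_zero] at hc
    have := (map_eq_zero (AdjoinRoot.of f)).mp hc.symm
    exact hγE this
  -- `γ ^ m = e ^ (ℓ m) β ^ (j ℓ)`
  have h5 : (γ : E) ^ m = e ^ (ℓ * m) * (β : E) ^ (j * ℓ) := by
    apply (AdjoinRoot.of f).injective
    rw [map_pow, ← hc, map_mul, map_pow, map_pow, ← hroot]
    ring
  have h6 : (γ : ℚ_[p₁]) ^ m = (σ₁ e) ^ (ℓ * m) * (β : ℚ_[p₁]) ^ (j * ℓ) := by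
    have := congrArg σ₁ h5
    simpa using this
  have hγ1 : (γ : ℚ_[p₁]) ≠ 0 := by exact_mod_cast hγ0
  have hβ1 : (β : ℚ_[p₁]) ≠ 0 := by exact_mod_cast hβ0
  have he1 : σ₁ e ≠ 0 := by rwa [Ne, map_eq_zero]
  have h7 := congrArg Padic.valuation h6
  rw [Padic.valuation_mul (pow_ne_zero _ he1) (pow_ne_zero _ hβ1), Padic.valuation_pow,
    Padic.valuation_pow, Padic.valuation_pow, Padic.valuation_intCast, Padic.valuation_intCast] at h7
  have h8 : padicValInt p₁ γ = 0 := by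
    rw [padicValInt.eq_zero_iff]
    exact Or.inr (Or.inr h3)
  have h9 : padicValInt p₁ β = 1 := by
    have h10 : ¬ padicValInt p₁ β < 1 := by
      intro h
      have : ¬ (p₁ : ℤ) ^ 1 ∣ β := by
        rw [padicValInt_dvd_iff]
        push Not
        exact ⟨hβ0, h⟩
      rw [pow_one] at this
      exact this h1
    have h11 : ¬ 2 ≤ padicValInt p₁ β := by
      intro h
      exact h2 ((padicValInt_dvd_iff 2 β).mpr (Or.inr h))
    omega
  rw [h8, h9] at h7
  have hj0 : j = 0 := by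
    have h12 : (m : ℤ) ∣ j := by
      have hℓ0 : (ℓ : ℤ) ≠ 0 := by exact_mod_cast hℓ.ne_zero
      have h13 : (j : ℤ) = -(m * Padic.valuation (σ₁ e)) := by
        have h14 : (ℓ : ℤ) * (j + m * Padic.valuation (σ₁ e)) = 0 := by
          push_cast at h7
          linarith
        have := (mul_eq_zero.mp h14).resolve_left hℓ0
        linarith
      rw [h13]
      exact (dvd_mul_right _ _).neg_right
    have h15 := Int.natCast_dvd_natCast.mp h12
    exact Nat.eq_zero_of_dvd_of_lt h15 hj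
  subst hj0
  rw [pow_zero, mul_one, ← map_pow] at hc
  have h16 : e ^ ℓ = (γ : E) := (AdjoinRoot.of f).injective hc
  have h17 : (σ₂ e) ^ ℓ = (γ : ℚ_[p₂]) := by
    have := congrArg σ₂ h16
    simpa using this
  have h18 := congrArg Padic.valuation h17
  rw [Padic.valuation_pow, Padic.valuation_intCast] at h18
  apply h4
  have : (ℓ : ℤ) ∣ (padicValInt p₂ γ : ℤ) := ⟨_, h18.symm⟩
  exact_mod_cast this

/-- a prime ideal of prime norm yields a surjection onto a prime field -/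
theorem exists_ringHom_zmod {F : Type*} [Field F] [NumberField F] {P : Ideal (𝓞 F)}
    (hPn : (Ideal.absNorm P).Prime) :
    ∃ φ : 𝓞 F →+* ZMod (Ideal.absNorm P), Function.Surjective φ ∧ ∀ x, φ x = 0 ↔ x ∈ P := by
  have hc : Ideal.absNorm P = Nat.card (𝓞 F ⧸ P) := by
    rw [Ideal.absNorm_apply, Submodule.cardQuot_apply]
  haveI : Finite (𝓞 F ⧸ P) := by
    refine Nat.finite_of_card_ne_zero ?_
    rw [← hc]; exact hPn.ne_zero
  haveI : Fintype (𝓞 F ⧸ P) := Fintype.ofFinite _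
  have hc' : Fintype.card (𝓞 F ⧸ P) = Ideal.absNorm P := by
    rw [hc, Nat.card_eq_fintype_card]
  let e := ZMod.ringEquivOfPrime (𝓞 F ⧸ P) hPn hc'
  refine ⟨(e.symm : (𝓞 F ⧸ P) →+* ZMod (Ideal.absNorm P)).comp (Ideal.Quotient.mk P),
    e.symm.surjective.comp Ideal.Quotient.mk_surjective, fun x => ?_⟩
  rw [RingHom.comp_apply]
  change e.symm (Ideal.Quotient.mk P x) = 0 ↔ x ∈ P
  rw [EmbeddingLike.map_eq_zero_iff, Ideal.Quotient.eq_zero_iff_mem]

/-- a number field containing a primitive `M`-th root of unity maps to prime fields `ZMod q`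
with `q ≡ 1 mod M`, for infinitely many `q`; version with an avoided power -/
theorem exists_prime_zmod_not_pow {F : Type} [Field F] [NumberField F] {M : ℕ} (hM : 0 < M)
    {ζ : 𝓞 F} (hζ : IsPrimitiveRoot ζ M) {ℓ : ℕ} (hℓ : ℓ.Prime) (hℓM : ℓ ∣ M)
    {γ : 𝓞 F} (hγ : ∀ c : F, c ^ ℓ ≠ (γ : F)) (B : ℕ) :
    ∃ q : ℕ, q.Prime ∧ B < q ∧ M ∣ q - 1 ∧ ∃ φ : 𝓞 F →+* ZMod q, ∀ t : ZMod q, t ^ ℓ ≠ φ γ := by
  have hn0 : ((B.factorial * M : ℕ) : 𝓞 F) ≠ 0 := by
    exact_mod_cast (Nat.mul_pos B.factorial_pos hM).ne'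
  obtain ⟨k, hk⟩ := hℓM
  have hξ : IsPrimitiveRoot (ζ ^ k) ℓ := hζ.pow hM (by rw [hk, mul_comm])
  obtain ⟨P, hP, hPn, hPB, hPt⟩ := exists_prime_not_pow hℓ hξ hγ
    (finite_primes_mem _ hn0).toFinset
  obtain ⟨φ, hφs, hφ⟩ := exists_ringHom_zmod hPn
  have h1 : ((B.factorial * M : ℕ) : 𝓞 F) ∉ P := by
    intro h
    exact hPB (by rw [Set.Finite.mem_toFinset]; exact ⟨hP, h⟩)
  have h2 : ¬ Ideal.absNorm P ∣ B.factorial * M := by
    rintro ⟨r, hr⟩
    apply h1
    rw [hr, Nat.cast_mul]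
    exact P.mul_mem_right _ (Ideal.absNorm_mem P)
  have hB : B < Ideal.absNorm P := by
    by_contra hcon
    exact h2 ((Nat.dvd_factorial hPn.pos (not_lt.mp hcon)).mul_right _)
  have hqM : ¬ Ideal.absNorm P ∣ M := fun h => h2 (h.mul_left _)
  have hprim : IsPrimitiveRoot (Ideal.Quotient.mk P ζ) M := by
    haveI : NeZero M := ⟨hM.ne'⟩
    exact hζ.idealQuotient_mk hPn.one_lt.ne' ((Nat.Prime.coprime_iff_not_dvd hPn).mpr hqM)
  have hprim' : IsPrimitiveRoot (φ ζ) M := by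
    refine IsPrimitiveRoot.mk_of_lt _ hM ?_ ?_
    · rw [← map_pow, hζ.pow_eq_one, map_one]
    · intro l hl hlM hl1
      have h3 : φ (ζ ^ l - 1) = 0 := by rw [map_sub, map_pow, hl1, map_one, sub_self]
      rw [hφ, ← Ideal.Quotient.eq_zero_iff_mem, map_sub, map_pow, map_one, sub_eq_zero] at h3
      exact absurd (Nat.le_of_dvd hl (hprim.dvd_of_pow_eq_one l h3)) (by omega)
  haveI : Fact (Ideal.absNorm P).Prime := ⟨hPn⟩
  refine ⟨Ideal.absNorm P, hPn, hB, ?_, φ, ?_⟩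
  · refine hprim'.dvd_of_pow_eq_one _ (ZMod.pow_card_sub_one_eq_one ?_)
    intro h
    have := hprim'.pow_eq_one
    rw [h, zero_pow hM.ne'] at this
    exact zero_ne_one this
  · intro t ht
    obtain ⟨t', rfl⟩ := hφs t
    apply hPt t'
    rw [← hφ, map_sub, map_pow, ht, sub_self]

/-- version without avoided power: any number field with a primitive `M`-th root of unity -/
theorem exists_prime_zmod {F : Type} [Field F] [NumberField F] {M : ℕ} (hM : 0 < M)
    {ζ : 𝓞 F} (hζ : IsPrimitiveRoot ζ M) {x : 𝓞 F} (hx : x ≠ 0) (B : ℕ) :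
    ∃ q : ℕ, q.Prime ∧ B < q ∧ M ∣ q - 1 ∧ ∃ φ : 𝓞 F →+* ZMod q, φ x ≠ 0 := by
  have hn0 : ((B.factorial * M : ℕ) : 𝓞 F) ≠ 0 := by
    exact_mod_cast (Nat.mul_pos B.factorial_pos hM).ne'
  obtain ⟨P, hP, hPn, hPB⟩ := exists_prime_norm_notMem F
    (finite_primes_mem _ (mul_ne_zero hn0 hx)).toFinset
  obtain ⟨φ, hφs, hφ⟩ := exists_ringHom_zmod hPn
  have h1 : ((B.factorial * M : ℕ) : 𝓞 F) * x ∉ P := by
    intro h
    exact hPB (by rw [Set.Finite.mem_toFinset]; exact ⟨hP, h⟩)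
  have h2 : ¬ Ideal.absNorm P ∣ B.factorial * M := by
    rintro ⟨r, hr⟩
    apply h1
    rw [hr, Nat.cast_mul]
    exact P.mul_mem_right _ (P.mul_mem_right _ (Ideal.absNorm_mem P))
  have hB : B < Ideal.absNorm P := by
    by_contra hcon
    exact h2 ((Nat.dvd_factorial hPn.pos (not_lt.mp hcon)).mul_right _)
  have hqM : ¬ Ideal.absNorm P ∣ M := fun h => h2 (h.mul_left _)
  have hprim : IsPrimitiveRoot (Ideal.Quotient.mk P ζ) M := by
    haveI : NeZero M := ⟨hM.ne'⟩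
    exact hζ.idealQuotient_mk hPn.one_lt.ne' ((Nat.Prime.coprime_iff_not_dvd hPn).mpr hqM)
  have hprim' : IsPrimitiveRoot (φ ζ) M := by
    refine IsPrimitiveRoot.mk_of_lt _ hM ?_ ?_
    · rw [← map_pow, hζ.pow_eq_one, map_one]
    · intro l hl hlM hl1
      have h3 : φ (ζ ^ l - 1) = 0 := by rw [map_sub, map_pow, hl1, map_one, sub_self]
      rw [hφ, ← Ideal.Quotient.eq_zero_iff_mem, map_sub, map_pow, map_one, sub_eq_zero] at h3
      exact absurd (Nat.le_of_dvd hl (hprim.dvd_of_pow_eq_one l h3)) (by omega)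
  haveI : Fact (Ideal.absNorm P).Prime := ⟨hPn⟩
  refine ⟨Ideal.absNorm P, hPn, hB, ?_, φ, ?_⟩
  · refine hprim'.dvd_of_pow_eq_one _ (ZMod.pow_card_sub_one_eq_one ?_)
    intro h
    have := hprim'.pow_eq_one
    rw [h, zero_pow hM.ne'] at this
    exact zero_ne_one this
  · intro h
    rw [hφ] at h
    exact h1 (P.mul_mem_left _ h)

theorem exists_detecting_prime_aux {m ℓ : ℕ} (E : Type) [Field E] [NumberField E]
    [NeZero (4 * m)] [IsCyclotomicExtension {4 * m} ℚ E]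
    (hm : 0 < m) (hℓ : ℓ.Prime) (hℓm : ℓ ∣ m)
    {β γ : ℤ} (hγ0 : γ ≠ 0) {p₁ p₂ : ℕ} (hp₁ : p₁.Prime) (hp₂ : p₂.Prime)
    (hp₁' : 4 * m ∣ p₁ - 1) (hp₂' : 4 * m ∣ p₂ - 1)
    (h1 : (p₁ : ℤ) ∣ β) (h2 : ¬ (p₁ : ℤ) ^ 2 ∣ β) (h3 : ¬ (p₁ : ℤ) ∣ γ)
    (h4 : ¬ ℓ ∣ padicValInt p₂ γ) (B : ℕ) :
    ∃ q : ℕ, q.Prime ∧ B < q ∧ 4 * m ∣ q - 1 ∧ (∃ y : ZMod q, y ^ m = (β : ZMod q)) ∧
      ∀ t : ZMod q, t ^ ℓ ≠ (γ : ZMod q) := by
  haveI : Fact p₁.Prime := ⟨hp₁⟩
  haveI : Fact p₂.Prime := ⟨hp₂⟩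
  have hM : 0 < 4 * m := by omega
  obtain ⟨σ₁⟩ := exists_ringHom_padic hp₁' E
  obtain ⟨σ₂⟩ := exists_ringHom_padic hp₂' E
  have hζ := IsCyclotomicExtension.zeta_spec (4 * m) ℚ E
  set ζ : E := IsCyclotomicExtension.zeta (4 * m) ℚ E with hζdef
  have hη : IsPrimitiveRoot (ζ ^ 4) m := hζ.pow hM rfl
  obtain ⟨k, hk⟩ := hℓm
  have hξ : IsPrimitiveRoot (ζ ^ (4 * k)) ℓ := hζ.pow hM (by rw [hk]; ring)
  have hnot := not_pow_adjoinRoot (E := E) hm hη hℓ hξ hγ0 σ₁ σ₂ h1 h2 h3 h4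
    (f := X ^ m - C (β : E)) rfl
  have hirr : Irreducible (X ^ m - C (β : E) : E[X]) := irreducible_of_eisenstein σ₁ hm h1 h2
  haveI : Fact (Irreducible (X ^ m - C (β : E) : E[X])) := ⟨hirr⟩
  let F := AdjoinRoot (X ^ m - C (β : E) : E[X])
  haveI : Module.Finite E F := (AdjoinRoot.powerBasis hirr.ne_zero).finite
  haveI : NumberField F := NumberField.of_module_finite E F
  have hζF : IsPrimitiveRoot (algebraMap E F ζ) (4 * m) :=
    hζ.map_of_injective (algebraMap E F).injective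
  let ζO : 𝓞 F := hζF.toInteger
  have hζO : IsPrimitiveRoot ζO (4 * m) := hζF.toInteger_isPrimitiveRoot
  have hroot : (AdjoinRoot.root (X ^ m - C (β : E) : E[X])) ^ m = ((β : ℤ) : F) := by
    have h := AdjoinRoot.eval₂_root (X ^ m - C (β : E) : E[X])
    rw [eval₂_of_eq rfl, sub_eq_zero] at h
    rw [h]
    exact map_intCast _ _
  have hint : IsIntegral ℤ (AdjoinRoot.root (X ^ m - C (β : E) : E[X])) := by
    have : IsIntegral ℤ ((AdjoinRoot.root (X ^ m - C (β : E) : E[X])) ^ m) := by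
      rw [hroot]
      exact isIntegral_algebraMap (R := ℤ) (A := F) (x := β)
    exact this.of_pow hm
  let τ : 𝓞 F := ⟨_, hint⟩
  have hτ : τ ^ m = ((β : ℤ) : 𝓞 F) := by
    apply RingOfIntegers.coe_injective
    exact hroot.trans (map_intCast (algebraMap (𝓞 F) F) β).symm
  obtain ⟨q, hq, hBq, hqM, φ, hφ⟩ := exists_prime_zmod_not_pow (F := F) hM hζO hℓ
    (by rw [hk]; exact ⟨4 * k, by ring⟩) (γ := ((γ : ℤ) : 𝓞 F)) (by
      intro c hc
      apply hnot c
      rw [hc]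
      exact (map_intCast (algebraMap (𝓞 F) F) γ).trans
        (map_intCast (AdjoinRoot.of (X ^ m - C (β : E) : E[X])) γ).symm) B
  refine ⟨q, hq, hBq, hqM, ⟨φ τ, ?_⟩, ?_⟩
  · rw [← map_pow, hτ, map_intCast]
  · intro t ht
    apply hφ t
    rw [ht, map_intCast]

theorem exists_detecting_prime {m ℓ : ℕ} (hm : 0 < m) (hℓ : ℓ.Prime) (hℓm : ℓ ∣ m)
    {β γ : ℤ} (hγ0 : γ ≠ 0) {p₁ p₂ : ℕ} (hp₁ : p₁.Prime) (hp₂ : p₂.Prime)
    (hp₁' : 4 * m ∣ p₁ - 1) (hp₂' : 4 * m ∣ p₂ - 1)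
    (h1 : (p₁ : ℤ) ∣ β) (h2 : ¬ (p₁ : ℤ) ^ 2 ∣ β) (h3 : ¬ (p₁ : ℤ) ∣ γ)
    (h4 : ¬ ℓ ∣ padicValInt p₂ γ) (B : ℕ) :
    ∃ q : ℕ, q.Prime ∧ B < q ∧ 4 * m ∣ q - 1 ∧ (∃ y : ZMod q, y ^ m = (β : ZMod q)) ∧
      ∀ t : ZMod q, t ^ ℓ ≠ (γ : ZMod q) := by
  haveI : NeZero (4 * m) := ⟨by omega⟩
  haveI : NeZero ((4 * m : ℕ) : ℚ) := ⟨by exact_mod_cast (by omega : 4 * m ≠ 0)⟩
  haveI : IsCyclotomicExtension {4 * m} ℚ (CyclotomicField (4 * m) ℚ) :=
    CyclotomicField.isCyclotomicExtension (4 * m) ℚ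
  exact exists_detecting_prime_aux (CyclotomicField (4 * m) ℚ) hm hℓ hℓm hγ0 hp₁ hp₂ hp₁' hp₂'
    h1 h2 h3 h4 B

end Pool.Agent.Lib.MP_176ace_nt
end

section

set_option autoImplicit false
set_option linter.style.haveILetI false

/-!
Local arguments: roots of unity and independence of the elements `θ - c` modulo powers.
-/

namespace Pool.Agent.Lib.MP_176ace_nt

open Polynomial

section

variable {q : ℕ} [Fact q.Prime]

/-- an element of `ℚ_q` whose `ℓ`-th power is a unit is the image of a `q`-adic integer unit -/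
theorem exists_padicInt_of_norm_pow {y : ℚ_[q]} {ℓ : ℕ} (hℓ : ℓ ≠ 0) (h : ‖y ^ ℓ‖ = 1) :
    ∃ x : ℤ_[q], (x : ℚ_[q]) = y := by
  rw [norm_pow] at h
  have h1 : ‖y‖ = 1 := (pow_eq_one_iff_of_nonneg (norm_nonneg y) hℓ).mp h
  exact ⟨⟨y, h1.le⟩, rfl⟩

theorem zmod_eq_one_of_pow {ℓ : ℕ} (hcop : Nat.Coprime ℓ (q - 1)) {x : ZMod q} (hx : x ^ ℓ = 1)
    (hℓ : ℓ ≠ 0) : x = 1 := by
  have hx0 : x ≠ 0 := by
    rintro rfl
    rw [zero_pow hℓ] at hx
    exact zero_ne_one hx
  have h1 : x ^ (q - 1) = 1 := ZMod.pow_card_sub_one_eq_one hx0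
  have h2 : x ^ (Nat.gcd ℓ (q - 1)) = 1 := pow_gcd_eq_one.mpr ⟨hx, h1⟩
  rwa [hcop, pow_one] at h2

/-- no nontrivial `ℓ`-th root of unity in `ℚ_q` when `ℓ` is prime to `q (q-1)` -/
theorem padic_eq_one_of_pow {ℓ : ℕ} (hℓ : ℓ ≠ 0) (hcop : Nat.Coprime ℓ (q - 1))
    (hqℓ : ¬ q ∣ ℓ) {y : ℚ_[q]} (hy : y ^ ℓ = 1) : y = 1 := by
  obtain ⟨x, rfl⟩ := exists_padicInt_of_norm_pow (q := q) hℓ (by rw [hy]; exact norm_one)
  have hx : x ^ ℓ = 1 := by
    have : ((x ^ ℓ : ℤ_[q]) : ℚ_[q]) = ((1 : ℤ_[q]) : ℚ_[q]) := by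
      push_cast; exact hy
    exact Subtype.ext this
  have h1 : PadicInt.toZMod x = 1 := by
    apply zmod_eq_one_of_pow hcop _ hℓ
    rw [← map_pow, hx, map_one]
  have h2 : (∑ i ∈ Finset.range ℓ, x ^ i) * (x - 1) = 0 := by
    rw [geom_sum_mul, hx, sub_self]
  have h3 : (∑ i ∈ Finset.range ℓ, x ^ i) ≠ 0 := by
    intro h
    have h4 := congrArg (PadicInt.toZMod (p := q)) h
    rw [map_sum, map_zero] at h4
    simp only [map_pow, h1, one_pow, Finset.sum_const, Finset.card_range, nsmul_eq_mul,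
      mul_one] at h4
    rw [ZMod.natCast_eq_zero_iff] at h4
    exact hqℓ h4
  have h5 := (mul_eq_zero.mp h2).resolve_left h3
  rw [sub_eq_zero] at h5
  rw [h5]; rfl

theorem padic_sq_ne_neg_one (hq : q % 4 = 3) (y : ℚ_[q]) : y ^ 2 ≠ -1 := by
  intro hy
  obtain ⟨x, rfl⟩ := exists_padicInt_of_norm_pow (q := q) two_ne_zero (y := y)
    (by rw [hy, norm_neg]; exact norm_one)
  have hx : x ^ 2 = -1 := by
    have : ((x ^ 2 : ℤ_[q]) : ℚ_[q]) = ((-1 : ℤ_[q]) : ℚ_[q]) := by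
      push_cast; exact hy
    exact Subtype.ext this
  have h1 : (PadicInt.toZMod x) ^ 2 = -1 := by
    rw [← map_pow, hx, map_neg, map_one]
  exact ZMod.mod_four_ne_three_of_sq_eq_neg_one h1 hq

end

/-- Roots of unity of a field embedding in `ℚ_q`, `q ≡ -1 mod 4m`, are `± ℓ`-th powers. -/
theorem torsion_form {K : Type*} [Field K] {q m : ℕ} [Fact q.Prime]
    (hq : 4 * m ∣ q + 1) (φ : K →+* ℚ_[q]) {ℓ : ℕ} (hℓ : ℓ.Prime) (hℓm : ℓ ∣ m) {ζ : Kˣ}
    (hζ : IsOfFinOrder ζ) : ∃ ξ : Kˣ, ζ = ξ ^ ℓ ∨ ζ = -ξ ^ ℓ := by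
  have hq1 : 1 < q := (Fact.out : q.Prime).one_lt
  have hmod4 : q % 4 = 3 := by
    obtain ⟨k, hk⟩ := hq
    have : q + 1 = 4 * (m * k) := by rw [hk]; ring
    omega
  have hqm : ∀ p : ℕ, p ∣ m → p ≠ 1 → ¬ q ∣ p := by
    intro p hp _ h
    have h1 : q ∣ 4 * m := h.trans (hp.mul_left 4)
    have h2 : q ∣ q + 1 := h1.trans hq
    have h3 : q ∣ 1 := (Nat.dvd_add_right (dvd_refl q)).mp h2
    exact (Fact.out : q.Prime).one_lt.ne' (Nat.dvd_one.mp h3)
  set n := orderOf ζ with hn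
  have hn0 : 0 < n := hζ.orderOf_pos
  -- no element of order four
  have h4 : ¬ 4 ∣ n := by
    rintro ⟨k, hk⟩
    have h5 : orderOf (ζ ^ k) = 4 := by
      rw [orderOf_pow_of_dvd (by omega) (Dvd.intro_left _ hk.symm), ← hn, hk]
      exact Nat.mul_div_cancel _ (by omega)
    have h6 : ((ζ ^ k : Kˣ) : K) ^ 2 = -1 := by
      have h7 : (((ζ ^ k : Kˣ) : K) ^ 2) ^ 2 = 1 := by
        rw [← pow_mul, ← Units.val_pow_eq_pow_val]
        have := pow_orderOf_eq_one (ζ ^ k)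
        rw [h5] at this
        rw [this, Units.val_one]
      have h8 : (((ζ ^ k : Kˣ) : K) ^ 2 - 1) * (((ζ ^ k : Kˣ) : K) ^ 2 + 1) = 0 := by
        linear_combination h7
      rcases mul_eq_zero.mp h8 with h | h
      · exfalso
        rw [sub_eq_zero] at h
        have h8 : (ζ ^ k) ^ 2 = 1 := by
          apply Units.ext
          rw [Units.val_pow_eq_pow_val, h, Units.val_one]
        have := orderOf_dvd_of_pow_eq_one h8
        rw [h5] at this
        norm_num at this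
      · exact eq_neg_of_add_eq_zero_left h
    apply padic_sq_ne_neg_one hmod4 (φ ((ζ ^ k : Kˣ) : K))
    rw [← map_pow, h6, map_neg, map_one]
  -- no element of odd order `p ∣ m`
  have hodd : ∀ p : ℕ, p.Prime → p ∣ m → p ≠ 2 → ¬ p ∣ n := by
    rintro p hp hpm hp2 ⟨k, hk⟩
    have hk0 : k ≠ 0 := by rintro rfl; omega
    have h5 : orderOf (ζ ^ k) = p := by
      rw [orderOf_pow_of_dvd hk0 (Dvd.intro_left _ hk.symm), ← hn, hk]
      exact Nat.mul_div_cancel _ (by omega)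
    have h6 : φ ((ζ ^ k : Kˣ) : K) = 1 := by
      apply padic_eq_one_of_pow hp.ne_zero _ (hqm p hpm hp.one_lt.ne')
      · rw [← map_pow, ← Units.val_pow_eq_pow_val]
        have := pow_orderOf_eq_one (ζ ^ k)
        rw [h5] at this
        rw [this, Units.val_one, map_one]
      · rw [Nat.Prime.coprime_iff_not_dvd hp]
        intro h
        have h8 : p ∣ q + 1 := (hpm.trans (Dvd.intro_left 4 rfl)).trans hq
        have h9 : p ∣ (q + 1) - (q - 1) := Nat.dvd_sub h8 h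
        have h10 : (q + 1) - (q - 1) = 2 := by omega
        rw [h10, Nat.prime_dvd_prime_iff_eq hp Nat.prime_two] at h9
        exact hp2 h9
    rw [← map_one φ] at h6
    have h7 : ζ ^ k = 1 := Units.ext (by rw [φ.injective h6, Units.val_one])
    rw [h7, orderOf_one] at h5
    exact hp.one_lt.ne h5
  -- split off the `2`-part
  obtain ⟨k, ξ, hkodd, hkn, hξk, hξ⟩ : ∃ (k : ℕ) (ξ : Kˣ), ¬ 2 ∣ k ∧ k ∣ n ∧ ξ ^ k = 1 ∧
      (ζ = ξ ∨ ζ = -ξ) := by
    by_cases h2 : 2 ∣ n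
    · obtain ⟨k, hk⟩ := h2
      have hk2 : ¬ 2 ∣ k := by
        rintro ⟨j, rfl⟩
        exact h4 ⟨j, by rw [hk]; ring⟩
      have h5 : (((ζ ^ k : Kˣ) : K) - 1) * (((ζ ^ k : Kˣ) : K) + 1) = 0 := by
        have h6 : ((ζ ^ k : Kˣ) : K) ^ 2 = 1 := by
          rw [← Units.val_pow_eq_pow_val, ← pow_mul, mul_comm k 2, ← hk, hn, pow_orderOf_eq_one,
            Units.val_one]
        linear_combination h6
      rcases mul_eq_zero.mp h5 with h | h
      · refine ⟨k, ζ, hk2, Dvd.intro_left _ hk.symm, ?_, Or.inl rfl⟩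
        apply Units.ext
        rw [sub_eq_zero] at h
        rw [h, Units.val_one]
      · refine ⟨k, -ζ, hk2, Dvd.intro_left _ hk.symm, ?_, Or.inr (neg_neg ζ).symm⟩
        have hko : Odd k := Nat.not_even_iff_odd.mp fun he => hk2 he.two_dvd
        rw [hko.neg_pow]
        apply Units.ext
        rw [Units.val_neg, eq_neg_of_add_eq_zero_left h, Units.val_one, neg_neg]
    · exact ⟨n, ζ, h2, dvd_rfl, pow_orderOf_eq_one ζ, Or.inl rfl⟩
  have hℓk : ¬ ℓ ∣ k := by
    intro h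
    by_cases hℓ2 : ℓ = 2
    · exact hkodd (hℓ2 ▸ h)
    · exact hodd ℓ hℓ hℓm hℓ2 (h.trans hkn)
  have hcop : Nat.Coprime ℓ (orderOf ξ) :=
    Nat.Coprime.coprime_dvd_right (orderOf_dvd_of_pow_eq_one hξk)
      ((Nat.Prime.coprime_iff_not_dvd hℓ).mpr hℓk)
  obtain ⟨j, hj⟩ := exists_pow_eq_self_of_coprime hcop
  refine ⟨ξ ^ j, ?_⟩
  have h6 : (ξ ^ j) ^ ℓ = ξ := by rw [← pow_mul, mul_comm, pow_mul, hj]
  rw [h6]
  exact hξ

/-- detection of non-powers through an embedding in `ℚ_q` -/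
theorem indep_local {K : Type*} [Field K] {I : Type*} [Fintype I] (c : I → ℤ) {θ : K} {q m : ℕ}
    [Fact q.Prime] (hq : 4 * m ∣ q - 1) {x0 : ℤ} {t : ℤ_[q]}
    (ht : PadicInt.toZMod t = (x0 : ZMod q)) (φ : K →+* ℚ_[q]) (hφ : φ θ = (t : ℚ_[q])) {ℓ : ℕ}
    (hℓ : ℓ.Prime) (hℓm : ℓ ∣ m) (hne : ∀ k, ((x0 - c k : ℤ) : ZMod q) ≠ 0)
    (n : I → ℤ) (e : I → ℕ) (he : ∀ k, (ℓ : ℤ) ∣ n k - e k)
    (hnp : ∀ s : ZMod q, s ^ ℓ ≠ ∏ k, ((x0 - c k : ℤ) : ZMod q) ^ e k) (z : K) :
    ∏ k, (θ - (c k : K)) ^ n k ≠ z ^ ℓ ∧ ∏ k, (θ - (c k : K)) ^ n k ≠ -z ^ ℓ := by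
  -- `-1` is an `ℓ`-th power
  obtain ⟨ε, hε⟩ : ∃ ε : ZMod q, ε ^ ℓ = -1 := by
    have h1 : 2 * ℓ ∣ q - 1 := (Nat.mul_dvd_mul (by norm_num : 2 ∣ 4) hℓm).trans hq
    obtain ⟨x, hx⟩ := exists_primitiveRoot_zmod h1
    have hpos : 0 < 2 * ℓ := by have := hℓ.pos; omega
    have h2 : IsPrimitiveRoot (x ^ ℓ) 2 := hx.pow hpos (by ring)
    exact ⟨x, h2.eq_neg_one_of_two_right⟩
  choose f hf using he
  have hnf : ∀ k, n k = e k + ℓ * f k := fun k => by linarith [hf k]
  set y : I → ℤ_[q] := fun k => t - (c k : ℤ_[q]) with hy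
  have hyz : ∀ k, PadicInt.toZMod (y k) = ((x0 - c k : ℤ) : ZMod q) := by
    intro k
    rw [hy]
    simp only [map_sub, map_intCast, ht, Int.cast_sub]
  have hyne : ∀ k, ((y k : ℤ_[q]) : ℚ_[q]) ≠ 0 := by
    intro k h
    have h1 : y k = 0 := by
      apply Subtype.ext
      exact h
    apply hne k
    rw [← hyz, h1, map_zero]
  have hynorm : ∀ k, ‖((y k : ℤ_[q]) : ℚ_[q])‖ = 1 := by
    intro k
    rw [← PadicInt.norm_def]
    refine le_antisymm (PadicInt.norm_le_one _) (not_lt.mp fun h => hne k ?_)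
    rw [← hyz, ← RingHom.mem_ker, PadicInt.ker_toZMod, PadicInt.maximalIdeal_eq_span_p,
      Ideal.mem_span_singleton]
    exact (PadicInt.norm_lt_one_iff_dvd _).mp h
  have hφc : ∀ k, φ (θ - (c k : K)) = ((y k : ℤ_[q]) : ℚ_[q]) := by
    intro k
    rw [map_sub, hφ, map_intCast, hy]
    push_cast
    rfl
  -- the common computation
  have key : ∀ (δK : K) (δ : ℤ_[q]) (ε' : ZMod q), φ δK = (δ : ℚ_[q]) → (δ = 1 ∨ δ = -1) →
      ε' ^ ℓ = PadicInt.toZMod δ → ∏ k, (θ - (c k : K)) ^ n k = δK * z ^ ℓ → False := by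
    intro δK δ ε' hδK hδ hε' hprod
    have h1 : ∏ k, ((y k : ℤ_[q]) : ℚ_[q]) ^ n k = (δ : ℚ_[q]) * φ z ^ ℓ := by
      have := congrArg φ hprod
      rw [map_prod, map_mul, map_pow, hδK] at this
      rw [← this]
      refine Finset.prod_congr rfl fun k _ => ?_
      rw [map_zpow₀, hφc]
    set w : ℚ_[q] := φ z / ∏ k, ((y k : ℤ_[q]) : ℚ_[q]) ^ f k with hw
    have hprodne : ∏ k, ((y k : ℤ_[q]) : ℚ_[q]) ^ f k ≠ 0 :=
      Finset.prod_ne_zero_iff.mpr fun k _ => zpow_ne_zero _ (hyne k)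
    have h2 : ∏ k, ((y k : ℤ_[q]) : ℚ_[q]) ^ e k = (δ : ℚ_[q]) * w ^ ℓ := by
      rw [hw, div_pow, ← mul_div_assoc, ← h1, eq_div_iff (pow_ne_zero _ hprodne),
        ← Finset.prod_pow, ← Finset.prod_mul_distrib]
      refine Finset.prod_congr rfl fun k _ => ?_
      rw [hnf k, zpow_add₀ (hyne k), zpow_natCast, mul_comm (ℓ : ℤ), zpow_mul, zpow_natCast]
    have hδn : ‖(δ : ℚ_[q])‖ = 1 := by
      rcases hδ with rfl | rfl <;> simp
    have h3 : ‖w ^ ℓ‖ = 1 := by
      have h4 := congrArg norm h2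
      rw [norm_mul, hδn, one_mul, norm_prod] at h4
      rw [← h4]
      refine Finset.prod_eq_one fun k _ => ?_
      rw [norm_pow, hynorm, one_pow]
    obtain ⟨x, hx⟩ := exists_padicInt_of_norm_pow hℓ.ne_zero h3
    have h5 : ∏ k, (y k) ^ e k = δ * x ^ ℓ := by
      apply Subtype.ext
      have h6 : ((∏ k, (y k) ^ e k : ℤ_[q]) : ℚ_[q]) = ∏ k, ((y k : ℤ_[q]) : ℚ_[q]) ^ e k := by
        have := map_prod (algebraMap ℤ_[q] ℚ_[q]) (fun k => (y k) ^ e k) Finset.univ
        simp only [map_pow] at this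
        exact this
      rw [h6, h2, ← hx]
      push_cast
      rfl
    have h7 := congrArg (PadicInt.toZMod (p := q)) h5
    rw [map_prod, map_mul, map_pow, ← hε', ← mul_pow] at h7
    apply hnp (ε' * PadicInt.toZMod x)
    rw [← h7]
    refine Finset.prod_congr rfl fun k _ => ?_
    rw [map_pow, hyz]
  constructor
  · intro h
    refine key 1 1 1 (by rw [map_one]; rfl) (Or.inl rfl) (by rw [one_pow, map_one]) ?_
    rw [one_mul, h]
  · intro h
    refine key (-1) (-1) ε (by rw [map_neg, map_one]; push_cast; rfl) (Or.inr rfl)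
      (by rw [hε, map_neg, map_one]) ?_
    rw [neg_one_mul, h]

end Pool.Agent.Lib.MP_176ace_nt
end

section

set_option autoImplicit false
set_option linter.style.haveILetI false

/-!
An element of a number field all whose valuations are `m`-th powers generates the `m`-th power of a
fractional ideal.
-/

namespace Pool.Agent.Lib.MP_176ace_nt

open NumberField IsDedekindDomain FractionalIdeal nonZeroDivisors

variable {K : Type*} [Field K] [NumberField K]

theorem valuation_eq_exp_neg_count (v : HeightOneSpectrum (𝓞 K)) {x : K} (hx : x ≠ 0) :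
    v.valuation K x = WithZero.exp (-(count K v (spanSingleton (𝓞 K)⁰ x))) := by
  classical
  obtain ⟨n, d, hd, rfl⟩ := IsFractionRing.div_surjective (A := 𝓞 K) x
  have hd0 : d ≠ 0 := nonZeroDivisors.ne_zero hd
  have hn0 : n ≠ 0 := by
    rintro rfl
    simp at hx
  have hI : spanSingleton (𝓞 K)⁰ (algebraMap (𝓞 K) K n / algebraMap (𝓞 K) K d) ≠ 0 := by
    rwa [Ne, spanSingleton_eq_zero_iff]
  have h1 : spanSingleton (𝓞 K)⁰ (algebraMap (𝓞 K) K n / algebraMap (𝓞 K) K d) =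
      spanSingleton (𝓞 K)⁰ ((algebraMap (𝓞 K) K) d)⁻¹ * ((Ideal.span {n} : Ideal (𝓞 K)) : FractionalIdeal (𝓞 K)⁰ K) := by
    rw [coeIdeal_span_singleton, spanSingleton_mul_spanSingleton, div_eq_inv_mul]
  rw [count_well_defined K v hI h1, map_div₀, HeightOneSpectrum.valuation_of_algebraMap,
    HeightOneSpectrum.valuation_of_algebraMap, v.intValuation_if_neg hn0,
    v.intValuation_if_neg hd0, ← WithZero.exp_sub]
  congr 1
  ring

theorem exists_root_ideal {m : ℕ} (hm : 0 < m) (x : Kˣ)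
    (h : ∀ v : HeightOneSpectrum (𝓞 K), ∃ z : WithZero (Multiplicative ℤ),
      v.valuation K (x : K) = z ^ m) :
    ∃ I : (FractionalIdeal (𝓞 K)⁰ K)ˣ, I ^ m = toPrincipalIdeal (𝓞 K) K x := by
  classical
  set J : FractionalIdeal (𝓞 K)⁰ K := spanSingleton (𝓞 K)⁰ (x : K) with hJ
  have hJ0 : J ≠ 0 := by
    rw [hJ, Ne, spanSingleton_eq_zero_iff]
    exact x.ne_zero
  have hdiv : ∀ v : HeightOneSpectrum (𝓞 K), (m : ℤ) ∣ count K v J := by
    intro v
    obtain ⟨z, hz⟩ := h v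
    rw [valuation_eq_exp_neg_count v x.ne_zero] at hz
    have hz0 : z ≠ 0 := by
      rintro rfl
      rw [zero_pow hm.ne'] at hz
      exact WithZero.exp_ne_zero hz
    rw [← WithZero.exp_log hz0, ← WithZero.exp_nsmul, WithZero.exp_inj] at hz
    rw [← Int.dvd_neg]
    exact ⟨WithZero.log z, by rw [hz]; simp⟩
  choose k hk using hdiv
  have hfin : (Function.mulSupport fun v : HeightOneSpectrum (𝓞 K) =>
      (v.asIdeal : FractionalIdeal (𝓞 K)⁰ K) ^ k v).Finite := by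
    refine (Filter.eventually_cofinite.mp (finite_factors J)).subset ?_
    intro v hv hcon
    apply hv
    have : k v = 0 := by
      have h1 := hk v
      rw [hcon] at h1
      have hm' : (m : ℤ) ≠ 0 := by exact_mod_cast hm.ne'
      exact (mul_eq_zero.mp h1.symm).resolve_left hm'
    simp only [this, zpow_zero]
  have h2 : (∏ᶠ v : HeightOneSpectrum (𝓞 K), (v.asIdeal : FractionalIdeal (𝓞 K)⁰ K) ^ k v) ^ m
      = J := by
    rw [finprod_pow hfin, ← finprod_heightOneSpectrum_factorization' K hJ0]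
    refine finprod_congr fun v => ?_
    rw [← zpow_natCast, ← zpow_mul, mul_comm, ← hk v]
  have h3 : (∏ᶠ v : HeightOneSpectrum (𝓞 K), (v.asIdeal : FractionalIdeal (𝓞 K)⁰ K) ^ k v) ≠ 0 := by
    intro h
    rw [h, zero_pow hm.ne'] at h2
    exact hJ0 h2.symm
  refine ⟨Units.mk0 _ h3, ?_⟩
  rw [eq_comm, toPrincipalIdeal_eq_iff]
  rw [Units.val_pow_eq_pow_val, Units.val_mk0, h2]

end Pool.Agent.Lib.MP_176ace_nt
end
end
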