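import Mathlib
import Pool.Agent.Lib.MP_176ace_nt.IdealRoot

section

set_option autoImplicit false
set_option linter.style.haveILetI false

/-!
The number field generated by a root `θ` of `s A(X) + u ^ m`.
-/

namespace Pool.Agent.Lib.MP_176ace_nt

open Polynomial NumberField

/-- the reversed polynomial -/
noncomputable def revPoly {ι : Type*} [Fintype ι] (a : ι → ℤ) (s u : ℤ) (m : ℕ) : ℤ[X] :=
  C s * ∏ i, (1 - C (a i) * X) + C (u ^ m) * X ^ (Fintype.card ι)

theorem natDegree_prod_one_sub_le {ι : Type*} [Fintype ι] (a : ι → ℤ) :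
    (∏ i, (1 - C (a i) * X) : ℤ[X]).natDegree ≤ Fintype.card ι := by
  refine (natDegree_prod_le _ _).trans ?_
  rw [Fintype.card, Finset.card_eq_sum_ones]
  refine Finset.sum_le_sum fun i _ => ?_
  refine (natDegree_sub_le _ _).trans (max_le (by simp) ?_)
  exact (natDegree_C_mul_le _ _).trans natDegree_X_le

theorem revPoly_aeval {ι : Type*} [Fintype ι] (a : ι → ℤ) (s u : ℤ) (m : ℕ) {R : Type*} [Field R]
    {x y : R} (hxy : x * y = 1) :
    aeval x (revPoly a s u m) = x ^ (Fintype.card ι) * ((s : R) * aeval y (splitPoly a) + (u : R) ^ m) := by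
  have h1 : ∏ i, (1 - (a i : R) * x) = x ^ (Fintype.card ι) * ∏ i, (y - (a i : R)) := by
    rw [Fintype.card, ← Finset.prod_const, ← Finset.prod_mul_distrib]
    refine Finset.prod_congr rfl fun i _ => ?_
    rw [mul_sub, hxy, mul_comm x]
  rw [aeval_splitPoly]
  simp only [revPoly, map_add, map_mul, map_prod, map_sub, map_one, aeval_X, map_pow,
    eq_intCast]
  simp only [map_intCast]
  rw [h1]
  ring

theorem revPoly_irreducible {ι : Type*} [Fintype ι] [Nonempty ι] (a : ι → ℤ) {s u : ℤ} {m : ℕ}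
    {q : ℕ} (hq : q.Prime) (h1 : (q : ℤ) ∣ s) (h2 : ¬ (q : ℤ) ^ 2 ∣ s) (h3 : ¬ (q : ℤ) ∣ u)
    (hsu : IsCoprime s u) :
    Irreducible (revPoly a s u m) ∧ (revPoly a s u m).natDegree = Fintype.card ι := by
  have hqz : Prime (q : ℤ) := Nat.prime_iff_prime_int.mp hq
  have hd : 0 < Fintype.card ι := Fintype.card_pos
  set P : ℤ[X] := ∏ i, (1 - C (a i) * X) with hP
  have hPdeg : P.natDegree ≤ Fintype.card ι := natDegree_prod_one_sub_le a
  have hcoef : ∀ n, (revPoly a s u m).coeff n = s * P.coeff n +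
      (if n = Fintype.card ι then u ^ m else 0) := by
    intro n
    rw [revPoly, coeff_add, coeff_C_mul, coeff_C_mul_X_pow]
  have hP0 : P.coeff 0 = 1 := by
    rw [hP, coeff_zero_prod]
    simp
  have hc0 : (revPoly a s u m).coeff 0 = s := by
    rw [hcoef, hP0, if_neg hd.ne]; ring
  have hcd : (revPoly a s u m).coeff (Fintype.card ι) = s * P.coeff (Fintype.card ι) + u ^ m := by
    rw [hcoef, if_pos rfl]
  have hcd' : ¬ (q : ℤ) ∣ (revPoly a s u m).coeff (Fintype.card ι) := by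
    rw [hcd]
    intro h
    have h4 : (q : ℤ) ∣ u ^ m := (Int.dvd_add_right (h1.mul_right _)).mp h
    exact h3 (hqz.dvd_of_dvd_pow h4)
  have hdeg : (revPoly a s u m).natDegree = Fintype.card ι := by
    refine le_antisymm ?_ (le_natDegree_of_ne_zero fun h => hcd' (by rw [h]; exact dvd_zero _))
    rw [revPoly]
    refine (natDegree_add_le _ _).trans (max_le ?_ ?_)
    · exact (natDegree_C_mul_le _ _).trans hPdeg
    · exact natDegree_C_mul_X_pow_le _ _
  refine ⟨?_, hdeg⟩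
  have hprime : (Ideal.span {(q : ℤ)}).IsPrime := by
    rw [Ideal.span_singleton_prime hqz.ne_zero]; exact hqz
  have hE : (revPoly a s u m).IsEisensteinAt (Ideal.span {(q : ℤ)}) := by
    refine ⟨?_, ?_, ?_⟩
    · rw [leadingCoeff, hdeg, Ideal.mem_span_singleton]; exact hcd'
    · intro n hn
      rw [hdeg] at hn
      rw [hcoef, if_neg hn.ne, add_zero, Ideal.mem_span_singleton]
      exact h1.mul_right _
    · rw [hc0, Ideal.span_singleton_pow, Ideal.mem_span_singleton]; exact h2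
  refine hE.irreducible hprime ?_ (by rw [hdeg]; exact hd)
  intro r hr
  rw [C_dvd_iff_dvd_coeff] at hr
  have h4 := hr 0
  rw [hc0] at h4
  have h5 := hr (Fintype.card ι)
  rw [hcd] at h5
  have h6 : r ∣ u ^ m := (Int.dvd_add_right (h4.mul_right _)).mp h5
  exact (hsu.pow_right (n := m)).isUnit_of_dvd' h4 h6

theorem eval₂_map_int {R : Type*} [CommRing R] (i : ℚ →+* R) (x : R) (G : ℤ[X]) :
    eval₂ i x (G.map (Int.castRingHom ℚ)) = aeval x G := by
  have h : i.comp (Int.castRingHom ℚ) = algebraMap ℤ R := RingHom.ext_int _ _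
  rw [eval₂_map, aeval_def, h]

theorem exists_field {ι : Type*} [Fintype ι] [Nonempty ι] (a : ι → ℤ) {s u : ℤ} {m : ℕ}
    {q : ℕ} (hq : q.Prime) (h1 : (q : ℤ) ∣ s) (h2 : ¬ (q : ℤ) ^ 2 ∣ s) (h3 : ¬ (q : ℤ) ∣ u)
    (hsu : IsCoprime s u) :
    ∃ (K : Type) (_ : Field K) (_ : NumberField K) (θ : K), Module.finrank ℚ K = Fintype.card ι ∧
      (s : K) * aeval θ (splitPoly a) = -(u : K) ^ m ∧
      (∀ (R : Type) [Field R] [CharZero R] (t : R),
        (s : R) * aeval t (splitPoly a) = -(u : R) ^ m → ∃ φ : K →+* R, φ θ = t) ∧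
      (∀ (R : Type) [Field R] (φ ψ : K →+* R), φ θ = ψ θ → φ = ψ) := by
  obtain ⟨hirr, hdeg⟩ := revPoly_irreducible (m := m) a hq h1 h2 h3 hsu
  set G := revPoly a s u m with hG
  have hd : 0 < Fintype.card ι := Fintype.card_pos
  have hprim : G.IsPrimitive := hirr.isPrimitive (by rw [hdeg]; exact hd.ne')
  have hirrQ : Irreducible (G.map (Int.castRingHom ℚ)) :=
    (IsPrimitive.Int.irreducible_iff_irreducible_map_cast hprim).mp hirr
  haveI : Fact (Irreducible (G.map (Int.castRingHom ℚ))) := ⟨hirrQ⟩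
  let K := AdjoinRoot (G.map (Int.castRingHom ℚ))
  haveI : CharZero K := charZero_of_injective_algebraMap (algebraMap ℚ K).injective
  haveI : Module.Finite ℚ K := (AdjoinRoot.powerBasis hirrQ.ne_zero).finite
  haveI : NumberField K := { to_charZero := inferInstance, to_finiteDimensional := inferInstance }
  let π : K := AdjoinRoot.root (G.map (Int.castRingHom ℚ))
  have hπ : aeval π G = 0 := by
    have h := AdjoinRoot.eval₂_root (G.map (Int.castRingHom ℚ))
    rwa [eval₂_map_int] at h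
  have hs0 : s ≠ 0 := by rintro rfl; exact h2 (dvd_zero _)
  have hπ0 : π ≠ 0 := by
    intro h0
    rw [h0, ← coeff_zero_eq_aeval_zero'] at hπ
    have hc0 : G.coeff 0 = s := by
      rw [hG, revPoly, coeff_add, coeff_C_mul, coeff_C_mul_X_pow, if_neg hd.ne, coeff_zero_prod]
      simp
    rw [hc0] at hπ
    apply hs0
    have : ((s : ℤ) : K) = 0 := by simpa using hπ
    exact_mod_cast this
  refine ⟨K, inferInstance, inferInstance, π⁻¹, ?_, ?_, ?_, ?_⟩
  · rw [(AdjoinRoot.powerBasis hirrQ.ne_zero).finrank, AdjoinRoot.powerBasis_dim,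
      natDegree_map_eq_of_injective (RingHom.injective_int _), hdeg]
  · have h4 := revPoly_aeval a s u m (mul_inv_cancel₀ hπ0)
    have h4' := h4.symm.trans hπ
    have h5 := (mul_eq_zero.mp h4').resolve_left (pow_ne_zero _ hπ0)
    linear_combination h5
  · intro R _ _ t ht
    have ht0 : t ≠ 0 := by
      rintro rfl
      have h4 : aeval (0 : R) (splitPoly a) = (((splitPoly a).eval 0 : ℤ) : R) := by
        rw [← coeff_zero_eq_aeval_zero', ← coeff_zero_eq_eval_zero]; simp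
      rw [h4] at ht
      have h5 : s * (splitPoly a).eval 0 = -u ^ m := by exact_mod_cast ht
      have h6 : s ∣ u ^ m := by rw [← Int.dvd_neg]; exact Dvd.intro _ h5
      have h7 : IsUnit s := (hsu.pow_right (n := m)).isUnit_of_dvd' dvd_rfl h6
      have h8 : IsUnit (q : ℤ) := isUnit_of_dvd_unit h1 h7
      exact (Nat.prime_iff_prime_int.mp hq).not_isUnit h8
    have h4 := revPoly_aeval a s u m (inv_mul_cancel₀ ht0)
    rw [ht, neg_add_cancel, mul_zero] at h4
    have h5 : eval₂ (algebraMap ℚ R) t⁻¹ (G.map (Int.castRingHom ℚ)) = 0 := by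
      rw [eval₂_map_int]
      exact h4
    refine ⟨AdjoinRoot.lift (algebraMap ℚ R) t⁻¹ h5, ?_⟩
    rw [map_inv₀]
    have h6 : (AdjoinRoot.lift (algebraMap ℚ R) t⁻¹ h5) π = t⁻¹ := AdjoinRoot.lift_root h5
    rw [h6, inv_inv]
  · intro R _ φ ψ h
    rw [map_inv₀, map_inv₀, inv_inj] at h
    haveI : Algebra ℚ K := inferInstance
    apply RingHom.ext
    intro x
    obtain ⟨p, rfl⟩ := AdjoinRoot.mk_surjective x
    induction p using Polynomial.induction_on' with
    | add p q hp hq => rw [map_add, map_add, map_add, hp, hq]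
    | monomial n c =>
      rw [← C_mul_X_pow_eq_monomial, map_mul, map_pow, AdjoinRoot.mk_X, AdjoinRoot.mk_C, map_mul,
        map_pow, map_mul, map_pow]
      have h7 : φ.comp (AdjoinRoot.of (G.map (Int.castRingHom ℚ))) =
          ψ.comp (AdjoinRoot.of (G.map (Int.castRingHom ℚ))) := Subsingleton.elim _ _
      have h8 := RingHom.congr_fun h7 c
      rw [RingHom.comp_apply, RingHom.comp_apply] at h8
      rw [h8]
      congr 2

end Pool.Agent.Lib.MP_176ace_nt
end

section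

set_option autoImplicit false
set_option linter.style.haveILetI false

namespace Pool.Agent.Lib.MP_176ace_nt

open NumberField IsDedekindDomain FractionalIdeal nonZeroDivisors

variable {K : Type*} [Field K] [NumberField K]

/-- The subgroup of `ZMod ℓ`-exponent vectors whose product is a unit times an `ℓ`-th power. -/
def unitVectors {T : Type*} [Fintype T] (x : T → Kˣ) (ℓ : ℕ) : AddSubgroup (T → ZMod ℓ) where
  carrier := {n | ∃ (n' : T → ℤ) (e : (𝓞 K)ˣ) (z : Kˣ), (∀ k, (n' k : ZMod ℓ) = n k) ∧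
    ∏ k, x k ^ n' k = Units.map (algebraMap (𝓞 K) K) e * z ^ ℓ}
  zero_mem' := ⟨0, 1, 1, by simp, by simp⟩
  add_mem' := by
    rintro a b ⟨n, e, z, h1, h2⟩ ⟨n', e', z', h1', h2'⟩
    refine ⟨n + n', e * e', z * z', fun k => by simp [h1, h1'], ?_⟩
    simp only [Pi.add_apply, zpow_add, Finset.prod_mul_distrib, h2, h2', map_mul, mul_pow]
    exact mul_mul_mul_comm _ _ _ _
  neg_mem' := by
    rintro a ⟨n, e, z, h1, h2⟩
    refine ⟨-n, e⁻¹, z⁻¹, fun k => by simp [h1], ?_⟩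
    simp only [Pi.neg_apply, zpow_neg, Finset.prod_inv_distrib, h2, map_inv, mul_inv, inv_pow]

theorem card_unitVectors_le {T : Type*} [Fintype T] (x : T → Kˣ) {ℓ : ℕ} (hℓ : ℓ.Prime)
    (hind : ∀ (n : T → ℤ) (ζ : (𝓞 K)ˣ) (z : Kˣ), ζ ∈ Units.torsion K →
      ∏ k, x k ^ n k = Units.map (algebraMap (𝓞 K) K) ζ * z ^ ℓ → ∀ k, (ℓ : ℤ) ∣ n k) :
    Nat.card (unitVectors x ℓ) ≤ ℓ ^ Units.rank K := by
  classical
  haveI : NeZero ℓ := ⟨hℓ.ne_zero⟩
  -- the exponent vector of a unit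
  have hu : ∀ e : (𝓞 K)ˣ, ∃ (ζ : (𝓞 K)ˣ) (a : Fin (Units.rank K) → ℤ), ζ ∈ Units.torsion K ∧
      e = ζ * ∏ i, Units.fundSystem K i ^ a i := by
    intro e
    obtain ⟨ζe, h, -⟩ := Units.exist_unique_eq_mul_prod K e
    exact ⟨ζe.1, ζe.2, ζe.1.2, h⟩
  choose tor vec htor hvec using hu
  have hmem : ∀ n : unitVectors x ℓ, ∃ (n' : T → ℤ) (e : (𝓞 K)ˣ) (z : Kˣ),
      (∀ k, (n' k : ZMod ℓ) = n.1 k) ∧
      ∏ k, x k ^ n' k = Units.map (algebraMap (𝓞 K) K) e * z ^ ℓ := fun n => n.2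
  choose N e z h1 h2 using hmem
  let Φ : unitVectors x ℓ → (Fin (Units.rank K) → ZMod ℓ) := fun n i => (vec (e n) i : ZMod ℓ)
  have hΦ : Function.Injective Φ := by
    intro n n' hnn
    have h3 : ∀ i, ∃ c : ℤ, vec (e n) i - vec (e n') i = ℓ * c := by
      intro i
      have h4 : ((vec (e n) i - vec (e n') i : ℤ) : ZMod ℓ) = 0 := by
        have := congrFun hnn i
        simp only [Φ] at this
        rw [Int.cast_sub, this, sub_self]
      rw [ZMod.intCast_zmod_eq_zero_iff_dvd] at h4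
      exact h4
    choose c hc using h3
    have h5 : e n / e n' = (tor (e n) / tor (e n')) * (∏ i, Units.fundSystem K i ^ c i) ^ ℓ := by
      conv_lhs => rw [hvec (e n), hvec (e n')]
      rw [mul_div_mul_comm, ← Finset.prod_div_distrib, ← Finset.prod_pow]
      congr 1
      refine Finset.prod_congr rfl fun i _ => ?_
      rw [div_eq_mul_inv, ← zpow_sub, hc, ← zpow_natCast, ← zpow_mul, mul_comm]
    have h6 : ∏ k, x k ^ (N n k - N n' k) = Units.map (algebraMap (𝓞 K) K) (tor (e n) / tor (e n')) *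
        (Units.map (algebraMap (𝓞 K) K) (∏ i, Units.fundSystem K i ^ c i) * (z n / z n')) ^ ℓ := by
      simp only [zpow_sub, Finset.prod_mul_distrib, Finset.prod_inv_distrib]
      rw [h2, h2, mul_pow, ← map_pow, ← mul_assoc, ← map_mul, ← h5, div_pow, map_div]
      rw [← div_eq_mul_inv, mul_div_mul_comm]
    have h7 := hind _ _ _ (div_mem (htor _) (htor _)) h6
    apply Subtype.ext
    funext k
    rw [← h1 n k, ← h1 n' k]
    have := h7 k
    rw [← ZMod.intCast_zmod_eq_zero_iff_dvd, Int.cast_sub, sub_eq_zero] at this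
    exact this
  calc Nat.card (unitVectors x ℓ) ≤ Nat.card (Fin (Units.rank K) → ZMod ℓ) :=
        Nat.card_le_card_of_injective Φ hΦ
    _ = ℓ ^ Units.rank K := by
        rw [Nat.card_eq_fintype_card, Fintype.card_fun, ZMod.card, Fintype.card_fin]

/-- vectors independent modulo `unitVectors` -/
theorem exists_indep_vectors {T : Type*} [Fintype T] (x : T → Kˣ) {ℓ : ℕ} (hℓ : ℓ.Prime)
    (hind : ∀ (n : T → ℤ) (ζ : (𝓞 K)ˣ) (z : Kˣ), ζ ∈ Units.torsion K →
      ∏ k, x k ^ n k = Units.map (algebraMap (𝓞 K) K) ζ * z ^ ℓ → ∀ k, (ℓ : ℤ) ∣ n k)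
    {r : ℕ} (hr : r + Units.rank K ≤ Fintype.card T) :
    ∃ v : Fin r → T → ZMod ℓ, ∀ c : Fin r → ZMod ℓ, (∑ i, c i • v i) ∈ unitVectors x ℓ →
      c = 0 := by
  classical
  haveI : Fact ℓ.Prime := ⟨hℓ⟩
  let W : Submodule (ZMod ℓ) (T → ZMod ℓ) := AddSubgroup.toZModSubmodule ℓ (unitVectors x ℓ)
  have hW : ∀ y, y ∈ W ↔ y ∈ unitVectors x ℓ := fun y => AddSubgroup.mem_toZModSubmodule ℓ
  have h1 : Nat.card W = Nat.card (unitVectors x ℓ) := Nat.card_congr (Equiv.subtypeEquivRight hW)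
  have h2 : Nat.card W = ℓ ^ Module.finrank (ZMod ℓ) W := by
    haveI : Fintype W := Fintype.ofFinite _
    rw [Nat.card_eq_fintype_card, Module.card_eq_pow_finrank (K := ZMod ℓ) (V := W), ZMod.card]
  have h3 := card_unitVectors_le x hℓ hind
  rw [← h1, h2] at h3
  have h4 : Module.finrank (ZMod ℓ) W ≤ Units.rank K := (Nat.pow_le_pow_iff_right hℓ.one_lt).mp h3
  have h5 := Submodule.finrank_quotient_add_finrank W
  rw [Module.finrank_fintype_fun_eq_card] at h5
  obtain ⟨w, hw⟩ := exists_linearIndependent_of_le_finrank (R := ZMod ℓ)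
    (M := (T → ZMod ℓ) ⧸ W) (n := r) (by omega)
  choose v hv using fun i => Submodule.mkQ_surjective W (w i)
  refine ⟨v, fun c hc => ?_⟩
  rw [← hW, ← Submodule.Quotient.mk_eq_zero W, ← Submodule.mkQ_apply, map_sum] at hc
  simp only [map_smul, hv] at hc
  funext i
  exact (Fintype.linearIndependent_iff.mp hw) c hc i

theorem prod_zpow_sum {G ι : Type*} [CommGroup G] (s : Finset ι) (g : G) (a : ι → ℤ) :
    ∏ i ∈ s, g ^ a i = g ^ ∑ i ∈ s, a i := by
  classical
  induction s using Finset.induction_on with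
  | empty => simp
  | insert j s hj ih => rw [Finset.prod_insert hj, Finset.sum_insert hj, ih, zpow_add]

theorem exists_generator_of_mk_eq_one {J : (FractionalIdeal (𝓞 K)⁰ K)ˣ}
    (h : ClassGroup.mk K J = 1) : ∃ u : Kˣ, toPrincipalIdeal (𝓞 K) K u = J := by
  rw [ClassGroup.mk_eq_one_iff] at h
  obtain ⟨u, hu⟩ := h
  have h1 : spanSingleton (𝓞 K)⁰ u = (J : FractionalIdeal (𝓞 K)⁰ K) := by
    apply coeToSubmodule_injective
    change ((spanSingleton (𝓞 K)⁰ u : FractionalIdeal (𝓞 K)⁰ K) : Submodule (𝓞 K) K) = _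
    rw [coe_spanSingleton]
    exact hu.symm
  have hu0 : u ≠ 0 := by
    rintro rfl
    rw [spanSingleton_zero] at h1
    exact J.ne_zero h1.symm
  exact ⟨Units.mk0 u hu0, by rw [toPrincipalIdeal_eq_iff]; exact h1⟩

/-- Main algebraic criterion. -/
theorem classGroup_rank {T : Type*} [Fintype T] {m : ℕ} (hm : 0 < m) (x : T → Kˣ)
    (hval : ∀ k, ∀ v : HeightOneSpectrum (𝓞 K), ∃ z : WithZero (Multiplicative ℤ),
      v.valuation K (x k : K) = z ^ m)
    (hind : ∀ ℓ : ℕ, ℓ.Prime → ℓ ∣ m → ∀ (n : T → ℤ) (ζ : (𝓞 K)ˣ) (z : Kˣ),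
      ζ ∈ Units.torsion K →
      ∏ k, x k ^ n k = Units.map (algebraMap (𝓞 K) K) ζ * z ^ ℓ → ∀ k, (ℓ : ℤ) ∣ n k)
    {r : ℕ} (hr : r + Units.rank K ≤ Fintype.card T) :
    ∃ f : Multiplicative (Fin r → ZMod m) →* ClassGroup (𝓞 K), Function.Injective f := by
  classical
  choose I hI using fun k => exists_root_ideal hm (x k) (hval k)
  -- independent vectors for every prime
  have h1 : ∀ ℓ : ℕ, ∃ v : Fin r → T → ZMod ℓ, ℓ.Prime → ℓ ∣ m →
      ∀ c : Fin r → ZMod ℓ, (∑ i, c i • v i) ∈ unitVectors x ℓ → c = 0 := by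
    intro ℓ
    by_cases h : ℓ.Prime ∧ ℓ ∣ m
    · obtain ⟨v, hv⟩ := exists_indep_vectors x h.1 (hind ℓ h.1 h.2) hr
      exact ⟨v, fun _ _ => hv⟩
    · exact ⟨0, fun h1 h2 => absurd ⟨h1, h2⟩ h⟩
  choose v hv using h1
  -- simultaneous lifts
  have h2 : ∀ (i : Fin r) (k : T), ∃ N : ℤ, ∀ ℓ ∈ m.primeFactors, (N : ZMod ℓ) = v ℓ i k := by
    intro i k
    obtain ⟨N, hN⟩ := crt_int m.primeFactors (fun ℓ => ℓ) (fun ℓ => ((v ℓ i k).cast : ℤ)) (by
      intro a ha b hb hab
      exact (Nat.coprime_primes (Nat.prime_of_mem_primeFactors ha)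
        (Nat.prime_of_mem_primeFactors hb)).mpr hab)
    refine ⟨N, fun ℓ hℓ => ?_⟩
    have h3 := hN ℓ hℓ
    rw [← ZMod.intCast_zmod_eq_zero_iff_dvd, Int.cast_sub, sub_eq_zero] at h3
    rw [h3, ZMod.intCast_zmod_cast]
  choose N hN using h2
  let y : Fin r → ClassGroup (𝓞 K) := fun i => ∏ k, (ClassGroup.mk K (I k)) ^ N i k
  have hprin : ∀ u : Kˣ, ClassGroup.mk K (toPrincipalIdeal (𝓞 K) K u) = 1 := by
    intro u
    rw [ClassGroup.mk_eq_one_iff, coe_toPrincipalIdeal]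
    exact ⟨⟨(u : K), coe_spanSingleton _ _⟩⟩
  refine exists_embedding hm y ?_ ?_
  · intro i
    simp only [y]
    rw [← Finset.prod_pow]
    refine Finset.prod_eq_one fun k _ => ?_
    rw [← zpow_natCast, ← zpow_mul, mul_comm, zpow_mul, zpow_natCast, ← map_pow, hI, hprin, one_zpow]
  · intro ℓ hℓ hℓm c hc
    -- the exponent vector
    set n : T → ℤ := fun k => ∑ i, N i k * c i with hn
    have h3 : ∏ i, y i ^ c i = ClassGroup.mk K (∏ k, I k ^ n k) := by
      simp only [y, hn]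
      rw [map_prod]
      simp only [map_zpow]
      simp only [← Finset.prod_zpow, ← zpow_mul]
      rw [Finset.prod_comm]
      refine Finset.prod_congr rfl fun k _ => ?_
      exact prod_zpow_sum _ _ _
    rw [h3, ← map_pow] at hc
    obtain ⟨u, hu⟩ := exists_generator_of_mk_eq_one hc
    have h4 : toPrincipalIdeal (𝓞 K) K (∏ k, x k ^ n k) = toPrincipalIdeal (𝓞 K) K (u ^ ℓ) := by
      rw [map_pow, hu, ← pow_mul, Nat.div_mul_cancel hℓm, map_prod, ← Finset.prod_pow]
      refine Finset.prod_congr rfl fun k _ => ?_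
      rw [map_zpow, ← hI, ← zpow_natCast, ← zpow_natCast, ← zpow_mul, ← zpow_mul, mul_comm]
    have h5 : ∃ e : (𝓞 K)ˣ, ∏ k, x k ^ n k = Units.map (algebraMap (𝓞 K) K) e * u ^ ℓ := by
      have h8 := congrArg Units.val h4
      rw [coe_toPrincipalIdeal, coe_toPrincipalIdeal, eq_comm, spanSingleton_eq_spanSingleton] at h8
      obtain ⟨e, he⟩ := h8
      refine ⟨e, Units.ext ?_⟩
      rw [← he]
      simp [Units.smul_def, Algebra.smul_def]
    obtain ⟨e, he⟩ := h5
    have h6 : (∑ i, (c i : ZMod ℓ) • v ℓ i) ∈ unitVectors x ℓ := by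
      refine ⟨n, e, u, fun k => ?_, he⟩
      rw [hn]
      simp only [Int.cast_sum, Int.cast_mul, Finset.sum_apply, Pi.smul_apply, smul_eq_mul]
      refine Finset.sum_congr rfl fun i _ => ?_
      rw [hN i k ℓ (Nat.mem_primeFactors.mpr ⟨hℓ, hℓm, hm.ne'⟩), mul_comm]
    have h7 := hv ℓ hℓ hℓm _ h6
    intro i
    rw [← ZMod.intCast_zmod_eq_zero_iff_dvd]
    exact congrFun h7 i

end Pool.Agent.Lib.MP_176ace_nt
end

section

set_option autoImplicit false
set_option linter.style.haveILetI false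

/-!
Choice of the auxiliary primes and of the parameters `u`, `v`.
-/

namespace Pool.Agent.Lib.MP_176ace_nt

open Polynomial NumberField

/-- choose pairwise different large numbers with given properties -/
theorem exists_distinct {D : Type*} (S : Finset D) (Good : D → ℕ → Prop)
    (h : ∀ δ ∈ S, ∀ B : ℕ, ∃ q, B < q ∧ Good δ q) (B : ℕ) :
    ∃ Q : D → ℕ, (∀ δ ∈ S, B < Q δ ∧ Good δ (Q δ)) ∧ Set.InjOn Q S := by
  classical
  induction S using Finset.induction_on with
  | empty => exact ⟨fun _ => 0, by simp, by simp⟩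
  | insert δ S hδ ih =>
    obtain ⟨Q, hQ, hinj⟩ := ih (fun δ' hδ' => h δ' (Finset.mem_insert_of_mem hδ'))
    obtain ⟨q, hq1, hq2⟩ := h δ (Finset.mem_insert_self _ _) (B + ∑ δ' ∈ S, Q δ')
    have hne : ∀ δ' ∈ S, Q δ' ≠ q := by
      intro δ' hδ' heq
      have := Finset.single_le_sum (f := Q) (fun _ _ => Nat.zero_le _) hδ'
      omega
    refine ⟨Function.update Q δ q, ?_, ?_⟩
    · intro δ' hδ'
      rcases Finset.mem_insert.mp hδ' with rfl | h3
      · rw [Function.update_self]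
        exact ⟨by omega, hq2⟩
      · rw [Function.update_of_ne (by rintro rfl; exact hδ h3)]
        exact hQ δ' h3
    · intro x hx y hy hxy
      rcases Finset.mem_insert.mp (Finset.mem_coe.mp hx) with rfl | hx'
      · rcases Finset.mem_insert.mp (Finset.mem_coe.mp hy) with rfl | hy'
        · rfl
        · rw [Function.update_self, Function.update_of_ne (by rintro rfl; exact hδ hy')] at hxy
          exact absurd hxy.symm (hne y hy')
      · rcases Finset.mem_insert.mp (Finset.mem_coe.mp hy) with rfl | hy'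
        · rw [Function.update_self, Function.update_of_ne (by rintro rfl; exact hδ hx')] at hxy
          exact absurd hxy (hne x hx')
        · rw [Function.update_of_ne (by rintro rfl; exact hδ hx'),
            Function.update_of_ne (by rintro rfl; exact hδ hy')] at hxy
          exact hinj hx' hy' hxy

/-- CRT with a lower bound -/
theorem crt_int_gt {ι : Type*} (s : Finset ι) (M : ι → ℕ) (t : ι → ℤ)
    (hM : Set.Pairwise (s : Set ι) (Function.onFun Nat.Coprime M)) (hM0 : ∀ i ∈ s, M i ≠ 0) (B : ℤ) :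
    ∃ x : ℤ, B < x ∧ ∀ i ∈ s, (M i : ℤ) ∣ x - t i := by
  obtain ⟨x, hx⟩ := crt_int s M t hM
  have hpos : (1 : ℤ) ≤ ((∏ i ∈ s, M i : ℕ) : ℤ) := by
    have : 1 ≤ ∏ i ∈ s, M i := Nat.one_le_iff_ne_zero.mpr (Finset.prod_ne_zero_iff.mpr hM0)
    exact_mod_cast this
  refine ⟨x + (|x| + |B| + 1) * ((∏ i ∈ s, M i : ℕ) : ℤ), ?_, ?_⟩
  · have h1 := neg_abs_le x
    have h2 := le_abs_self B
    have h3 : 0 ≤ |x| := abs_nonneg x
    have h4 : 0 ≤ |B| := abs_nonneg B
    nlinarith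
  · intro i hi
    have h1 : (M i : ℤ) ∣ ((∏ i ∈ s, M i : ℕ) : ℤ) := by
      exact_mod_cast Finset.dvd_prod_of_mem M hi
    have h2 : x + (|x| + |B| + 1) * ((∏ i ∈ s, M i : ℕ) : ℤ) - t i =
        (x - t i) + (|x| + |B| + 1) * ((∏ i ∈ s, M i : ℕ) : ℤ) := by ring
    rw [h2]
    exact dvd_add (hx i hi) (h1.mul_left _)

theorem not_dvd_of_lt {q : ℕ} {n : ℤ} (hn : n ≠ 0) (hq : n.natAbs < q) : ¬ (q : ℤ) ∣ n := by
  intro h
  have h1 := Int.le_of_dvd (by positivity : (0 : ℤ) < |n|) ((dvd_abs _ _).mpr h)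
  rw [← Int.natCast_natAbs] at h1
  omega

/-- the auxiliary point `x0` -/
theorem exists_x0 {I : Type*} [Fintype I] (c : I → ℤ) (hc : Function.Injective c) (A : ℤ[X]) (C0 : ℤ)
    {m : ℕ} (hm : 0 < m)
    (hρ : ∀ B : ℕ, ∃ q : ℕ, q.Prime ∧ B < q ∧ 4 * m ∣ q - 1 ∧ ∃ x : ℤ, (q : ℤ) ∣ A.eval x - C0 ∧
      ¬ (q : ℤ) ∣ (derivative A).eval x ∧ ∀ k, ¬ (q : ℤ) ∣ x - c k) :
    ∃ (x0 : ℤ) (p : ℕ) (P : I → ℕ), p.Prime ∧ 4 * m ∣ p - 1 ∧
      (∀ k, (P k).Prime ∧ 4 * m ∣ P k - 1) ∧ (p : ℤ) ∣ A.eval x0 - C0 ∧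
      ¬ (p : ℤ) ^ 2 ∣ A.eval x0 - C0 ∧ ¬ (p : ℤ) ∣ (derivative A).eval x0 ∧
      (∀ k, ¬ (p : ℤ) ∣ x0 - c k) ∧ (∀ k, padicValInt (P k) (x0 - c k) = 1) ∧
      (∀ k k', k ≠ k' → ¬ (P k : ℤ) ∣ x0 - c k') := by
  classical
  -- primes for the points
  set B0 : ℕ := ∑ k, ∑ k', (c k - c k').natAbs with hB0
  have hB0' : ∀ k k', (c k - c k').natAbs ≤ B0 := by
    intro k k'
    calc (c k - c k').natAbs ≤ ∑ k', (c k - c k').natAbs :=
          Finset.single_le_sum (f := fun k' => (c k - c k').natAbs) (fun _ _ => Nat.zero_le _)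
            (Finset.mem_univ k')
      _ ≤ B0 := Finset.single_le_sum (f := fun k => ∑ k', (c k - c k').natAbs)
            (fun _ _ => Nat.zero_le _) (Finset.mem_univ k)
  obtain ⟨P, hP, hPinj⟩ := exists_distinct (Finset.univ : Finset I)
    (fun _ q => q.Prime ∧ 4 * m ∣ q - 1) (by
      intro _ _ B
      obtain ⟨q, hq, hBq, hmod⟩ := Nat.exists_prime_gt_modEq_one (k := 4 * m) B (by omega)
      exact ⟨q, hBq, hq, (Nat.modEq_iff_dvd' hq.one_lt.le).mp hmod.symm⟩) B0
  obtain ⟨p, hp, hpB, hpm, x1, hx1, hx2, hx3⟩ := hρ (B0 + ∑ k, P k)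
  have hpP : ∀ k, p ≠ P k := by
    intro k h
    have := Finset.single_le_sum (f := P) (fun _ _ => Nat.zero_le _) (Finset.mem_univ k)
    omega
  -- the second residue class
  obtain ⟨x2, hx2a, hx2b⟩ : ∃ x2 : ℤ, (p : ℤ) ∣ x2 - x1 ∧ ¬ (p : ℤ) ^ 2 ∣ A.eval x2 - C0 := by
    by_cases h : (p : ℤ) ^ 2 ∣ A.eval x1 - C0
    · refine ⟨x1 + p, by simp, ?_⟩
      obtain ⟨k, hk⟩ := Polynomial.binomExpansion A x1 (p : ℤ)
      rw [hk]
      intro h4
      have h5 : (p : ℤ) ^ 2 ∣ (derivative A).eval x1 * p := by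
        have h6 : (derivative A).eval x1 * p = (A.eval x1 + (derivative A).eval x1 * p + k * p ^ 2 - C0) -
          (A.eval x1 - C0) - k * p ^ 2 := by ring
        rw [h6]
        exact dvd_sub (dvd_sub h4 h) (dvd_mul_left _ _)
      rw [pow_two] at h5
      have hp0 : (p : ℤ) ≠ 0 := by exact_mod_cast hp.ne_zero
      exact hx2 (Int.dvd_of_mul_dvd_mul_right hp0 h5)
    · exact ⟨x1, by simp, h⟩
  -- CRT
  obtain ⟨x0, hx0⟩ := crt_int (Finset.univ : Finset (Option I))
    (fun o => (o.elim p P) ^ 2) (fun o => o.elim x2 (fun k => c k + P k)) (by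
      intro x _ y _ hxy
      show Nat.Coprime _ _
      refine Nat.Coprime.pow _ _ ?_
      rcases x with _ | x <;> rcases y with _ | y
      · exact absurd rfl hxy
      · exact (Nat.coprime_primes hp (hP y (Finset.mem_univ _)).2.1).mpr (hpP y)
      · exact (Nat.coprime_primes (hP x (Finset.mem_univ _)).2.1 hp).mpr (hpP x).symm
      · refine (Nat.coprime_primes (hP x (Finset.mem_univ _)).2.1
          (hP y (Finset.mem_univ _)).2.1).mpr fun h => hxy ?_
        rw [hPinj (Finset.mem_coe.mpr (Finset.mem_univ _)) (Finset.mem_coe.mpr (Finset.mem_univ _)) h])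
  have hxp : (p : ℤ) ^ 2 ∣ x0 - x2 := by
    have := hx0 none (Finset.mem_univ _)
    simpa using this
  have hxk : ∀ k, (P k : ℤ) ^ 2 ∣ x0 - (c k + P k) := by
    intro k
    have := hx0 (some k) (Finset.mem_univ _)
    simpa using this
  have hxp1 : (p : ℤ) ∣ x0 - x1 := by
    have h1 : x0 - x1 = (x0 - x2) + (x2 - x1) := by ring
    rw [h1]
    exact dvd_add ((dvd_pow_self _ two_ne_zero).trans hxp) hx2a
  have hAp : ∀ f : ℤ[X], (p : ℤ) ∣ f.eval x0 - f.eval x1 := fun f =>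
    hxp1.trans (sub_dvd_eval_sub x0 x1 f)
  have hAp2 : (p : ℤ) ^ 2 ∣ A.eval x0 - A.eval x2 := hxp.trans (sub_dvd_eval_sub x0 x2 A)
  refine ⟨x0, p, P, hp, hpm, fun k => (hP k (Finset.mem_univ _)).2, ?_, ?_, ?_, ?_, ?_, ?_⟩
  · have h1 : A.eval x0 - C0 = (A.eval x0 - A.eval x1) + (A.eval x1 - C0) := by ring
    rw [h1]
    exact dvd_add (hAp A) hx1
  · intro h
    apply hx2b
    have h1 : A.eval x2 - C0 = (A.eval x0 - C0) - (A.eval x0 - A.eval x2) := by ring
    rw [h1]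
    exact dvd_sub h hAp2
  · intro h
    apply hx2
    have h1 : (derivative A).eval x1 = (derivative A).eval x0 -
      ((derivative A).eval x0 - (derivative A).eval x1) := by ring
    rw [h1]
    exact dvd_sub h (hAp _)
  · intro k h
    apply hx3 k
    have h1 : x1 - c k = (x0 - c k) - (x0 - x1) := by ring
    rw [h1]
    exact dvd_sub h hxp1
  · intro k
    have hPk := (hP k (Finset.mem_univ _)).2.1
    haveI : Fact (P k).Prime := ⟨hPk⟩
    have h1 : (P k : ℤ) ∣ x0 - c k := by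
      have h2 : x0 - c k = (x0 - (c k + P k)) + P k := by ring
      rw [h2]
      exact dvd_add ((dvd_pow_self _ two_ne_zero).trans (hxk k)) dvd_rfl
    have h3 : ¬ (P k : ℤ) ^ 2 ∣ x0 - c k := by
      intro h
      have h4 : (P k : ℤ) = (x0 - c k) - (x0 - (c k + P k)) := by ring
      have h5 : (P k : ℤ) ^ 2 ∣ (P k : ℤ) := by
        conv_rhs => rw [h4]
        exact dvd_sub h (hxk k)
      rw [pow_two] at h5
      have hp0 : (P k : ℤ) ≠ 0 := by exact_mod_cast hPk.ne_zero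
      have h6 : (P k : ℤ) * (P k : ℤ) ∣ (P k : ℤ) * 1 := by simpa using h5
      have h7 := Int.dvd_of_mul_dvd_mul_left hp0 h6
      exact (Nat.prime_iff_prime_int.mp hPk).not_isUnit (isUnit_of_dvd_one h7)
    have h0 : x0 - c k ≠ 0 := by
      intro h
      rw [h] at h3
      exact h3 (dvd_zero _)
    have h8 : 1 ≤ padicValInt (P k) (x0 - c k) := by
      have := (padicValInt_dvd_iff 1 (x0 - c k)).mp (by rw [pow_one]; exact h1)
      exact this.resolve_left h0
    have h9 : ¬ 2 ≤ padicValInt (P k) (x0 - c k) := by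
      intro h
      exact h3 ((padicValInt_dvd_iff 2 _).mpr (Or.inr h))
    omega
  · intro k k' hkk' h
    have hPk := (hP k (Finset.mem_univ _)).2.1
    have h1 : (P k : ℤ) ∣ c k - c k' := by
      have h2 : c k - c k' = (x0 - c k') - (x0 - (c k + P k)) - P k := by ring
      rw [h2]
      exact dvd_sub (dvd_sub h ((dvd_pow_self _ two_ne_zero).trans (hxk k))) dvd_rfl
    refine not_dvd_of_lt (sub_ne_zero.mpr fun h => hkk' (hc h)) ?_ h1
    exact (hB0' k k').trans_lt (hP k (Finset.mem_univ _)).1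

theorem padicValInt_prod_pow {I : Type*} (s : Finset I) (f : I → ℤ) (hf : ∀ k ∈ s, f k ≠ 0)
    (e : I → ℕ) (p : ℕ) [Fact p.Prime] :
    padicValInt p (∏ k ∈ s, f k ^ e k) = ∑ k ∈ s, e k * padicValInt p (f k) := by
  classical
  induction s using Finset.induction_on with
  | empty => simp
  | insert j s hj ih =>
    have hf' : ∀ k ∈ s, f k ≠ 0 := fun k hk => hf k (Finset.mem_insert_of_mem hk)
    rw [Finset.prod_insert hj, Finset.sum_insert hj, ← ih hf', padicValInt.mul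
      (pow_ne_zero _ (hf j (Finset.mem_insert_self _ _)))
      (Finset.prod_ne_zero_iff.mpr fun k hk => pow_ne_zero _ (hf' k hk))]
    congr 1
    have hx := hf j (Finset.mem_insert_self _ _)
    generalize f j = x at hx
    unfold padicValInt
    rw [Int.natAbs_pow, padicValNat.pow]

theorem exists_det {I : Type*} [Fintype I] (c : I → ℤ) {Ax C0 x0 : ℤ} {m : ℕ} (hm : 0 < m)
    {p : ℕ} {P : I → ℕ} (hp : p.Prime) (hpm : 4 * m ∣ p - 1)
    (hP : ∀ k, (P k).Prime ∧ 4 * m ∣ P k - 1) (h1 : (p : ℤ) ∣ Ax - C0)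
    (h2 : ¬ (p : ℤ) ^ 2 ∣ Ax - C0) (hpA : ¬ (p : ℤ) ∣ Ax)
    (hpc : ∀ k, ¬ (p : ℤ) ∣ x0 - c k) (hPk : ∀ k, padicValInt (P k) (x0 - c k) = 1)
    (hPk' : ∀ k k', k ≠ k' → ¬ (P k : ℤ) ∣ x0 - c k')
    {ℓ : ℕ} (hℓ : ℓ.Prime) (hℓm : ℓ ∣ m) {e : I → ℕ} (he : ∀ k, e k < ℓ) (he0 : e ≠ 0) (B : ℕ) :
    ∃ q : ℕ, B < q ∧ q.Prime ∧ 4 * m ∣ q - 1 ∧ (∃ y : ℤ, (q : ℤ) ∣ (Ax - C0) - y ^ m * Ax) ∧
      ∀ t : ZMod q, t ^ ℓ ≠ ∏ k, ((x0 - c k : ℤ) : ZMod q) ^ e k := by
  classical
  have hpz : Prime (p : ℤ) := Nat.prime_iff_prime_int.mp hp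
  have hx0 : ∀ k, x0 - c k ≠ 0 := by
    intro k h
    apply hpc k
    rw [h]; exact dvd_zero _
  have hAx0 : Ax ≠ 0 := by rintro rfl; exact hpA (dvd_zero _)
  set γ : ℤ := ∏ k, (x0 - c k) ^ e k with hγ
  have hγ0 : γ ≠ 0 := Finset.prod_ne_zero_iff.mpr fun k _ => pow_ne_zero _ (hx0 k)
  set β : ℤ := Ax ^ (m - 1) * (Ax - C0) with hβ
  obtain ⟨k, hk⟩ : ∃ k, e k ≠ 0 := by
    by_contra hcon
    push Not at hcon
    exact he0 (funext hcon)
  haveI : Fact (P k).Prime := ⟨(hP k).1⟩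
  have hval : padicValInt (P k) γ = e k := by
    rw [hγ, padicValInt_prod_pow Finset.univ (fun k => x0 - c k) (fun k _ => hx0 k),
      Finset.sum_eq_single_of_mem k (Finset.mem_univ k), hPk, mul_one]
    intro k' _ hne
    have : padicValInt (P k) (x0 - c k') = 0 := by
      rw [padicValInt.eq_zero_iff]
      exact Or.inr (Or.inr (hPk' k k' hne.symm))
    rw [this, mul_zero]
  obtain ⟨q, hq, hBq, hqm, ⟨y, hy⟩, hnp⟩ := exists_detecting_prime hm hℓ hℓm (β := β) hγ0 hp
    (hP k).1 hpm (hP k).2 (h1.mul_left _)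
    (by
      intro h
      apply h2
      have h4 : IsCoprime ((p : ℤ) ^ 2) (Ax ^ (m - 1)) := by
        refine IsCoprime.pow ?_
        rw [Prime.coprime_iff_not_dvd hpz]
        exact hpA
      exact h4.dvd_of_dvd_mul_left h)
    (by
      rw [hγ]
      intro h
      obtain ⟨k', -, h5⟩ := (Prime.dvd_finsetProd_iff hpz _).mp h
      exact hpc k' (hpz.dvd_of_dvd_pow h5))
    (by
      rw [hval]
      intro h
      have := Nat.le_of_dvd (Nat.pos_of_ne_zero hk) h
      have := he k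
      omega) (B + Ax.natAbs)
  haveI : Fact q.Prime := ⟨hq⟩
  refine ⟨q, by omega, hq, hqm, ?_, ?_⟩
  · have hAq : ((Ax : ℤ) : ZMod q) ≠ 0 := by
      rw [Ne, ZMod.intCast_zmod_eq_zero_iff_dvd]
      exact not_dvd_of_lt hAx0 (by omega)
    obtain ⟨y1, hy1⟩ := ZMod.intCast_surjective (y * ((Ax : ℤ) : ZMod q)⁻¹)
    refine ⟨y1, ?_⟩
    rw [← ZMod.intCast_zmod_eq_zero_iff_dvd]
    have h6 : ((y1 : ℤ) : ZMod q) ^ m * (Ax : ZMod q) = ((Ax - C0 : ℤ) : ZMod q) := by
      rw [hy1, mul_pow, hy, hβ]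
      obtain ⟨m', rfl⟩ : ∃ m', m = m' + 1 := ⟨m - 1, by omega⟩
      simp only [Nat.add_sub_cancel, Int.cast_mul, Int.cast_pow]
      have h7 : ((Ax : ZMod q) ^ m' * ((Ax - C0 : ℤ) : ZMod q)) * ((Ax : ZMod q)⁻¹) ^ (m' + 1) *
          (Ax : ZMod q) = ((Ax - C0 : ℤ) : ZMod q) * ((Ax : ZMod q) * (Ax : ZMod q)⁻¹) ^ (m' + 1) := by
        ring
      rw [h7, mul_inv_cancel₀ hAq, one_pow, mul_one]
    rw [Int.cast_sub, Int.cast_mul, Int.cast_pow, h6, sub_self]
  · intro t ht
    apply hnp t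
    rw [ht, hγ]
    push_cast
    rfl

theorem exists_uv {D : Type*} (S : Finset D) (Q : D → ℕ) (y : D → ℤ)
    (hQ : ∀ δ ∈ S, (Q δ).Prime) (hinj : Set.InjOn Q S) {m : ℕ} (hm : 0 < m) {C0 Nbad : ℤ}
    (hC0 : 0 < C0) (hN : Nbad ≠ 0) (W : ℕ) {q0 q1 : ℕ} (hq0 : q0.Prime) (hq1 : q1.Prime)
    (hq0N : (C0 * Nbad).natAbs < q0) (hq0m : m < q0) (hq01 : q0 < q1) (hQq : ∀ δ ∈ S, q1 < Q δ) :
    ∃ u v s : ℤ, 0 < u ∧ 0 < s ∧ s * C0 = v ^ m - u ^ m ∧ IsCoprime u v ∧ IsCoprime s u ∧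
      Nbad ∣ s ∧ IsCoprime u Nbad ∧ (q0 : ℤ) ∣ s ∧ ¬ (q0 : ℤ) ^ 2 ∣ s ∧ ¬ (q0 : ℤ) ∣ u ∧
      (q1 : ℤ) ∣ u ∧ ¬ (q1 : ℤ) ∣ s ∧ (∀ δ ∈ S, (Q δ : ℤ) ∣ v - y δ * u) ∧ (W : ℤ) * s < u ^ m := by
  classical
  set N1 := (C0 * Nbad).natAbs with hN1
  have hN1pos : 0 < N1 := Int.natAbs_pos.mpr (mul_ne_zero hC0.ne' hN)
  have hN1c : ∀ q : ℕ, q.Prime → N1 < q → Nat.Coprime N1 q := by
    intro q hq hlt
    rw [Nat.coprime_comm, Nat.Prime.coprime_iff_not_dvd hq]
    intro h
    exact absurd (Nat.le_of_dvd hN1pos h) (by omega)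
  -- choice of `h`
  obtain ⟨h, hh0, hh⟩ := crt_int_gt ((Finset.univ : Finset (Fin 3)).disjSum S)
    (Sum.elim ![N1, q0 ^ 2, q1] Q) (Sum.elim ![0, (q0 : ℤ), 1] (fun δ => y δ - 1)) (by
      have h01 : Nat.Coprime N1 (q0 ^ 2) := (hN1c q0 hq0 hq0N).pow_right 2
      have h02 : Nat.Coprime N1 q1 := hN1c q1 hq1 (by omega)
      have h12 : Nat.Coprime (q0 ^ 2) q1 :=
        ((Nat.coprime_primes hq0 hq1).mpr hq01.ne).pow_left 2
      have h0Q : ∀ δ ∈ S, Nat.Coprime N1 (Q δ) := fun δ hδ =>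
        hN1c _ (hQ δ hδ) (by have := hQq δ hδ; omega)
      have h1Q : ∀ δ ∈ S, Nat.Coprime (q0 ^ 2) (Q δ) := fun δ hδ =>
        ((Nat.coprime_primes hq0 (hQ δ hδ)).mpr (by have := hQq δ hδ; omega)).pow_left 2
      have h2Q : ∀ δ ∈ S, Nat.Coprime q1 (Q δ) := fun δ hδ =>
        (Nat.coprime_primes hq1 (hQ δ hδ)).mpr (by have := hQq δ hδ; omega)
      rintro (i | δ) hx (j | δ') hy hne
      · have hij : i ≠ j := fun h => hne (by rw [h])
        show Nat.Coprime _ _
        fin_cases i <;> fin_cases j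
        · exact absurd rfl hij
        · exact h01
        · exact h02
        · exact h01.symm
        · exact absurd rfl hij
        · exact h12
        · exact h02.symm
        · exact h12.symm
        · exact absurd rfl hij
      · have hδ' : δ' ∈ S := by simpa using hy
        show Nat.Coprime _ _
        fin_cases i
        · exact h0Q δ' hδ'
        · exact h1Q δ' hδ'
        · exact h2Q δ' hδ'
      · have hδ : δ ∈ S := by simpa using hx
        show Nat.Coprime _ _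
        fin_cases j
        · exact (h0Q δ hδ).symm
        · exact (h1Q δ hδ).symm
        · exact (h2Q δ hδ).symm
      · have hδ : δ ∈ S := by simpa using hx
        have hδ' : δ' ∈ S := by simpa using hy
        show Nat.Coprime _ _
        exact (Nat.coprime_primes (hQ δ hδ) (hQ δ' hδ')).mpr fun h =>
          hne (by rw [hinj (Finset.mem_coe.mpr hδ) (Finset.mem_coe.mpr hδ') h]))
    (by
      rintro (i | δ) hx
      · fin_cases i
        · exact hN1pos.ne'
        · exact pow_ne_zero _ hq0.ne_zero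
        · exact hq1.ne_zero
      · have hδ : δ ∈ S := by simpa using hx
        exact (hQ δ hδ).ne_zero) 0
  have hhN : C0 * Nbad ∣ h := by
    have h1 := hh (Sum.inl 0) (by simp)
    simp only [Sum.elim_inl, Matrix.cons_val_zero, sub_zero] at h1
    rw [hN1] at h1
    exact Int.natAbs_dvd.mp h1
  have hhq0 : (q0 : ℤ) ^ 2 ∣ h - q0 := by
    have h1 := hh (Sum.inl 1) (by simp)
    simpa using h1
  have hhq1 : (q1 : ℤ) ∣ h - 1 := by
    have h1 := hh (Sum.inl 2) (by simp)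
    simpa using h1
  have hhQ : ∀ δ ∈ S, (Q δ : ℤ) ∣ h - (y δ - 1) := by
    intro δ hδ
    have h1 := hh (Sum.inr δ) (by simp [hδ])
    simpa using h1
  have hq0h : (q0 : ℤ) ∣ h := by
    have h1 : h = (h - q0) + q0 := by ring
    rw [h1]
    exact dvd_add ((dvd_pow_self _ two_ne_zero).trans hhq0) dvd_rfl
  have hq1z : Prime (q1 : ℤ) := Nat.prime_iff_prime_int.mp hq1
  have hq0z : Prime (q0 : ℤ) := Nat.prime_iff_prime_int.mp hq0
  have hq1h : ¬ (q1 : ℤ) ∣ h := by
    intro h1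
    have h2 : (q1 : ℤ) ∣ 1 := by
      have h3 : (1 : ℤ) = h - (h - 1) := by ring
      rw [h3]; exact dvd_sub h1 hhq1
    exact hq1z.not_isUnit (isUnit_of_dvd_one h2)
  -- choice of `u`
  set H : ℕ := h.toNat * ∏ δ ∈ S, Q δ with hH
  have hhn : ((h.toNat : ℕ) : ℤ) = h := Int.toNat_of_nonneg hh0.le
  have hHq1 : Nat.Coprime H q1 := by
    rw [hH]
    refine Nat.Coprime.mul_left ?_ (Nat.Coprime.prod_left fun δ hδ => ?_)
    · rw [Nat.coprime_comm, Nat.Prime.coprime_iff_not_dvd hq1]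
      intro h1
      apply hq1h
      rw [← hhn]
      exact_mod_cast h1
    · exact (Nat.coprime_primes (hQ δ hδ) hq1).mpr (by have := hQq δ hδ; omega)
  obtain ⟨u, hu0, hu⟩ := crt_int_gt (Finset.univ : Finset (Fin 2)) ![H, q1] ![1, 0] (by
      intro i _ j _ hij
      show Nat.Coprime _ _
      fin_cases i <;> fin_cases j
      · exact absurd rfl hij
      · exact hHq1
      · exact hHq1.symm
      · exact absurd rfl hij) (by
      intro i _
      fin_cases i
      · refine mul_ne_zero ?_ (Finset.prod_ne_zero_iff.mpr fun δ hδ => (hQ δ hδ).ne_zero)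
        intro h1
        have : (0 : ℤ) < h.toNat := by rw [hhn]; exact hh0
        omega
      · exact hq1.ne_zero) ((W : ℤ) * h * m * 2 ^ (m - 1) + h)
  have huH : (H : ℤ) ∣ u - 1 := by
    have := hu 0 (Finset.mem_univ _)
    simpa using this
  have huq1 : (q1 : ℤ) ∣ u := by
    have := hu 1 (Finset.mem_univ _)
    simpa using this
  have hhH : h ∣ (H : ℤ) := by
    rw [hH, Nat.cast_mul, hhn]
    exact dvd_mul_right _ _
  have hhu : h ∣ u - 1 := hhH.trans huH
  have hQu : ∀ δ ∈ S, (Q δ : ℤ) ∣ u - 1 := by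
    intro δ hδ
    refine dvd_trans ?_ huH
    rw [hH]
    exact_mod_cast (Finset.dvd_prod_of_mem Q hδ).mul_left _
  have hWpos : 0 ≤ (W : ℤ) * h * m * 2 ^ (m - 1) := by positivity
  have hhu' : h < u := by linarith
  have hupos : 0 < u := by linarith
  have hcop_of : ∀ x : ℤ, x ∣ h → IsCoprime u x := by
    intro x hx
    obtain ⟨k, hk⟩ := hx.trans hhu
    exact ⟨1, -k, by linear_combination hk⟩
  set v := u + h with hv
  have hvpos : 0 < v := by linarith
  have huv : IsCoprime u v := by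
    obtain ⟨a, b, hab⟩ := hcop_of h dvd_rfl
    exact ⟨a - b, b, by rw [hv]; linear_combination hab⟩
  obtain ⟨k, hk⟩ := hhN
  set Sm : ℤ := ∑ i ∈ Finset.range m, v ^ i * u ^ (m - 1 - i) with hSm
  have hgeom : Sm * h = v ^ m - u ^ m := by
    have h1 : h = v - u := by rw [hv]; ring
    conv_lhs => rw [h1]
    exact (Commute.all v u).geom_sum₂_mul m
  have hs : (Nbad * k * Sm) * C0 = v ^ m - u ^ m := by
    rw [← hgeom]
    conv_rhs => rw [hk]
    ring
  have hspos : 0 < Nbad * k * Sm := by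
    have h1 : 0 < v ^ m - u ^ m := by
      have : u ^ m < v ^ m := pow_lt_pow_left₀ (by linarith) hupos.le hm.ne'
      linarith
    rw [← hs] at h1
    exact (mul_pos_iff_of_pos_right hC0).mp h1
  have hsu : IsCoprime (Nbad * k * Sm) u := by
    have h1 : IsCoprime u (v ^ m - u ^ m) := by
      have h2 : IsCoprime u (v ^ m) := huv.pow_right
      obtain ⟨m', rfl⟩ : ∃ m', m = m' + 1 := ⟨m - 1, by omega⟩
      obtain ⟨a, b, hab⟩ := h2
      exact ⟨a + b * u ^ m', b, by linear_combination hab⟩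
    rw [← hs] at h1
    exact (IsCoprime.of_mul_right_left h1).symm
  have hq0Sm : ¬ (q0 : ℤ) ∣ Sm := by
    intro h1
    haveI : Fact q0.Prime := ⟨hq0⟩
    have h2 : (u : ZMod q0) = 1 := by
      have := hq0h.trans hhu
      rw [← ZMod.intCast_zmod_eq_zero_iff_dvd, Int.cast_sub, sub_eq_zero] at this
      simpa using this
    have h3 : (v : ZMod q0) = 1 := by
      rw [hv, Int.cast_add, h2, (ZMod.intCast_zmod_eq_zero_iff_dvd h q0).mpr hq0h, add_zero]
    rw [← ZMod.intCast_zmod_eq_zero_iff_dvd, hSm] at h1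
    push_cast at h1
    simp only [h2, h3, one_pow, mul_one, Finset.sum_const, Finset.card_range, nsmul_eq_mul] at h1
    rw [ZMod.natCast_eq_zero_iff] at h1
    exact absurd (Nat.le_of_dvd hm h1) (by omega)
  refine ⟨u, v, Nbad * k * Sm, hupos, hspos, hs, huv, hsu, ?_, ?_, ?_, ?_, ?_, huq1, ?_, ?_, ?_⟩
  · exact ⟨k * Sm, by ring⟩
  · exact hcop_of _ ⟨C0 * k, by rw [hk]; ring⟩
  · have h1 : (q0 : ℤ) ∣ k := by
      have h2 : (q0 : ℤ) ∣ (C0 * Nbad) * k := hk ▸ hq0h
      refine (hq0z.dvd_or_dvd h2).resolve_left ?_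
      exact not_dvd_of_lt (mul_ne_zero hC0.ne' hN) hq0N
    exact (h1.mul_left _).mul_right _
  · intro h1
    have h2 : (q0 : ℤ) ^ 2 ∣ Sm * h := by
      rw [hgeom, ← hs]
      exact h1.mul_right _
    have h3 : IsCoprime ((q0 : ℤ) ^ 2) Sm := by
      refine IsCoprime.pow_left ?_
      rw [Prime.coprime_iff_not_dvd hq0z]
      exact hq0Sm
    have h4 : (q0 : ℤ) ^ 2 ∣ h := h3.dvd_of_dvd_mul_left h2
    have h5 : (q0 : ℤ) ^ 2 ∣ q0 := by
      have h6 : (q0 : ℤ) = h - (h - q0) := by ring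
      conv_rhs => rw [h6]
      exact dvd_sub h4 hhq0
    rw [pow_two] at h5
    have h6 : (q0 : ℤ) * (q0 : ℤ) ∣ (q0 : ℤ) * 1 := by simpa using h5
    have h7 := Int.dvd_of_mul_dvd_mul_left hq0z.ne_zero h6
    exact hq0z.not_isUnit (isUnit_of_dvd_one h7)
  · intro h1
    have h2 : (q0 : ℤ) ∣ 1 := by
      have h3 : (1 : ℤ) = u - (u - 1) := by ring
      rw [h3]; exact dvd_sub h1 (hq0h.trans hhu)
    exact hq0z.not_isUnit (isUnit_of_dvd_one h2)
  · intro h1
    have h2 : (q1 : ℤ) ∣ v ^ m - u ^ m := by rw [← hs]; exact h1.mul_right _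
    have h3 : (q1 : ℤ) ∣ v ^ m := by
      have h4 : v ^ m = (v ^ m - u ^ m) + u ^ m := by ring
      rw [h4]
      exact dvd_add h2 (dvd_pow huq1 hm.ne')
    have h4 : (q1 : ℤ) ∣ v := hq1z.dvd_of_dvd_pow h3
    apply hq1h
    have h5 : h = v - u := by rw [hv]; ring
    rw [h5]
    exact dvd_sub h4 huq1
  · intro δ hδ
    have h1 : v - y δ * u = (u - 1) + (h - (y δ - 1)) - y δ * (u - 1) := by rw [hv]; ring
    rw [h1]
    exact dvd_sub (dvd_add (hQu δ hδ) (hhQ δ hδ)) ((hQu δ hδ).mul_left _)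
  · have h1 : Sm ≤ m * (2 * u) ^ (m - 1) := by
      rw [hSm]
      calc ∑ i ∈ Finset.range m, v ^ i * u ^ (m - 1 - i)
          ≤ ∑ i ∈ Finset.range m, (2 * u) ^ (m - 1) := by
            refine Finset.sum_le_sum fun i hi => ?_
            have hi' : i < m := Finset.mem_range.mp hi
            calc v ^ i * u ^ (m - 1 - i) ≤ (2 * u) ^ i * (2 * u) ^ (m - 1 - i) := by
                  refine mul_le_mul (pow_le_pow_left₀ hvpos.le (by linarith) _)
                    (pow_le_pow_left₀ hupos.le (by linarith) _) (by positivity) (by positivity)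
              _ = (2 * u) ^ (m - 1) := by rw [← pow_add]; congr 1; omega
        _ = m * (2 * u) ^ (m - 1) := by simp
    have h2 : Nbad * k * Sm ≤ Sm * h := by
      rw [hgeom, ← hs]
      nlinarith
    obtain ⟨m', rfl⟩ : ∃ m', m = m' + 1 := ⟨m - 1, by omega⟩
    simp only [Nat.add_sub_cancel] at h1 hu0 hWpos
    have hW0 : (0 : ℤ) ≤ W := by positivity
    calc (W : ℤ) * (Nbad * k * Sm) ≤ W * (Sm * h) := mul_le_mul_of_nonneg_left h2 hW0
      _ ≤ W * ((((m' + 1 : ℕ) : ℤ) * (2 * u) ^ m') * h) := by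
          refine mul_le_mul_of_nonneg_left ?_ hW0
          exact mul_le_mul_of_nonneg_right h1 hh0.le
      _ = (W * h * ((m' + 1 : ℕ) : ℤ) * 2 ^ m') * u ^ m' := by rw [mul_pow]; ring
      _ < u * u ^ m' := by
          refine mul_lt_mul_of_pos_right ?_ (by positivity)
          linarith
      _ = u ^ (m' + 1) := by ring

end Pool.Agent.Lib.MP_176ace_nt
end

section

set_option autoImplicit false
set_option linter.style.haveILetI false

/-!
The main theorem: many ideal classes of order `m` from a completely split polynomial taking a value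
at many integers.
-/

namespace Pool.Agent.Lib.MP_176ace_nt

open Polynomial NumberField

theorem aeval_intCast_eq {R : Type*} [CommRing R] (f : ℤ[X]) (n : ℤ) :
    aeval ((n : ℤ) : R) f = ((f.eval n : ℤ) : R) := by
  have h4 : ((n : ℤ) : R) = algebraMap ℤ R n := by simp
  rw [h4, aeval_algebraMap_apply_eq_algebraMap_eval]
  simp

theorem splitPoly_monic {ι : Type*} [Fintype ι] (a : ι → ℤ) : (splitPoly a).Monic :=
  monic_prod_of_monic _ _ fun _ _ => monic_X_sub_C _

theorem natDegree_splitPoly {ι : Type*} [Fintype ι] (a : ι → ℤ) :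
    (splitPoly a).natDegree = Fintype.card ι := by
  rw [splitPoly, natDegree_prod_of_monic _ _ fun i _ => monic_X_sub_C _]
  simp only [natDegree_X_sub_C, Finset.sum_const, Finset.card_univ, smul_eq_mul, mul_one]

theorem eval_splitPoly {ι : Type*} [Fintype ι] (a : ι → ℤ) (n : ℤ) :
    (splitPoly a).eval n = ∏ i, (n - a i) := by
  simp [splitPoly, eval_prod]

theorem exists_rho_prime {A : ℤ[X]} (hAm : A.Monic) (hAd : 0 < A.natDegree) (C0 : ℤ) (ρ : ℂ)
    (hρ : aeval ρ A = (C0 : ℂ)) (hρ' : aeval ρ (derivative A) ≠ 0) {I : Type*} [Fintype I]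
    (c : I → ℤ) (hc : ∀ k, ρ ≠ (c k : ℂ)) {m : ℕ} (hm : 0 < m) (B : ℕ) :
    ∃ q : ℕ, q.Prime ∧ B < q ∧ 4 * m ∣ q - 1 ∧ ∃ x : ℤ, (q : ℤ) ∣ A.eval x - C0 ∧
      ¬ (q : ℤ) ∣ (derivative A).eval x ∧ ∀ k, ¬ (q : ℤ) ∣ x - c k := by
  classical
  have hM : 0 < 4 * m := by omega
  set ζ : ℂ := Complex.exp (2 * Real.pi * Complex.I / ((4 * m : ℕ) : ℂ)) with hζdef
  have hζ : IsPrimitiveRoot ζ (4 * m) := Complex.isPrimitiveRoot_exp _ hM.ne'
  have hρint : IsIntegral ℤ ρ := by
    refine ⟨A - C C0, ?_, ?_⟩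
    · refine hAm.sub_of_left (degree_C_le.trans_lt ?_)
      rw [← natDegree_pos_iff_degree_pos]
      exact hAd
    · rw [← aeval_def, map_sub, hρ, aeval_C]
      simp
  have hζint : IsIntegral ℤ ζ := hζ.isIntegral hM
  let L := IntermediateField.adjoin ℚ ({ζ, ρ} : Set ℂ)
  haveI : FiniteDimensional ℚ L := by
    refine IntermediateField.finiteDimensional_adjoin fun x hx => ?_
    rcases hx with rfl | hx
    · exact hζint.tower_top
    · rw [Set.mem_singleton_iff] at hx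
      rw [hx]
      exact hρint.tower_top
  haveI : NumberField L := { to_charZero := inferInstance, to_finiteDimensional := inferInstance }
  have hζL : ζ ∈ L := IntermediateField.subset_adjoin ℚ _ (by simp)
  have hρL : ρ ∈ L := IntermediateField.subset_adjoin ℚ _ (by simp)
  have hinj : Function.Injective (algebraMap L ℂ) := (algebraMap L ℂ).injective
  have hint : ∀ x : L, IsIntegral ℤ (algebraMap L ℂ x) → IsIntegral ℤ x := fun x hx =>
    (isIntegral_algebraMap_iff hinj).mp hx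
  let ζO : 𝓞 L := ⟨⟨ζ, hζL⟩, hint ⟨ζ, hζL⟩ hζint⟩
  let ρO : 𝓞 L := ⟨⟨ρ, hρL⟩, hint ⟨ρ, hρL⟩ hρint⟩
  let ι : 𝓞 L →+* ℂ := (algebraMap L ℂ).comp (algebraMap (𝓞 L) L)
  have hιinj : Function.Injective ι := hinj.comp RingOfIntegers.coe_injective
  have hιζ : ι ζO = ζ := rfl
  have hιρ : ι ρO = ρ := rfl
  have hζO : IsPrimitiveRoot ζO (4 * m) := by
    rw [← hιζ] at hζ
    exact hζ.of_map_of_injective hιinj
  have hιaeval : ∀ f : ℤ[X], ι (aeval ρO f) = aeval ρ f := by
    intro f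
    rw [aeval_def, hom_eval₂, aeval_def, hιρ]
    congr 1
  set x : 𝓞 L := aeval ρO (derivative A) * ∏ k, (ρO - (c k : 𝓞 L)) with hx
  have hx0 : x ≠ 0 := by
    refine mul_ne_zero ?_ (Finset.prod_ne_zero_iff.mpr fun k _ => ?_)
    · intro h
      apply hρ'
      rw [← hιaeval, h, map_zero]
    · intro h
      apply hc k
      have := congrArg ι h
      rw [map_sub, map_intCast, map_zero, hιρ, sub_eq_zero] at this
      exact this
  obtain ⟨q, hq, hBq, hqM, φ, hφ⟩ := exists_prime_zmod hM hζO hx0 B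
  haveI : Fact q.Prime := ⟨hq⟩
  obtain ⟨x1, hx1⟩ := ZMod.intCast_surjective (φ ρO)
  have hφaeval : ∀ f : ℤ[X], ((f.eval x1 : ℤ) : ZMod q) = φ (aeval ρO f) := by
    intro f
    rw [← aeval_intCast_eq, hx1, aeval_def, aeval_def, hom_eval₂]
    congr 1
    exact RingHom.ext_int _ _
  rw [hx, map_mul, map_prod] at hφ
  refine ⟨q, hq, hBq, hqM, x1, ?_, ?_, ?_⟩
  · rw [← ZMod.intCast_zmod_eq_zero_iff_dvd, Int.cast_sub, hφaeval]
    have : aeval ρO A = ((C0 : ℤ) : 𝓞 L) := by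
      apply hιinj
      rw [hιaeval, hρ, map_intCast]
    rw [this, map_intCast, sub_self]
  · rw [← ZMod.intCast_zmod_eq_zero_iff_dvd, hφaeval]
    exact left_ne_zero_of_mul hφ
  · intro k
    rw [← ZMod.intCast_zmod_eq_zero_iff_dvd, Int.cast_sub, hx1]
    have := Finset.prod_ne_zero_iff.mp (right_ne_zero_of_mul hφ) k (Finset.mem_univ k)
    rwa [map_sub, map_intCast] at this

theorem exists_local_embedding {K : Type} [Field K] {ι : Type*} [Fintype ι] {a : ι → ℤ} {s u : ℤ}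
    {m : ℕ} {θ : K}
    (hK : ∀ (R : Type) [Field R] [CharZero R] (t : R),
        (s : R) * aeval t (splitPoly a) = -(u : R) ^ m → ∃ φ : K →+* R, φ θ = t)
    {q : ℕ} [Fact q.Prime] (x0 : ℤ) (h0 : (q : ℤ) ∣ s * (splitPoly a).eval x0 + u ^ m)
    (h1 : ¬ (q : ℤ) ∣ s * (derivative (splitPoly a)).eval x0) :
    ∃ (φ : K →+* ℚ_[q]) (t : ℤ_[q]), φ θ = (t : ℚ_[q]) ∧ PadicInt.toZMod t = (x0 : ZMod q) := by
  obtain ⟨t, ht, ht0⟩ := hensel_int (C s * splitPoly a + C (u ^ m)) x0 (by simpa using h0)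
    (by
      rw [derivative_add, derivative_C_mul, derivative_C, add_zero, eval_mul, eval_C]
      exact h1)
  have h2 : (s : ℚ_[q]) * aeval (t : ℚ_[q]) (splitPoly a) = -(u : ℚ_[q]) ^ m := by
    have h3 : (algebraMap ℤ_[q] ℚ_[q]) (aeval t (C s * splitPoly a + C (u ^ m))) = 0 := by
      rw [ht, map_zero]
    rw [← aeval_algebraMap_apply] at h3
    have h4 : (algebraMap ℤ_[q] ℚ_[q]) t = (t : ℚ_[q]) := rfl
    rw [h4, map_add, map_mul, aeval_C, aeval_C] at h3
    simp only [eq_intCast, Int.cast_pow, algebraMap_int_eq] at h3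
    linear_combination h3
  obtain ⟨φ, hφ⟩ := hK ℚ_[q] (t : ℚ_[q]) h2
  exact ⟨φ, t, hφ, ht0⟩

theorem derivative_splitPoly_eval {ι : Type*} [Fintype ι] [DecidableEq ι] (a : ι → ℤ) (i : ι) :
    (derivative (splitPoly a)).eval (a i) = ∏ i' ∈ Finset.univ.erase i, (a i - a i') := by
  rw [splitPoly, derivative_prod_finset, eval_finsetSum, Finset.sum_eq_single i]
  · simp [eval_prod]
  · intro j _ hj
    rw [derivative_X_sub_C, mul_one, eval_prod]
    refine Finset.prod_eq_zero (Finset.mem_erase.mpr ⟨hj.symm, Finset.mem_univ i⟩) ?_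
    simp
  · intro h
    exact absurd (Finset.mem_univ i) h

/-- The main theorem in terms of a completely split polynomial `A` and integers `b j` with
`A (b j) = C0`, plus one further simple root `ρ` of `A - C0`. -/
theorem main_theorem {d g : ℕ} (hd : 0 < d) (a : Fin d → ℤ) (b : Fin g → ℤ)
    (ha : Function.Injective a) (hb : Function.Injective b) {C0 : ℤ} (hC0 : 0 < C0)
    (hA : ∀ j, (splitPoly a).eval (b j) = C0)
    (hA' : ∀ j, (derivative (splitPoly a)).eval (b j) ≠ 0) (ρ : ℂ)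
    (hρ : aeval ρ (splitPoly a) = (C0 : ℂ)) (hρ' : aeval ρ (derivative (splitPoly a)) ≠ 0)
    (hρb : ∀ j, ρ ≠ (b j : ℂ)) {m : ℕ} (hm : 0 < m) :
    ∃ (K : Type) (_ : Field K) (_ : NumberField K), Module.finrank ℚ K = d ∧
      ∃ f : Multiplicative (Fin (d / 2 + g) → ZMod m) →* ClassGroup (𝓞 K),
        Function.Injective f := by
  classical
  haveI : Nonempty (Fin d) := ⟨⟨0, hd⟩⟩
  -- the points
  set c : Fin d ⊕ Fin g → ℤ := Sum.elim a b with hc
  have hAa : ∀ i, (splitPoly a).eval (a i) = 0 := by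
    intro i
    rw [eval_splitPoly]
    exact Finset.prod_eq_zero (Finset.mem_univ i) (sub_self _)
  have hcinj : Function.Injective c := by
    rintro (i | j) (i' | j') h
    · rw [ha h]
    · exfalso
      have h' : a i = b j' := h
      have := hA j'
      rw [← h', hAa] at this
      exact hC0.ne this
    · exfalso
      have h' : b j = a i' := h
      have := hA j
      rw [h', hAa] at this
      exact hC0.ne this
    · rw [hb h]
  have hρc : ∀ k, ρ ≠ (c k : ℂ) := by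
    rintro (i | j) h
    · have h' : ρ = (a i : ℂ) := h
      rw [h', aeval_intCast_eq, hAa] at hρ
      have : (0 : ℤ) = C0 := by exact_mod_cast hρ
      exact hC0.ne this
    · exact hρb j h
  -- the auxiliary point
  obtain ⟨x0, p, P, hp, hpm, hP, hpA, hpA2, hpA', hpc, hPk, hPk'⟩ :=
    exists_x0 c hcinj (splitPoly a) C0 hm fun B =>
      exists_rho_prime (splitPoly_monic a) (by rw [natDegree_splitPoly]; simpa using hd) C0 ρ hρ hρ'
        c hρc hm B
  set Ax : ℤ := (splitPoly a).eval x0 with hAx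
  have hpz : Prime (p : ℤ) := Nat.prime_iff_prime_int.mp hp
  have hpAx : ¬ (p : ℤ) ∣ Ax := by
    rw [hAx, eval_splitPoly]
    intro h
    obtain ⟨i, -, h5⟩ := (Prime.dvd_finsetProd_iff hpz _).mp h
    exact hpc (Sum.inl i) h5
  have hA'x0 : (derivative (splitPoly a)).eval x0 ≠ 0 := by
    intro h; rw [h] at hpA'; exact hpA' (dvd_zero _)
  have hx0c : ∀ k, x0 - c k ≠ 0 := by
    intro k h
    apply hpc k
    rw [h]; exact dvd_zero _
  -- the bad number
  set Nbad : ℤ := (∏ i, (derivative (splitPoly a)).eval (a i)) *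
    ∏ j, (derivative (splitPoly a)).eval (b j) with hNbad
  have hda : ∀ i, (derivative (splitPoly a)).eval (a i) ≠ 0 := by
    intro i
    rw [derivative_splitPoly_eval]
    refine Finset.prod_ne_zero_iff.mpr fun i' hi' => ?_
    rw [sub_ne_zero]
    exact fun h => (Finset.ne_of_mem_erase hi') (ha h).symm
  have hNbad0 : Nbad ≠ 0 := mul_ne_zero (Finset.prod_ne_zero_iff.mpr fun i _ => hda i)
    (Finset.prod_ne_zero_iff.mpr fun j _ => hA' j)
  have hNda : ∀ i, (derivative (splitPoly a)).eval (a i) ∣ Nbad := fun i =>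
    (Finset.dvd_prod_of_mem (fun i => (derivative (splitPoly a)).eval (a i))
      (Finset.mem_univ i)).mul_right _
  have hNdb : ∀ j, (derivative (splitPoly a)).eval (b j) ∣ Nbad := fun j =>
    (Finset.dvd_prod_of_mem (fun j => (derivative (splitPoly a)).eval (b j))
      (Finset.mem_univ j)).mul_left _
  have hNaa : ∀ i i', i ≠ i' → (a i - a i') ∣ Nbad := by
    intro i i' hne
    refine dvd_trans ?_ (hNda i)
    rw [derivative_splitPoly_eval]
    exact Finset.dvd_prod_of_mem (fun i' => a i - a i')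
      (Finset.mem_erase.mpr ⟨hne.symm, Finset.mem_univ i'⟩)
  -- primes `q0`, `q1`
  obtain ⟨q0, hq0gt, hq0⟩ := Nat.exists_infinite_primes ((C0 * Nbad).natAbs + m + 1)
  obtain ⟨q1, hq1gt, hq1, hq1m⟩ : ∃ q1, q0 < q1 ∧ q1.Prime ∧ 4 * m ∣ q1 + 1 := by
    haveI : NeZero (4 * m) := ⟨by omega⟩
    obtain ⟨q1, h1, h2, h3⟩ := Nat.forall_exists_prime_gt_and_eq_mod (q := 4 * m)
      (a := (-1 : ZMod (4 * m))) isUnit_one.neg q0
    refine ⟨q1, h1, h2, ?_⟩
    rw [← ZMod.natCast_eq_zero_iff]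
    push_cast
    rw [h3]; ring
  -- detection primes
  set S : Finset (ℕ × (Fin d ⊕ Fin g → ℕ)) :=
    (m.primeFactors ×ˢ Fintype.piFinset (fun _ => Finset.range (m + 1))).filter
      (fun δ => (∀ k, δ.2 k < δ.1) ∧ δ.2 ≠ 0) with hS
  set Bq : ℕ := q1 + C0.natAbs + (∑ k, (x0 - c k).natAbs) +
    ((derivative (splitPoly a)).eval x0).natAbs with hBq
  obtain ⟨Q, hQ, hQinj⟩ := exists_distinct S
    (fun δ q => q.Prime ∧ 4 * m ∣ q - 1 ∧ (∃ y : ℤ, (q : ℤ) ∣ (Ax - C0) - y ^ m * Ax) ∧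
      ∀ t : ZMod q, t ^ δ.1 ≠ ∏ k, ((x0 - c k : ℤ) : ZMod q) ^ δ.2 k)
    (by
      rintro ⟨ℓ, e⟩ hδ B
      obtain ⟨h1, h2, h3⟩ := Finset.mem_filter.mp hδ
      have h4 := Nat.mem_primeFactors.mp (Finset.mem_product.mp h1).1
      exact exists_det c hm hp hpm hP hpA hpA2 hpAx hpc hPk hPk' h4.1 h4.2.1 h2 h3 B) Bq
  have hy : ∀ δ, ∃ y : ℤ, δ ∈ S → (Q δ : ℤ) ∣ (Ax - C0) - y ^ m * Ax := by
    intro δ
    by_cases h : δ ∈ S
    · obtain ⟨y, hy⟩ := (hQ δ h).2.2.2.1
      exact ⟨y, fun _ => hy⟩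
    · exact ⟨0, fun h' => absurd h' h⟩
  choose y hy using hy
  -- the parameters
  set R0 : ℕ := ∑ i, (a i).natAbs with hR0
  obtain ⟨u, v, s, hu0, hs0, hsC, huv, hsu, hNs, huN, hq0s, hq0s2, hq0u, hq1u, hq1s, hQv, hW⟩ :=
    exists_uv S Q y (fun δ hδ => (hQ δ hδ).2.1) hQinj hm hC0 hNbad0 ((2 * R0) ^ d) hq0 hq1
      (by omega) (by omega) hq1gt (fun δ hδ => by have := (hQ δ hδ).1; omega)
  obtain ⟨K, iF, iN, θ, hKd, hθ, hKemb, hKext⟩ := exists_field (m := m) a hq0 hq0s hq0s2 hq0u hsu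
  rw [Fintype.card_fin] at hKd
  refine ⟨K, iF, iN, hKd, ?_⟩
  -- unit rank
  have hT : ((2 * (R0 : ℝ)) ^ Fintype.card (Fin d)) < (u : ℝ) ^ m / s := by
    have hs0' : (0 : ℝ) < s := by exact_mod_cast hs0
    rw [lt_div_iff₀ hs0', Fintype.card_fin]
    exact_mod_cast hW
  have hR0a : ∀ i, |(a i : ℝ)| ≤ (R0 : ℝ) := by
    intro i
    have h1 : (a i).natAbs ≤ R0 := Finset.single_le_sum (f := fun i => (a i).natAbs)
      (fun _ _ => Nat.zero_le _) (Finset.mem_univ i)
    have h2 : |(a i : ℝ)| = (((a i).natAbs : ℕ) : ℝ) := by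
      rw [Nat.cast_natAbs]; push_cast; rfl
    rw [h2]
    exact_mod_cast h1
  have hreal : ∀ φ : K →+* ℝ, ∏ i, (φ θ - (a i : ℝ)) = -((u : ℝ) ^ m / s) := by
    intro φ
    have h1 := congrArg φ hθ
    rw [map_mul, map_neg, map_pow, map_intCast, map_intCast, aeval_splitPoly, map_prod] at h1
    simp only [map_sub, map_intCast] at h1
    have hs0' : (s : ℝ) ≠ 0 := by exact_mod_cast hs0.ne'
    field_simp
    linarith
  have hrank : Units.rank K + 1 ≤ (d + 1) / 2 := by
    refine unitRank_le hKd ?_ ?_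
    · intro φ ψ
      apply hKext
      exact root_unique a (Nat.cast_nonneg R0) hR0a hT (hreal φ) (hreal ψ)
    · intro he
      refine ⟨fun φ => ?_⟩
      exact no_root_of_even a (Nat.cast_nonneg R0) hR0a hT (by rwa [Fintype.card_fin]) _ (hreal φ)
  -- nonvanishing
  haveI : CharZero K := inferInstance
  have hθc : ∀ k, θ - (c k : K) ≠ 0 := by
    intro k h
    rw [sub_eq_zero] at h
    rw [h, aeval_intCast_eq] at hθ
    have h1 : s * (splitPoly a).eval (c k) = -u ^ m := by exact_mod_cast hθ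
    have hum : 0 < u ^ m := by positivity
    rcases k with i | j
    · have h2 : (splitPoly a).eval (c (Sum.inl i)) = 0 := hAa i
      rw [h2] at h1
      linarith
    · have h2 : (splitPoly a).eval (c (Sum.inr j)) = C0 := hA j
      rw [h2] at h1
      nlinarith
  -- the elements
  let k0 : Fin d ⊕ Fin g := Sum.inl ⟨0, hd⟩
  let T := {k : Fin d ⊕ Fin g // k ≠ k0}
  have hcardT : Fintype.card T = d + g - 1 := by
    rw [Fintype.card_subtype_compl, Fintype.card_subtype_eq, Fintype.card_sum, Fintype.card_fin,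
      Fintype.card_fin]
  let x : T → Kˣ := fun k => Units.mk0 (θ - (c k.1 : K)) (hθc k.1) /
    Units.mk0 (θ - (c k0 : K)) (hθc k0)
  refine classGroup_rank (T := T) hm x ?_ ?_ ?_
  · -- valuations
    intro k w
    obtain ⟨ω, za, zb, hω, hza, hzb⟩ := val_forms (w.valuation K) a b hm hA hθ hsC hNaa hNdb hNs
      huN huv
    have hz : ∀ k, ∃ z, (w.valuation K) (θ - (c k : K)) = ω * z ^ m := by
      rintro (i | j)
      · exact ⟨za i, hza i⟩
      · exact ⟨zb j, hzb j⟩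
    obtain ⟨z1, hz1⟩ := hz k.1
    obtain ⟨z0, hz0⟩ := hz k0
    refine ⟨z1 / z0, ?_⟩
    simp only [x, Units.val_div_eq_div_val, Units.val_mk0, map_div₀]
    rw [hz1, hz0, div_pow, mul_div_mul_left _ _ hω]
  · -- independence
    intro ℓ hℓ hℓm n ζ z hζ hprod
    -- extended exponents
    let n' : Fin d ⊕ Fin g → ℤ := fun k => if h : k ≠ k0 then n ⟨k, h⟩ else -∑ k : T, n k
    have hn' : ∀ k : T, n' k.1 = n k := by
      intro k
      simp only [n', dif_pos k.2]
      rfl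
    have hn'0 : n' k0 = -∑ k : T, n k := by
      simp only [n', ne_eq, not_true_eq_false, dite_false]
    have hprodK : ∏ k, (θ - (c k : K)) ^ n' k = ((∏ k, x k ^ n k : Kˣ) : K) := by
      rw [Fintype.prod_eq_mul_prod_subtype_ne (fun k => (θ - (c k : K)) ^ n' k) k0, hn'0,
        Units.coe_prod]
      have h1 : ∀ k : T, ((x k ^ n k : Kˣ) : K) =
          (θ - (c k.1 : K)) ^ n k * ((θ - (c k0 : K)) ^ (-n k)) := by
        intro k
        rw [zpow_neg, ← div_eq_mul_inv, ← div_zpow, Units.val_zpow_eq_zpow_val]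
        congr 1
        simp only [x, Units.val_div_eq_div_val, Units.val_mk0]
      rw [Finset.prod_congr rfl fun k _ => h1 k, Finset.prod_mul_distrib, mul_comm]
      congr 1
      · refine Finset.prod_congr rfl fun k _ => ?_
        rw [hn' k]
      · rw [← Finset.sum_neg_distrib]
        generalize hS' : (Finset.univ : Finset T) = S'
        clear hS'
        induction S' using Finset.induction_on with
        | empty => simp
        | insert j S' hj ih =>
          rw [Finset.sum_insert hj, Finset.prod_insert hj, zpow_add₀ (hθc k0), ih]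
    -- roots of unity
    obtain ⟨ξ, hξ⟩ : ∃ ξ : Kˣ, Units.map (algebraMap (𝓞 K) K) ζ = ξ ^ ℓ ∨
        Units.map (algebraMap (𝓞 K) K) ζ = -ξ ^ ℓ := by
      haveI : Fact q1.Prime := ⟨hq1⟩
      have hq1z : Prime (q1 : ℤ) := Nat.prime_iff_prime_int.mp hq1
      obtain ⟨φ, t, -, -⟩ := exists_local_embedding hKemb (q := q1) (a ⟨0, hd⟩)
        (by rw [hAa, mul_zero, zero_add]; exact dvd_pow hq1u hm.ne')
        (by
          intro h
          rcases hq1z.dvd_or_dvd h with h | h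
          · exact hq1s h
          · exact not_dvd_of_lt (mul_ne_zero hC0.ne' hNbad0) (by omega)
              ((h.trans (hNda _)).mul_left C0))
      refine torsion_form hq1m φ hℓ hℓm ?_
      exact (Units.map (algebraMap (𝓞 K) K : 𝓞 K →* K)).isOfFinOrder
        ((CommGroup.mem_torsion _).mp hζ)
    -- residues of the exponents
    let e : Fin d ⊕ Fin g → ℕ := fun k => (n' k % (ℓ : ℤ)).toNat
    have hℓ0 : (0 : ℤ) < ℓ := by exact_mod_cast hℓ.pos
    have he1 : ∀ k, ((e k : ℕ) : ℤ) = n' k % ℓ := fun k =>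
      Int.toNat_of_nonneg (Int.emod_nonneg _ hℓ0.ne')
    have heℓ : ∀ k, e k < ℓ := by
      intro k
      have := Int.emod_lt_of_pos (n' k) hℓ0
      rw [← he1] at this
      exact_mod_cast this
    have hediv : ∀ k, (ℓ : ℤ) ∣ n' k - e k := by
      intro k
      rw [he1]
      exact Int.dvd_self_sub_emod
    by_cases he0 : e = 0
    · intro k
      have h1 := hediv k.1
      rw [he0] at h1
      simpa [hn' k] using h1
    exfalso
    have hδ : (ℓ, e) ∈ S := by
      rw [hS, Finset.mem_filter, Finset.mem_product]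
      refine ⟨⟨Nat.mem_primeFactors.mpr ⟨hℓ, hℓm, hm.ne'⟩, ?_⟩, heℓ, he0⟩
      rw [Fintype.mem_piFinset]
      intro k
      rw [Finset.mem_range]
      have h1 := heℓ k
      have h2 := Nat.le_of_dvd hm hℓm
      show e k < m + 1
      omega
    obtain ⟨hQB, hQp, hQm, -, hQnp⟩ := hQ _ hδ
    set q := Q (ℓ, e) with hq
    haveI : Fact q.Prime := ⟨hQp⟩
    have hqz : Prime (q : ℤ) := Nat.prime_iff_prime_int.mp hQp
    have hyq := hy _ hδ
    have hvq := hQv _ hδ
    set yq := y (ℓ, e) with hyqdef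
    have hqC : ¬ (q : ℤ) ∣ C0 := not_dvd_of_lt hC0.ne' (by omega)
    have hqA' : ¬ (q : ℤ) ∣ (derivative (splitPoly a)).eval x0 := not_dvd_of_lt hA'x0 (by omega)
    have hqc : ∀ k, ¬ (q : ℤ) ∣ x0 - c k := by
      intro k
      refine not_dvd_of_lt (hx0c k) ?_
      have := Finset.single_le_sum (f := fun k => (x0 - c k).natAbs) (fun _ _ => Nat.zero_le _)
        (Finset.mem_univ k)
      omega
    have hvm : (q : ℤ) ∣ v ^ m - (yq * u) ^ m := hvq.trans (sub_dvd_pow_sub_pow _ _ _)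
    have hqu : ¬ (q : ℤ) ∣ u := by
      intro h
      have h1 : (q : ℤ) ∣ v := by
        have h2 : v = (v - yq * u) + yq * u := by ring
        rw [h2]
        exact dvd_add hvq (h.mul_left _)
      obtain ⟨a', b', hab⟩ := huv
      have h3 : (q : ℤ) ∣ 1 := by
        rw [← hab]
        exact dvd_add (h.mul_left _) (h1.mul_left _)
      exact hqz.not_isUnit (isUnit_of_dvd_one h3)
    have hqs : ¬ (q : ℤ) ∣ s := by
      intro h
      have h1 : (q : ℤ) ∣ u ^ m * (yq ^ m - 1) := by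
        have h2 : u ^ m * (yq ^ m - 1) = s * C0 - (v ^ m - (yq * u) ^ m) := by rw [hsC]; ring
        rw [h2]
        exact dvd_sub (h.mul_right _) hvm
      have h3 : (q : ℤ) ∣ yq ^ m - 1 :=
        (hqz.dvd_or_dvd h1).resolve_left fun h4 => hqu (hqz.dvd_of_dvd_pow h4)
      apply hqC
      have h4 : C0 = -((Ax - C0) - yq ^ m * Ax) - (yq ^ m - 1) * Ax := by ring
      rw [h4]
      exact dvd_sub hyq.neg_right (h3.mul_right _)
    obtain ⟨φ, t, hφ, ht⟩ := exists_local_embedding hKemb (q := q) x0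
      (by
        have h1 : (q : ℤ) ∣ C0 * (s * Ax + u ^ m) := by
          have h2 : C0 * (s * Ax + u ^ m) = (v ^ m - (yq * u) ^ m) * Ax -
              u ^ m * ((Ax - C0) - yq ^ m * Ax) := by
            have h3 : C0 * (s * Ax + u ^ m) = (s * C0) * Ax + C0 * u ^ m := by ring
            rw [h3, hsC]; ring
          rw [h2]
          exact dvd_sub (hvm.mul_right _) (hyq.mul_left _)
        exact (hqz.dvd_or_dvd h1).resolve_left hqC)
      (by
        intro h
        rcases hqz.dvd_or_dvd h with h | h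
        · exact hqs h
        · exact hqA' h)
    have hloc := indep_local c hQm ht φ hφ hℓ hℓm
      (fun k => by rw [Ne, ZMod.intCast_zmod_eq_zero_iff_dvd]; exact hqc k) n' e hediv hQnp
      (((ξ * z : Kˣ) : K))
    rw [hprodK, hprod] at hloc
    rcases hξ with h | h
    · apply hloc.1
      rw [h, ← mul_pow]
      push_cast
      rfl
    · apply hloc.2
      rw [h]
      push_cast
      ring
  · rw [hcardT]
    omega

end Pool.Agent.Lib.MP_176ace_nt
end
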