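import Mathlib
import Pool.Agent.Lib.MP_176ace_nt.Main

set_option autoImplicit false

/-!
Rational configurations: finite sets `S`, `T` of rational numbers such that `∏ (X - s)` takes one
positive value at all points of `T`, plus two mild conditions. They give number fields of degree
`#S` with class group of `m`-rank at least `⌊#S / 2⌋ + #T`.
-/

namespace Pool.Agent.Lib.MP_176ace_nt

open Polynomial NumberField

/-- `∏ (X - s)`, `s ∈ S`, takes a constant positive value on `T`, its derivative does not vanish on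
`T`, and `S` has an element larger than all elements of `T`. -/
def Cfg (T S : Finset ℚ) : Prop :=
  (∃ C : ℚ, 0 < C ∧ ∀ b ∈ T, ∏ s ∈ S, (b - s) = C) ∧ (∀ b ∈ T, ∑ s ∈ S, (b - s)⁻¹ ≠ 0) ∧
    ∃ s ∈ S, ∀ b ∈ T, b < s

theorem derivative_splitPoly {ι : Type*} [Fintype ι] [DecidableEq ι] (a : ι → ℤ) :
    derivative (splitPoly a) = ∑ i, ∏ j ∈ Finset.univ.erase i, (X - C (a j)) := by
  rw [splitPoly, derivative_prod_finset]
  refine Finset.sum_congr rfl fun i _ => ?_
  rw [derivative_X_sub_C, mul_one]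

theorem exists_rho {d : ℕ} (a : Fin d → ℤ) {C0 : ℤ} (hC0 : 0 < C0) (i0 : Fin d)
    (hi0 : ∀ i, a i ≤ a i0) :
    ∃ x : ℝ, (a i0 : ℝ) < x ∧ aeval ((x : ℝ) : ℂ) (splitPoly a) = (C0 : ℂ) ∧
      aeval ((x : ℝ) : ℂ) (derivative (splitPoly a)) ≠ 0 := by
  classical
  set F : ℝ → ℝ := fun x => ∏ i, (x - (a i : ℝ)) with hF
  have hFc : Continuous F := by
    refine continuous_finsetProd _ fun i _ => ?_
    exact continuous_id.sub continuous_const
  have hle : ∀ i, (a i : ℝ) ≤ a i0 := fun i => by exact_mod_cast hi0 i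
  have hC0' : (0 : ℝ) < C0 := by exact_mod_cast hC0
  have h0 : F (a i0) = 0 := Finset.prod_eq_zero (Finset.mem_univ i0) (sub_self _)
  have h1 : (C0 : ℝ) ≤ F (a i0 + 1 + C0) := by
    have h2 : F (a i0 + 1 + C0) = (1 + C0) * ∏ i ∈ Finset.univ.erase i0, ((a i0 : ℝ) + 1 + C0 - a i) := by
      simp only [hF]
      rw [← Finset.mul_prod_erase _ _ (Finset.mem_univ i0)]
      congr 1
      ring
    rw [h2]
    have h3 : (1 : ℝ) ≤ ∏ i ∈ Finset.univ.erase i0, ((a i0 : ℝ) + 1 + C0 - a i) := by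
      calc (1 : ℝ) = ∏ _i ∈ Finset.univ.erase i0, (1 : ℝ) := Finset.prod_const_one.symm
        _ ≤ _ := by
          refine Finset.prod_le_prod (fun i _ => zero_le_one) fun i _ => ?_
          have := hle i
          linarith
    nlinarith
  obtain ⟨x, hx, hFx⟩ := intermediate_value_Icc (by linarith : (a i0 : ℝ) ≤ a i0 + 1 + C0)
    hFc.continuousOn ⟨by rw [h0]; exact hC0'.le, h1⟩
  have hxgt : (a i0 : ℝ) < x := by
    refine lt_of_le_of_ne hx.1 fun h => ?_
    rw [← h, h0] at hFx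
    exact hC0'.ne hFx
  refine ⟨x, hxgt, ?_, ?_⟩
  · rw [aeval_splitPoly]
    have h2 : ((F x : ℝ) : ℂ) = ((C0 : ℝ) : ℂ) := by rw [hFx]
    simp only [hF] at h2
    push_cast at h2
    exact h2
  · rw [derivative_splitPoly, map_sum]
    have h2 : (0 : ℝ) < ∑ i, ∏ j ∈ Finset.univ.erase i, (x - (a j : ℝ)) := by
      refine Finset.sum_pos (fun i _ => ?_) ⟨i0, Finset.mem_univ _⟩
      refine Finset.prod_pos fun j _ => ?_
      have := hle j
      linarith
    intro h3
    have h4 : ((∑ i, ∏ j ∈ Finset.univ.erase i, (x - (a j : ℝ)) : ℝ) : ℂ) = 0 := by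
      push_cast
      rw [← h3]
      refine Finset.sum_congr rfl fun i _ => ?_
      rw [map_prod]
      refine Finset.prod_congr rfl fun j _ => ?_
      simp
    exact h2.ne' (by exact_mod_cast h4)

/-- The rank bound attached to a rational configuration. -/
theorem rank_of_cfg {T S : Finset ℚ} (h : Cfg T S) (hT : T.Nonempty) {m : ℕ} (hm : 0 < m) :
    ∃ (K : Type) (_ : Field K) (_ : NumberField K), Module.finrank ℚ K = S.card ∧
      ∃ f : Multiplicative (Fin (S.card / 2 + T.card) → ZMod m) →* ClassGroup (𝓞 K),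
        Function.Injective f := by
  classical
  obtain ⟨⟨C, hC, hval⟩, hder, s0, hs0, hs0T⟩ := h
  -- common denominator
  set D : ℕ := ∏ x ∈ S ∪ T, x.den with hD
  have hDpos : 0 < D := Finset.prod_pos fun x _ => x.den_pos
  have hDQ : (0 : ℚ) < D := by exact_mod_cast hDpos
  have hint : ∀ x ∈ S ∪ T, ∃ n : ℤ, (n : ℚ) = D * x := by
    intro x hx
    obtain ⟨k, hk⟩ := Finset.dvd_prod_of_mem (fun x : ℚ => x.den) hx
    refine ⟨k * x.num, ?_⟩
    rw [hD, hk]
    push_cast
    have := Rat.den_mul_eq_num x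
    rw [mul_comm (x.den : ℚ) (k : ℚ), mul_assoc, this]
  let eS : Fin S.card ↪o ℚ := S.orderEmbOfFin rfl
  let eT : Fin T.card ↪o ℚ := T.orderEmbOfFin rfl
  have heS : ∀ i, eS i ∈ S := fun i => S.orderEmbOfFin_mem rfl i
  have heT : ∀ j, eT j ∈ T := fun j => T.orderEmbOfFin_mem rfl j
  have hsurjS : ∀ s ∈ S, ∃ i, eS i = s := by
    intro s hs
    have : s ∈ Set.range (S.orderEmbOfFin rfl) := by
      rw [Finset.range_orderEmbOfFin]; exact hs
    exact this
  choose! nf hnf using hint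
  let a : Fin S.card → ℤ := fun i => nf (eS i)
  let b : Fin T.card → ℤ := fun j => nf (eT j)
  have ha : ∀ i, ((a i : ℤ) : ℚ) = D * eS i := fun i =>
    hnf _ (Finset.mem_union_left _ (heS i))
  have hb : ∀ j, ((b j : ℤ) : ℚ) = D * eT j := fun j =>
    hnf _ (Finset.mem_union_right _ (heT j))
  have hainj : Function.Injective a := by
    intro i i' h
    have h1 : (D : ℚ) * eS i = D * eS i' := by rw [← ha, ← ha, h]
    exact eS.injective (mul_left_cancel₀ hDQ.ne' h1)
  have hbinj : Function.Injective b := by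
    intro i i' h
    have h1 : (D : ℚ) * eT i = D * eT i' := by rw [← hb, ← hb, h]
    exact eT.injective (mul_left_cancel₀ hDQ.ne' h1)
  have hprodS : ∀ (f : ℚ → ℚ), ∏ i, f (eS i) = ∏ s ∈ S, f s := by
    intro f
    rw [← Finset.prod_image (s := Finset.univ) (g := fun i => eS i)
      (fun i _ i' _ h => eS.injective h)]
    congr 1
    ext s
    simp only [Finset.mem_image, Finset.mem_univ, true_and]
    exact ⟨fun ⟨i, hi⟩ => hi ▸ heS i, hsurjS s⟩
  have hsumS : ∀ (f : ℚ → ℚ), ∑ i, f (eS i) = ∑ s ∈ S, f s := by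
    intro f
    rw [← Finset.sum_image (s := Finset.univ) (g := fun i => eS i)
      (fun i _ i' _ h => eS.injective h)]
    congr 1
    ext s
    simp only [Finset.mem_image, Finset.mem_univ, true_and]
    exact ⟨fun ⟨i, hi⟩ => hi ▸ heS i, hsurjS s⟩
  have hval' : ∀ j, (((∏ i, (b j - a i) : ℤ)) : ℚ) = (D : ℚ) ^ S.card * C := by
    intro j
    rw [← hval _ (heT j), ← hprodS]
    push_cast
    simp only [ha, hb, ← mul_sub]
    rw [Finset.prod_mul_distrib, Finset.prod_const, Finset.card_univ, Fintype.card_fin]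
  obtain ⟨t0, ht0⟩ := hT
  have hTpos : 0 < T.card := Finset.card_pos.mpr ⟨t0, ht0⟩
  set C0 : ℤ := ∏ i, (b ⟨0, hTpos⟩ - a i) with hC0def
  have hC0Q : (C0 : ℚ) = (D : ℚ) ^ S.card * C := hval' _
  have hC0 : 0 < C0 := by
    have : (0 : ℚ) < C0 := by rw [hC0Q]; positivity
    exact_mod_cast this
  have hSpos : 0 < S.card := Finset.card_pos.mpr ⟨s0, hs0⟩
  have hA : ∀ j, (splitPoly a).eval (b j) = C0 := by
    intro j
    rw [eval_splitPoly]
    have : (((∏ i, (b j - a i) : ℤ)) : ℚ) = C0 := by rw [hval', hC0Q]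
    exact_mod_cast this
  have hA' : ∀ j, (derivative (splitPoly a)).eval (b j) ≠ 0 := by
    intro j h0
    rw [derivative_splitPoly, eval_finsetSum] at h0
    simp only [eval_prod, eval_sub, eval_X, eval_C] at h0
    have h1 : (((∑ i, ∏ i' ∈ Finset.univ.erase i, (b j - a i') : ℤ)) : ℚ) = 0 := by
      rw [h0]; simp
    apply hder _ (heT j)
    rw [← hsumS]
    have hne : ∀ i, (eT j - eS i) ≠ 0 := by
      intro i h2
      have h3 := hval _ (heT j)
      rw [← hprodS, Finset.prod_eq_zero (Finset.mem_univ i) h2] at h3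
      exact hC.ne h3
    have h2 : ∀ i, (((∏ i' ∈ Finset.univ.erase i, (b j - a i') : ℤ)) : ℚ) =
        (D : ℚ) ^ (S.card - 1) * C * (eT j - eS i)⁻¹ := by
      intro i
      rw [eq_mul_inv_iff_mul_eq₀ (hne i)]
      refine mul_left_cancel₀ hDQ.ne' ?_
      have h3 := hval' j
      rw [← Finset.mul_prod_erase _ _ (Finset.mem_univ i)] at h3
      push_cast at h3 ⊢
      rw [ha, hb] at h3
      have h4 : (D : ℚ) * ((D : ℚ) ^ (S.card - 1) * C) = (D : ℚ) ^ S.card * C := by
        rw [← mul_assoc, ← pow_succ', Nat.sub_add_cancel hSpos]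
      rw [h4, ← h3, hb]
      ring
    rw [Int.cast_sum, Finset.sum_congr rfl fun i _ => h2 i, ← Finset.mul_sum] at h1
    rcases mul_eq_zero.mp h1 with h3 | h3
    · exfalso
      have : (0 : ℚ) < (D : ℚ) ^ (S.card - 1) * C := by positivity
      exact this.ne' h3
    · exact h3
  -- the largest element
  obtain ⟨i0, -, hi0⟩ := Finset.exists_max_image Finset.univ a
    (Finset.univ_nonempty_iff.mpr ⟨⟨0, hSpos⟩⟩)
  obtain ⟨x, hx, hρ, hρ'⟩ := exists_rho a hC0 i0 fun i => hi0 i (Finset.mem_univ i)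
  refine main_theorem hSpos a b hainj hbinj hC0 hA hA' (x : ℂ) hρ hρ' ?_ hm
  intro j h
  have h1 : x = (b j : ℝ) := by exact_mod_cast h
  obtain ⟨i1, hi1⟩ := hsurjS s0 hs0
  have h2 : b j < a i1 := by
    have h3 : ((b j : ℤ) : ℚ) < a i1 := by
      rw [ha, hb, hi1]
      exact mul_lt_mul_of_pos_left (hs0T _ (heT j)) hDQ
    exact_mod_cast h3
  have h3 : a i1 ≤ a i0 := hi0 i1 (Finset.mem_univ _)
  have h4 : (b j : ℝ) < a i0 := by exact_mod_cast h2.trans_le h3
  linarith

end Pool.Agent.Lib.MP_176ace_nt
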