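import Mathlib
import Pool.Agent.Lib.MP_176ace_nt.Main

set_option autoImplicit false

/-!
Consequences of the main theorem: ideal solutions of the Prouhet-Tarry-Escott problem.
-/

namespace Pool.Agent.Lib.MP_176ace_nt

open Polynomial NumberField

theorem splitPoly_sub_eq {d : ℕ} (a b : Fin d → ℤ) (hb : Function.Injective b) {C0 : ℤ}
    (hd : 0 < d) (hA : ∀ j, (splitPoly a).eval (b j) = C0) :
    splitPoly a - C C0 = splitPoly b := by
  have hmA : (splitPoly a - C C0).Monic := by
    refine (splitPoly_monic a).sub_of_left (degree_C_le.trans_lt ?_)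
    rw [← natDegree_pos_iff_degree_pos, natDegree_splitPoly]
    simpa using hd
  have hnA : (splitPoly a - C C0).natDegree = d := by
    rw [natDegree_sub_C, natDegree_splitPoly, Fintype.card_fin]
  have hnB : (splitPoly b).natDegree = d := by
    rw [natDegree_splitPoly, Fintype.card_fin]
  have hcard : (Finset.univ.image b).card = d := by
    rw [Finset.card_image_of_injective _ hb, Finset.card_univ, Fintype.card_fin]
  refine eq_of_degree_sub_lt_of_eval_finset_eq (Finset.univ.image b) ?_ ?_
  · have h1 : ((splitPoly a - C C0) - splitPoly b).degree < (splitPoly a - C C0).degree := by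
      refine degree_sub_lt ?_ hmA.ne_zero ?_
      · rw [degree_eq_natDegree hmA.ne_zero, degree_eq_natDegree (splitPoly_monic b).ne_zero,
          hnA, hnB]
      · rw [hmA.leadingCoeff, (splitPoly_monic b).leadingCoeff]
    rw [hcard]
    rwa [degree_eq_natDegree hmA.ne_zero, hnA] at h1
  · intro x hx
    obtain ⟨j, -, rfl⟩ := Finset.mem_image.mp hx
    rw [eval_sub, hA, eval_C, sub_self, eval_splitPoly]
    exact (Finset.prod_eq_zero (Finset.mem_univ j) (sub_self _)).symm

/-- From a solution of the Prouhet-Tarry-Escott problem of size `d = g + 1` (`d` integers `a i` and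
`d` integers `b j` such that `∏ (X - a i) - ∏ (X - b j)` is a positive constant). -/
theorem rank_of_pte {g : ℕ} (a b : Fin (g + 1) → ℤ) (ha : Function.Injective a)
    (hb : Function.Injective b) {C0 : ℤ} (hC0 : 0 < C0) (hA : ∀ j, ∏ i, (b j - a i) = C0)
    {m : ℕ} (hm : 0 < m) :
    ∃ (K : Type) (_ : Field K) (_ : NumberField K), Module.finrank ℚ K = g + 1 ∧
      ∃ f : Multiplicative (Fin ((g + 1) / 2 + g) → ZMod m) →* ClassGroup (𝓞 K),
        Function.Injective f := by
  classical
  have hA1 : ∀ j, (splitPoly a).eval (b j) = C0 := fun j => by rw [eval_splitPoly, hA]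
  have hder : derivative (splitPoly a) = derivative (splitPoly b) := by
    rw [← splitPoly_sub_eq a b hb (Nat.succ_pos g) hA1, derivative_sub, derivative_C, sub_zero]
  have hA' : ∀ j, (derivative (splitPoly a)).eval (b j) ≠ 0 := by
    intro j
    rw [hder, derivative_splitPoly_eval]
    refine Finset.prod_ne_zero_iff.mpr fun i' hi' => ?_
    rw [sub_ne_zero]
    exact fun h => (Finset.ne_of_mem_erase hi') (hb h).symm
  refine main_theorem (Nat.succ_pos g) a (fun j : Fin g => b j.castSucc) ha
    (hb.comp (Fin.castSucc_injective g)) hC0 (fun j => hA1 _) (fun j => hA' _)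
    ((b (Fin.last g) : ℤ) : ℂ) ?_ ?_ ?_ hm
  · rw [aeval_intCast_eq, hA1]
  · rw [aeval_intCast_eq]
    exact_mod_cast hA' _
  · intro j h
    have h1 : b (Fin.last g) = b j.castSucc := by exact_mod_cast h
    exact (Fin.castSucc_lt_last j).ne (hb h1).symm

end Pool.Agent.Lib.MP_176ace_nt
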