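import Mathlib
import Pool.Agent.Lib.MP_176ace_nt.Config
import Pool.Agent.Lib.MP_176ace_nt.Pte

section

set_option autoImplicit false

/-!
Adding blocks from an infinite family to a rational configuration.
-/

namespace Pool.Agent.Lib.MP_176ace_nt

/-- An infinite family of blocks of size `e` for the set `T`. -/
structure Family (T : Finset ℚ) (e : ℕ) (B : ℕ → Finset ℚ) : Prop where
  card : ∀ i, (B i).card = e
  val : ∀ i, ∃ c : ℚ, 0 < c ∧ ∀ b ∈ T, ∏ s ∈ B i, (b - s) = c
  mem_finite : ∀ q : ℚ, {i | q ∈ B i}.Finite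
  sum_finite : ∀ b ∈ T, ∀ q : ℚ, {i | ∑ s ∈ B i, (b - s)⁻¹ = q}.Finite

theorem Cfg.step {T S : Finset ℚ} {e : ℕ} {B : ℕ → Finset ℚ} (hB : Family T e B) (h : Cfg T S) :
    ∃ S', Cfg T S' ∧ S'.card = S.card + e := by
  classical
  obtain ⟨⟨C, hC, hval⟩, hder, s0, hs0, hs0T⟩ := h
  have hfin : ((⋃ s ∈ S, {i | s ∈ B i}) ∪
      ⋃ b ∈ T, {i | ∑ s ∈ B i, (b - s)⁻¹ = -∑ s ∈ S, (b - s)⁻¹}).Finite := by
    refine Set.Finite.union ?_ ?_
    · exact Set.Finite.biUnion S.finite_toSet fun s _ => hB.mem_finite s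
    · exact Set.Finite.biUnion T.finite_toSet fun b hb => hB.sum_finite b hb _
  obtain ⟨i, hi⟩ := hfin.exists_notMem
  simp only [Set.mem_union, Set.mem_iUnion, Set.mem_ofPred_eq, exists_prop, not_or, not_exists,
    not_and] at hi
  obtain ⟨hi1, hi2⟩ := hi
  have hdisj : Disjoint S (B i) := Finset.disjoint_left.mpr hi1
  obtain ⟨c, hc, hcv⟩ := hB.val i
  refine ⟨S ∪ B i, ⟨⟨C * c, mul_pos hC hc, fun b hb => ?_⟩, fun b hb => ?_, s0,
    Finset.mem_union_left _ hs0, hs0T⟩, ?_⟩
  · rw [Finset.prod_union hdisj, hval b hb, hcv b hb]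
  · rw [Finset.sum_union hdisj]
    intro h0
    exact hi2 b hb (by linarith)
  · rw [Finset.card_union_of_disjoint hdisj, hB.card]

theorem Cfg.steps {T S : Finset ℚ} {e : ℕ} {B : ℕ → Finset ℚ} (hB : Family T e B) (h : Cfg T S)
    (n : ℕ) : ∃ S', Cfg T S' ∧ S'.card = S.card + e * n := by
  induction n with
  | zero => exact ⟨S, h, by simp⟩
  | succ n ih =>
    obtain ⟨S', hS', hcard⟩ := ih
    obtain ⟨S'', hS'', hcard'⟩ := hS'.step hB
    exact ⟨S'', hS'', by rw [hcard', hcard]; ring⟩

end Pool.Agent.Lib.MP_176ace_nt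
end

section

section

set_option autoImplicit false

/-!
The infinite family of blocks `{α, -α, β, -β}`, `α ^ 2 + β ^ 2 = 250`, for the set `{9, -9, 13, -13}`.
-/

namespace Pool.Agent.Lib.MP_176ace_nt

/-- first coordinate of a rational point on the circle -/
def al (i : ℕ) : ℚ := 9 + (26 * ((i : ℚ) + 20) - 18) / (((i : ℚ) + 20) ^ 2 + 1)

/-- second coordinate of a rational point on the circle -/
def be (i : ℕ) : ℚ := 13 - (18 * ((i : ℚ) + 20) + 26) / (((i : ℚ) + 20) ^ 2 + 1)

theorem al_sq_add (i : ℕ) : al i ^ 2 + be i ^ 2 = 250 := by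
  have h : (((i : ℚ) + 20) ^ 2 + 1) ≠ 0 := by positivity
  rw [al, be]
  field_simp
  ring

theorem lt_al (i : ℕ) : 9 < al i := by
  have h : (0 : ℚ) < (26 * ((i : ℚ) + 20) - 18) / (((i : ℚ) + 20) ^ 2 + 1) := by
    have h0 : (0 : ℚ) ≤ i := Nat.cast_nonneg i
    refine div_pos (by linarith) (by positivity)
  rw [al]; linarith

theorem al_lt (i : ℕ) : al i < 11 := by
  have h : (26 * ((i : ℚ) + 20) - 18) / (((i : ℚ) + 20) ^ 2 + 1) < 2 := by
    have h0 : (0 : ℚ) ≤ i := Nat.cast_nonneg i
    rw [div_lt_iff₀ (by positivity)]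
    nlinarith
  rw [al]; linarith

theorem lt_be (i : ℕ) : 12 < be i := by
  have h : (18 * ((i : ℚ) + 20) + 26) / (((i : ℚ) + 20) ^ 2 + 1) < 1 := by
    have h0 : (0 : ℚ) ≤ i := Nat.cast_nonneg i
    rw [div_lt_iff₀ (by positivity)]
    nlinarith
  rw [be]; linarith

theorem al_injective : Function.Injective al := by
  intro i j h
  have hi : (((i : ℚ) + 20) ^ 2 + 1) ≠ 0 := by positivity
  have hj : (((j : ℚ) + 20) ^ 2 + 1) ≠ 0 := by positivity
  have h0 : (0 : ℚ) ≤ i := Nat.cast_nonneg i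
  have h1 : (0 : ℚ) ≤ j := Nat.cast_nonneg j
  rw [al, al, add_right_inj, div_eq_div_iff hi hj] at h
  have h2 : ((j : ℚ) - i) * (13 * ((i : ℚ) + 20) * ((j : ℚ) + 20) - 9 * ((i : ℚ) + j + 40) - 13)
      = 0 := by linear_combination h / 2
  rcases mul_eq_zero.mp h2 with h3 | h3
  · have : (i : ℚ) = j := by linarith
    exact_mod_cast this
  · exfalso
    nlinarith [mul_nonneg h0 h1]

theorem be_injective : Function.Injective be := by
  intro i j h
  have hi : (((i : ℚ) + 20) ^ 2 + 1) ≠ 0 := by positivity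
  have hj : (((j : ℚ) + 20) ^ 2 + 1) ≠ 0 := by positivity
  have h0 : (0 : ℚ) ≤ i := Nat.cast_nonneg i
  have h1 : (0 : ℚ) ≤ j := Nat.cast_nonneg j
  rw [be, be, sub_right_inj, div_eq_div_iff hi hj] at h
  have h2 : ((j : ℚ) - i) * (9 * ((i : ℚ) + 20) * ((j : ℚ) + 20) + 13 * ((i : ℚ) + j + 40) - 9)
      = 0 := by linear_combination h / 2
  rcases mul_eq_zero.mp h2 with h3 | h3
  · have : (i : ℚ) = j := by linarith
    exact_mod_cast this
  · exfalso
    nlinarith [mul_nonneg h0 h1]

/-- the block of the `i`-th point -/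
def circleBlock (i : ℕ) : Finset ℚ := {al i, -al i, be i, -be i}

theorem circleBlock_prod {R : Type*} [CommMonoid R] (f : ℚ → R) (i : ℕ) :
    ∏ s ∈ circleBlock i, f s = f (al i) * (f (-al i) * (f (be i) * f (-be i))) := by
  have h1 := lt_al i
  have h2 := al_lt i
  have h3 := lt_be i
  rw [circleBlock, Finset.prod_insert, Finset.prod_insert, Finset.prod_insert,
    Finset.prod_singleton]
  · simp only [Finset.mem_singleton]
    intro h; linarith
  · simp only [Finset.mem_insert, Finset.mem_singleton, not_or]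
    constructor <;> intro h <;> linarith
  · simp only [Finset.mem_insert, Finset.mem_singleton, not_or]
    refine ⟨?_, ?_, ?_⟩ <;> intro h <;> linarith

theorem circleBlock_sum {R : Type*} [AddCommMonoid R] (f : ℚ → R) (i : ℕ) :
    ∑ s ∈ circleBlock i, f s = f (al i) + (f (-al i) + (f (be i) + f (-be i))) :=
  circleBlock_prod (R := Multiplicative R) f i

theorem circle_sq {b : ℚ} (hb : b ∈ ({9, -9, 13, -13} : Finset ℚ)) :
    (b = 9 ∨ b = -9 ∨ b = 13 ∨ b = -13) ∧ (b ^ 2 - 81) * (b ^ 2 - 169) = 0 := by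
  simp only [Finset.mem_insert, Finset.mem_singleton] at hb
  refine ⟨hb, ?_⟩
  rcases hb with rfl | rfl | rfl | rfl <;> norm_num

theorem circle_family : Family {9, -9, 13, -13} 4 circleBlock where
  card i := by
    rw [Finset.card_eq_sum_ones, circleBlock_sum]; rfl
  val i := by
    refine ⟨(al i ^ 2 - 81) * (be i ^ 2 - 81), ?_, fun b hb => ?_⟩
    · have h1 := lt_al i
      have h3 := lt_be i
      refine mul_pos ?_ ?_ <;> nlinarith
    · obtain ⟨-, h⟩ := circle_sq hb
      have h1 := al_sq_add i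
      rw [circleBlock_prod]
      linear_combination h - (b ^ 2 - 81) * h1
  mem_finite q := by
    have h1 : {i | q ∈ circleBlock i} ⊆ (al ⁻¹' {q} ∪ al ⁻¹' {-q}) ∪ (be ⁻¹' {q} ∪ be ⁻¹' {-q}) := by
      intro i hi
      simp only [Set.mem_ofPred_eq, circleBlock, Finset.mem_insert, Finset.mem_singleton] at hi
      simp only [Set.mem_union, Set.mem_preimage, Set.mem_singleton_iff]
      rcases hi with h | h | h | h
      · exact Or.inl (Or.inl h.symm)
      · exact Or.inl (Or.inr (by rw [h, neg_neg]))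
      · exact Or.inr (Or.inl h.symm)
      · exact Or.inr (Or.inr (by rw [h, neg_neg]))
    refine Set.Finite.subset ?_ h1
    have h2 := fun x : ℚ => (Set.finite_singleton x).preimage al_injective.injOn
    have h3 := fun x : ℚ => (Set.finite_singleton x).preimage be_injective.injOn
    exact ((h2 q).union (h2 (-q))).union ((h3 q).union (h3 (-q)))
  sum_finite b hb q := by
    refine Set.Subsingleton.finite ?_
    have key : ∀ i, (∑ s ∈ circleBlock i, (b - s)⁻¹) * ((al i ^ 2 - 81) * (be i ^ 2 - 81)) =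
        4 * b * (b ^ 2 - 125) := by
      intro i
      obtain ⟨hb', h⟩ := circle_sq hb
      have h1 := lt_al i
      have h2 := al_lt i
      have h3 := lt_be i
      have h4 := al_sq_add i
      have h5 : be i < 13 := by
        rw [be]
        have : (0 : ℚ) < (18 * ((i : ℚ) + 20) + 26) / (((i : ℚ) + 20) ^ 2 + 1) := by positivity
        linarith
      have n1 : b - al i ≠ 0 := by
        rcases hb' with rfl | rfl | rfl | rfl <;> intro h0 <;> linarith
      have n2 : b - -al i ≠ 0 := by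
        rcases hb' with rfl | rfl | rfl | rfl <;> intro h0 <;> linarith
      have n3 : b - be i ≠ 0 := by
        rcases hb' with rfl | rfl | rfl | rfl <;> intro h0 <;> linarith
      have n4 : b - -be i ≠ 0 := by
        rcases hb' with rfl | rfl | rfl | rfl <;> intro h0 <;> linarith
      have h6 : (al i ^ 2 - 81) * (be i ^ 2 - 81) =
          (b - al i) * ((b - -al i) * ((b - be i) * (b - -be i))) := by
        linear_combination -h + (b ^ 2 - 81) * h4
      rw [circleBlock_sum, h6]
      field_simp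
      linear_combination (-2 * b) * h4
    intro i hi j hj
    simp only [Set.mem_ofPred_eq] at hi hj
    obtain ⟨hb', -⟩ := circle_sq hb
    have hq : q ≠ 0 := by
      rintro rfl
      have h1 := key i
      rw [hi, zero_mul] at h1
      rcases hb' with rfl | rfl | rfl | rfl <;> norm_num at h1
    have h1 : (al i ^ 2 - 81) * (be i ^ 2 - 81) = (al j ^ 2 - 81) * (be j ^ 2 - 81) := by
      have h1 := key i
      have h2 := key j
      rw [hi] at h1
      rw [hj] at h2
      exact mul_left_cancel₀ hq (h1.trans h2.symm)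
    have h2 := al_sq_add i
    have h3 := al_sq_add j
    have h4 : (al i - al j) * ((al i + al j) * (250 - al i ^ 2 - al j ^ 2)) = 0 := by
      linear_combination h1 - (al i ^ 2 - 81) * h2 + (al j ^ 2 - 81) * h3
    have a1 := lt_al i
    have a2 := al_lt i
    have a3 := lt_al j
    have a4 := al_lt j
    have h5 : (al i + al j) * (250 - al i ^ 2 - al j ^ 2) ≠ 0 := by
      refine mul_ne_zero (by linarith) ?_
      intro h; nlinarith
    have h6 := (mul_eq_zero.mp h4).resolve_right h5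
    exact al_injective (by linarith)

end Pool.Agent.Lib.MP_176ace_nt
end

section

set_option autoImplicit false

/-!
All degrees `d ≥ 5`: class groups of `m`-rank at least `⌊d / 2⌋ + 4`.
-/

namespace Pool.Agent.Lib.MP_176ace_nt

open NumberField

theorem exists_hom_of_le {r r' m : ℕ} (h : r ≤ r') {G : Type*} [CommGroup G]
    (f : Multiplicative (Fin r' → ZMod m) →* G) (hf : Function.Injective f) :
    ∃ f' : Multiplicative (Fin r → ZMod m) →* G, Function.Injective f' := by
  let e : (Fin r → ZMod m) →+ (Fin r' → ZMod m) :=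
    Function.ExtendByZero.hom (ZMod m) (Fin.castLE h)
  have he : Function.Injective e := by
    intro x y hxy
    funext i
    have h1 := congrFun hxy (Fin.castLE h i)
    have h2 : ∀ z : Fin r → ZMod m, e z (Fin.castLE h i) = z i := fun z =>
      (Fin.castLE_injective h).extend_apply z 0 i
    rwa [h2, h2] at h1
  exact ⟨f.comp (AddMonoidHom.toMultiplicative e), hf.comp he⟩

theorem base5 : Cfg {9, -9, 13, -13} {-15, -3, 1, 19, 23} :=
  ⟨⟨322560, by norm_num, by decide +kernel⟩, by decide +kernel, 23, by decide +kernel,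
    by decide +kernel⟩

theorem base6 : Cfg {9, -9, 13, -13} {7, -7, 15, -15, 19, -19} :=
  ⟨⟨1290240, by norm_num, by decide +kernel⟩, by decide +kernel, 19, by decide +kernel,
    by decide +kernel⟩

theorem base8 : Cfg {9, -9, 13, -13} {5, -5, 15, -15, 3/5, -3/5, 79/5, -79/5} :=
  ⟨⟨8064 * (13689 - (3 * 79 / 25) ^ 2), by norm_num, by decide +kernel⟩, by decide +kernel, 15,
    by decide +kernel, by decide +kernel⟩

theorem base11 :
    Cfg {9, -9, 13, -13} {-15, -3, 1, 19, 23, 1/3, -1/3, 53/3, -53/3, 65/3, -65/3} :=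
  ⟨⟨322560 * ((81 - 1/9) * (81 - 53 ^ 2 / 9) * (81 - 65 ^ 2 / 9)), by norm_num,
    by decide +kernel⟩, by decide +kernel, 19, by decide +kernel, by decide +kernel⟩

theorem exists_cfg {d : ℕ} (hd : 5 ≤ d) (h7 : d ≠ 7) :
    ∃ S : Finset ℚ, Cfg {9, -9, 13, -13} S ∧ S.card = d := by
  obtain ⟨n, hn⟩ : ∃ n, d = 5 + 4 * n ∨ d = 6 + 4 * n ∨ d = 8 + 4 * n ∨ d = 11 + 4 * n := by
    by_cases h : d % 4 = 3
    · exact ⟨(d - 11) / 4, by omega⟩
    · exact ⟨(d - 5) / 4, by omega⟩
  rcases hn with rfl | rfl | rfl | rfl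
  · obtain ⟨S, hS, hc⟩ := base5.steps circle_family n
    exact ⟨S, hS, by rw [hc]; rfl⟩
  · obtain ⟨S, hS, hc⟩ := base6.steps circle_family n
    exact ⟨S, hS, by rw [hc]; rfl⟩
  · obtain ⟨S, hS, hc⟩ := base8.steps circle_family n
    exact ⟨S, hS, by rw [hc, show Finset.card _ = 8 by decide +kernel]⟩
  · obtain ⟨S, hS, hc⟩ := base11.steps circle_family n
    exact ⟨S, hS, by rw [hc, show Finset.card _ = 11 by decide +kernel]⟩

theorem rank_all_degrees {d : ℕ} (hd : 5 ≤ d) {m : ℕ} (hm : 0 < m) :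
    ∃ (K : Type) (_ : Field K) (_ : NumberField K), Module.finrank ℚ K = d ∧
      ∃ f : Multiplicative (Fin (d / 2 + 4) → ZMod m) →* ClassGroup (𝓞 K),
        Function.Injective f := by
  by_cases h7 : d = 7
  · subst h7
    obtain ⟨K, i1, i2, hK, f, hf⟩ := rank_of_pte (g := 6) (C0 := 13967553600)
      ![0, 18, 27, 58, 64, 89, 101] ![1, 13, 38, 44, 75, 84, 102] (by decide) (by decide)
      (by norm_num) (by decide) hm
    exact ⟨K, i1, i2, hK, exists_hom_of_le (by norm_num) f hf⟩
  · obtain ⟨S, hS, hc⟩ := exists_cfg hd h7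
    obtain ⟨K, i1, i2, hK, f, hf⟩ := rank_of_cfg hS ⟨9, by decide +kernel⟩ hm
    refine ⟨K, i1, i2, hK.trans hc, exists_hom_of_le ?_ f hf⟩
    rw [hc, show Finset.card _ = 4 by decide +kernel]

end Pool.Agent.Lib.MP_176ace_nt
end
end
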