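import Mathlib
import Pool.Agent.Lib.MP_176ace_nt.AllDegrees

section

set_option autoImplicit false

/-!
The infinite family of blocks `{±x, ±y, ±(x + y)}`, `x ^ 2 + x y + y ^ 2 = N`, for the set
`{±x0, ±y0, ±(x0 + y0)}`.
-/

namespace Pool.Agent.Lib.MP_176ace_nt

/-- first coordinate of a rational point on the conic -/
def cx (x0 y0 : ℚ) (i : ℕ) : ℚ :=
  x0 - (x0 * ((i : ℚ) + 21) + y0 * (2 * i + 39)) / (((i : ℚ) + 20) ^ 2 - ((i : ℚ) + 20) + 1)

/-- second coordinate of a rational point on the conic -/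
def cy (x0 y0 : ℚ) (i : ℕ) : ℚ :=
  y0 + (y0 * ((i : ℚ) + 18) + x0 * (2 * i + 39)) / (((i : ℚ) + 20) ^ 2 - ((i : ℚ) + 20) + 1)

theorem conic_den_pos (i : ℕ) : 0 < (((i : ℚ) + 20) ^ 2 - ((i : ℚ) + 20) + 1) := by
  have h0 : (0 : ℚ) ≤ i := Nat.cast_nonneg i
  nlinarith

theorem conic_eq (x0 y0 : ℚ) (i : ℕ) :
    cx x0 y0 i ^ 2 + cx x0 y0 i * cy x0 y0 i + cy x0 y0 i ^ 2 = x0 ^ 2 + x0 * y0 + y0 ^ 2 := by
  have h := (conic_den_pos i).ne'
  have hx : (((i : ℚ) + 20) ^ 2 - ((i : ℚ) + 20) + 1) * cx x0 y0 i =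
      (((i : ℚ) + 20) ^ 2 - ((i : ℚ) + 20) + 1) * x0 -
        (x0 * ((i : ℚ) + 21) + y0 * (2 * i + 39)) := by
    rw [cx, mul_sub, mul_div_cancel₀ _ h]
  have hy : (((i : ℚ) + 20) ^ 2 - ((i : ℚ) + 20) + 1) * cy x0 y0 i =
      (((i : ℚ) + 20) ^ 2 - ((i : ℚ) + 20) + 1) * y0 +
        (y0 * ((i : ℚ) + 18) + x0 * (2 * i + 39)) := by
    rw [cy, mul_add, mul_div_cancel₀ _ h]
  refine mul_left_cancel₀ (pow_ne_zero 2 h) ?_
  calc (((i : ℚ) + 20) ^ 2 - ((i : ℚ) + 20) + 1) ^ 2 *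
        (cx x0 y0 i ^ 2 + cx x0 y0 i * cy x0 y0 i + cy x0 y0 i ^ 2)
      = ((((i : ℚ) + 20) ^ 2 - ((i : ℚ) + 20) + 1) * cx x0 y0 i) ^ 2 +
        ((((i : ℚ) + 20) ^ 2 - ((i : ℚ) + 20) + 1) * cx x0 y0 i) *
        ((((i : ℚ) + 20) ^ 2 - ((i : ℚ) + 20) + 1) * cy x0 y0 i) +
        ((((i : ℚ) + 20) ^ 2 - ((i : ℚ) + 20) + 1) * cy x0 y0 i) ^ 2 := by ring
    _ = _ := by rw [hx, hy]; ring

section

variable {x0 y0 : ℚ} (hx0 : 0 < x0) (hxy : x0 < y0) (hy0 : y0 < 4 * x0)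

include hx0 hxy in
theorem cx_lt (i : ℕ) : cx x0 y0 i < x0 := by
  have h0 : (0 : ℚ) ≤ i := Nat.cast_nonneg i
  have h1 := conic_den_pos i
  have hy : 0 < y0 := hx0.trans hxy
  rw [cx]
  have : 0 < (x0 * ((i : ℚ) + 21) + y0 * (2 * i + 39)) /
      (((i : ℚ) + 20) ^ 2 - ((i : ℚ) + 20) + 1) := by positivity
  linarith

include hx0 hy0 in
theorem cx_pos (i : ℕ) : 0 < cx x0 y0 i := by
  have h0 : (0 : ℚ) ≤ i := Nat.cast_nonneg i
  have h1 := conic_den_pos i
  rw [cx, sub_pos, div_lt_iff₀ h1]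
  have h2 : y0 * (2 * (i : ℚ) + 39) < 4 * x0 * (2 * (i : ℚ) + 39) :=
    mul_lt_mul_of_pos_right hy0 (by linarith)
  have h3 : 0 ≤ x0 * (i : ℚ) := mul_nonneg hx0.le h0
  have h4 : 0 ≤ x0 * (i : ℚ) * i := mul_nonneg h3 h0
  nlinarith

include hx0 hxy in
theorem lt_cy (i : ℕ) : y0 < cy x0 y0 i := by
  have h0 : (0 : ℚ) ≤ i := Nat.cast_nonneg i
  have h1 := conic_den_pos i
  have hy : 0 < y0 := hx0.trans hxy
  rw [cy]
  have : 0 < (y0 * ((i : ℚ) + 18) + x0 * (2 * i + 39)) /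
      (((i : ℚ) + 20) ^ 2 - ((i : ℚ) + 20) + 1) := by positivity
  linarith

include hx0 hxy in
theorem cx_injective : Function.Injective (cx x0 y0) := by
  intro i j h
  have hi := (conic_den_pos i).ne'
  have hj := (conic_den_pos j).ne'
  have h0 : (0 : ℚ) ≤ i := Nat.cast_nonneg i
  have h1 : (0 : ℚ) ≤ j := Nat.cast_nonneg j
  have hy : 0 < y0 := hx0.trans hxy
  rw [cx, cx, sub_right_inj, div_eq_div_iff hi hj] at h
  have h2 : ((j : ℚ) - i) * ((x0 + 2 * y0) * (((i : ℚ) + 20) * ((j : ℚ) + 20) - 1) +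
      (x0 - y0) * ((i : ℚ) + j + 39)) = 0 := by linear_combination h
  rcases mul_eq_zero.mp h2 with h3 | h3
  · have : (i : ℚ) = j := by linarith
    exact_mod_cast this
  · exfalso
    have h4 : 0 ≤ (i : ℚ) * j := mul_nonneg h0 h1
    have h5 : (0 : ℚ) < x0 * (((i : ℚ) + 20) * ((j : ℚ) + 20) - 1) :=
      mul_pos hx0 (by nlinarith)
    have h6 : (0 : ℚ) < y0 * (2 * (((i : ℚ) + 20) * ((j : ℚ) + 20) - 1) - ((i : ℚ) + j + 39)) :=
      mul_pos hy (by nlinarith)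
    have h7 : (0 : ℚ) ≤ x0 * ((i : ℚ) + j + 39) := mul_nonneg hx0.le (by linarith)
    nlinarith

end

/-- the set `{±x, ±y, ±(x + y)}` -/
def hexSet (x y : ℚ) : Finset ℚ := {x, -x, y, -y, x + y, -(x + y)}

theorem hexSet_prod {R : Type*} [CommMonoid R] {x y : ℚ} (hx : 0 < x) (hxy : x < y) (f : ℚ → R) :
    ∏ s ∈ hexSet x y, f s =
      f x * (f (-x) * (f y * (f (-y) * (f (x + y) * f (-(x + y)))))) := by
  rw [hexSet, Finset.prod_insert, Finset.prod_insert, Finset.prod_insert, Finset.prod_insert,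
    Finset.prod_insert, Finset.prod_singleton]
  all_goals simp only [Finset.mem_insert, Finset.mem_singleton, not_or]
  · intro h; linarith
  · constructor <;> intro h <;> linarith
  · refine ⟨?_, ?_, ?_⟩ <;> intro h <;> linarith
  · refine ⟨?_, ?_, ?_, ?_⟩ <;> intro h <;> linarith
  · refine ⟨?_, ?_, ?_, ?_, ?_⟩ <;> intro h <;> linarith

theorem hexSet_sum {R : Type*} [AddCommMonoid R] {x y : ℚ} (hx : 0 < x) (hxy : x < y)
    (f : ℚ → R) :
    ∑ s ∈ hexSet x y, f s =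
      f x + (f (-x) + (f y + (f (-y) + (f (x + y) + f (-(x + y)))))) :=
  hexSet_prod (R := Multiplicative R) hx hxy f

theorem mem_hexSet {x y b : ℚ} : b ∈ hexSet x y ↔
    b = x ∨ b = -x ∨ b = y ∨ b = -y ∨ b = x + y ∨ b = -(x + y) := by
  simp only [hexSet, Finset.mem_insert, Finset.mem_singleton]

theorem hexSet_cubic {x y b : ℚ} (hb : b ∈ hexSet x y) :
    (b ^ 3 - (x ^ 2 + x * y + y ^ 2) * b) ^ 2 = (x * y * (x + y)) ^ 2 := by
  rcases mem_hexSet.mp hb with rfl | rfl | rfl | rfl | rfl | rfl <;> ring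

theorem hexSet_cubic_deriv {x y b : ℚ} (hx : 0 < x) (hxy : x < y) (hb : b ∈ hexSet x y) :
    (b ^ 3 - (x ^ 2 + x * y + y ^ 2) * b) * (3 * b ^ 2 - (x ^ 2 + x * y + y ^ 2)) ≠ 0 := by
  have hy : 0 < y := hx.trans hxy
  have h1 : x * y * (x + y) ≠ 0 := by positivity
  have h2 : x ^ 2 + x * y + y ^ 2 - 3 * x ^ 2 ≠ 0 := by
    intro h; nlinarith
  have h3 : x ^ 2 + x * y + y ^ 2 - 3 * y ^ 2 ≠ 0 := by
    intro h; nlinarith
  have h4 : x ^ 2 + x * y + y ^ 2 - 3 * (x + y) ^ 2 ≠ 0 := by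
    intro h; nlinarith
  have h5 : b ^ 3 - (x ^ 2 + x * y + y ^ 2) * b ≠ 0 := by
    intro h
    have := hexSet_cubic hb
    rw [h] at this
    exact h1 (pow_eq_zero_iff two_ne_zero |>.mp (by rw [← this]; ring))
  refine mul_ne_zero h5 ?_
  rcases mem_hexSet.mp hb with rfl | rfl | rfl | rfl | rfl | rfl
  · intro h; exact h2 (by linarith)
  · intro h; exact h2 (by linear_combination -h)
  · intro h; exact h3 (by linarith)
  · intro h; exact h3 (by linear_combination -h)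
  · intro h; exact h4 (by linarith)
  · intro h; exact h4 (by linear_combination -h)

theorem conic_family {x0 y0 : ℚ} (hx0 : 0 < x0) (hxy : x0 < y0) (hy0 : y0 < 4 * x0) :
    Family (hexSet x0 y0) 6 (fun i => hexSet (cx x0 y0 i) (cy x0 y0 i)) := by
  -- basic facts
  have hX : ∀ i, 0 < cx x0 y0 i := cx_pos hx0 hy0
  have hXlt : ∀ i, cx x0 y0 i < x0 := cx_lt hx0 hxy
  have hY : ∀ i, y0 < cy x0 y0 i := lt_cy hx0 hxy
  have hXY : ∀ i, cx x0 y0 i < cy x0 y0 i := fun i => ((hXlt i).trans hxy).trans (hY i)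
  have hN : ∀ i, cx x0 y0 i ^ 2 + cx x0 y0 i * cy x0 y0 i + cy x0 y0 i ^ 2 =
      x0 ^ 2 + x0 * y0 + y0 ^ 2 := conic_eq x0 y0
  have hinj : Function.Injective (cx x0 y0) := cx_injective hx0 hxy
  have hk : ∀ i, cx x0 y0 i * cy x0 y0 i * (cx x0 y0 i + cy x0 y0 i) =
      cx x0 y0 i * (x0 ^ 2 + x0 * y0 + y0 ^ 2 - cx x0 y0 i ^ 2) := by
    intro i
    rw [← hN i]; ring
  have hkpos : ∀ i, 0 < cx x0 y0 i * cy x0 y0 i * (cx x0 y0 i + cy x0 y0 i) := by
    intro i
    have h1 := hX i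
    have h2 : 0 < cy x0 y0 i := h1.trans (hXY i)
    positivity
  have hklt : ∀ i, cx x0 y0 i * cy x0 y0 i * (cx x0 y0 i + cy x0 y0 i) <
      x0 * y0 * (x0 + y0) := by
    intro i
    have h1 := hX i
    have h2 := hXlt i
    rw [hk]
    have h3 : 0 < (x0 - cx x0 y0 i) * (x0 ^ 2 + x0 * y0 + y0 ^ 2 - x0 ^ 2 - x0 * cx x0 y0 i -
        cx x0 y0 i ^ 2) := by
      refine mul_pos (by linarith) ?_
      nlinarith
    nlinarith
  have hc : ∀ i, 0 < (x0 * y0 * (x0 + y0)) ^ 2 -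
      (cx x0 y0 i * cy x0 y0 i * (cx x0 y0 i + cy x0 y0 i)) ^ 2 := by
    intro i
    have h1 := hkpos i
    have h2 := hklt i
    nlinarith
  have hprod : ∀ i, ∀ b ∈ hexSet x0 y0, ∏ s ∈ hexSet (cx x0 y0 i) (cy x0 y0 i), (b - s) =
      (x0 * y0 * (x0 + y0)) ^ 2 -
        (cx x0 y0 i * cy x0 y0 i * (cx x0 y0 i + cy x0 y0 i)) ^ 2 := by
    intro i b hb
    have h1 := hexSet_cubic hb
    rw [← hN i] at h1
    rw [hexSet_prod (hX i) (hXY i)]
    linear_combination h1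
  have hx_of_k : ∀ i j, cx x0 y0 i * (x0 ^ 2 + x0 * y0 + y0 ^ 2 - cx x0 y0 i ^ 2) =
      cx x0 y0 j * (x0 ^ 2 + x0 * y0 + y0 ^ 2 - cx x0 y0 j ^ 2) → i = j := by
    intro i j h
    apply hinj
    have h1 := hX i
    have h2 := hXlt i
    have h3 := hX j
    have h4 := hXlt j
    have h5 : (cx x0 y0 i - cx x0 y0 j) * (x0 ^ 2 + x0 * y0 + y0 ^ 2 - cx x0 y0 i ^ 2 -
        cx x0 y0 i * cx x0 y0 j - cx x0 y0 j ^ 2) = 0 := by linear_combination h
    rcases mul_eq_zero.mp h5 with h6 | h6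
    · linarith
    · exfalso
      nlinarith
  refine ⟨fun i => ?_, fun i => ⟨_, hc i, hprod i⟩, fun q => ?_, fun b hb q => ?_⟩
  · rw [Finset.card_eq_sum_ones, hexSet_sum (hX i) (hXY i)]; rfl
  · have h1 : {i | q ∈ hexSet (cx x0 y0 i) (cy x0 y0 i)} ⊆
        ({i | cx x0 y0 i = q} ∪ {i | cx x0 y0 i = -q}) ∪
        (({i | cy x0 y0 i = q} ∪ {i | cy x0 y0 i = -q}) ∪
        ({i | cx x0 y0 i + cy x0 y0 i = q} ∪ {i | cx x0 y0 i + cy x0 y0 i = -q})) := by
      intro i hi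
      simp only [Set.mem_ofPred_eq, mem_hexSet] at hi
      simp only [Set.mem_union, Set.mem_ofPred_eq]
      rcases hi with h | h | h | h | h | h
      · exact Or.inl (Or.inl h.symm)
      · exact Or.inl (Or.inr (by rw [h, neg_neg]))
      · exact Or.inr (Or.inl (Or.inl h.symm))
      · exact Or.inr (Or.inl (Or.inr (by rw [h, neg_neg])))
      · exact Or.inr (Or.inr (Or.inl h.symm))
      · exact Or.inr (Or.inr (Or.inr (by rw [h, neg_neg])))
    have fx : ∀ q, {i | cx x0 y0 i = q}.Finite := fun q =>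
      (Set.finite_singleton q).preimage hinj.injOn
    have fy : ∀ q, {i | cy x0 y0 i = q}.Finite := by
      intro q
      refine Set.Subsingleton.finite fun i hi j hj => hinj ?_
      simp only [Set.mem_ofPred_eq] at hi hj
      have h1 := hN i
      have h2 := hN j
      have h3 := hX i
      have h4 := hX j
      have h5 := hXY i
      rw [hi] at h1 h5
      rw [hj] at h2
      have h6 : (cx x0 y0 i - cx x0 y0 j) * (cx x0 y0 i + cx x0 y0 j + q) = 0 := by
        linear_combination h1 - h2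
      have h7 := (mul_eq_zero.mp h6).resolve_right (by linarith)
      linarith
    have fz : ∀ q, {i | cx x0 y0 i + cy x0 y0 i = q}.Finite := by
      intro q
      refine Set.Subsingleton.finite fun i hi j hj => hinj ?_
      simp only [Set.mem_ofPred_eq] at hi hj
      have h1 := hN i
      have h2 := hN j
      have h3 := hX i
      have h4 := hX j
      have h5 := hXY i
      have h5' := hXY j
      have e1 : cy x0 y0 i = q - cx x0 y0 i := by linarith
      have e2 : cy x0 y0 j = q - cx x0 y0 j := by linarith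
      rw [e1] at h1
      rw [e2] at h2
      have h6 : (cx x0 y0 i - cx x0 y0 j) * (q - cx x0 y0 i - cx x0 y0 j) = 0 := by
        linear_combination h2 - h1
      have h7 := (mul_eq_zero.mp h6).resolve_right (by intro h; linarith)
      linarith
    exact Set.Finite.subset (((fx q).union (fx (-q))).union
      (((fy q).union (fy (-q))).union ((fz q).union (fz (-q))))) h1
  · refine Set.Subsingleton.finite ?_
    have key : ∀ i, (∑ s ∈ hexSet (cx x0 y0 i) (cy x0 y0 i), (b - s)⁻¹) *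
        ((x0 * y0 * (x0 + y0)) ^ 2 -
          (cx x0 y0 i * cy x0 y0 i * (cx x0 y0 i + cy x0 y0 i)) ^ 2) =
        2 * ((b ^ 3 - (x0 ^ 2 + x0 * y0 + y0 ^ 2) * b) *
          (3 * b ^ 2 - (x0 ^ 2 + x0 * y0 + y0 ^ 2))) := by
      intro i
      have h1 := hprod i b hb
      have h2 := (hc i).ne'
      rw [← h1] at h2 ⊢
      rw [Finset.prod_ne_zero_iff] at h2
      have n1 := h2 _ (mem_hexSet.mpr (Or.inl rfl))
      have n2 := h2 _ (mem_hexSet.mpr (Or.inr (Or.inl rfl)))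
      have n3 := h2 _ (mem_hexSet.mpr (Or.inr (Or.inr (Or.inl rfl))))
      have n4 := h2 _ (mem_hexSet.mpr (Or.inr (Or.inr (Or.inr (Or.inl rfl)))))
      have n5 := h2 _ (mem_hexSet.mpr (Or.inr (Or.inr (Or.inr (Or.inr (Or.inl rfl))))))
      have n6 := h2 _ (mem_hexSet.mpr (Or.inr (Or.inr (Or.inr (Or.inr (Or.inr rfl))))))
      rw [hexSet_sum (hX i) (hXY i), hexSet_prod (hX i) (hXY i), ← hN i]
      field_simp
      ring
    intro i hi j hj
    simp only [Set.mem_ofPred_eq] at hi hj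
    have hne := hexSet_cubic_deriv hx0 hxy hb
    have hq : q ≠ 0 := by
      rintro rfl
      have h1 := key i
      rw [hi, zero_mul] at h1
      exact mul_ne_zero two_ne_zero hne h1.symm
    have h1 := key i
    have h2 := key j
    rw [hi] at h1
    rw [hj] at h2
    have h3 := mul_left_cancel₀ hq (h1.trans h2.symm)
    have h4 : (cx x0 y0 i * cy x0 y0 i * (cx x0 y0 i + cy x0 y0 i)) ^ 2 =
        (cx x0 y0 j * cy x0 y0 j * (cx x0 y0 j + cy x0 y0 j)) ^ 2 := by linarith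
    have h5 := (pow_left_inj₀ (hkpos i).le (hkpos j).le two_ne_zero).mp h4
    rw [hk, hk] at h5
    exact hx_of_k i j h5

end Pool.Agent.Lib.MP_176ace_nt
end

section

set_option autoImplicit false

/-!
Even degrees `d ≥ 8`: class groups of `m`-rank at least `d / 2 + 6`.
-/

namespace Pool.Agent.Lib.MP_176ace_nt

open NumberField

theorem base12 : Cfg (hexSet 6 23) {73/7, -73/7, 138/7, -138/7, 211/7, -211/7,
    86/7, -86/7, 127/7, -127/7, 213/7, -213/7} :=
  ⟨⟨(4002 ^ 2 - (73 * 138 * 211 / 343) ^ 2) * (4002 ^ 2 - (86 * 127 * 213 / 343) ^ 2),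
    by norm_num, by decide +kernel⟩, by decide +kernel, 213/7, by decide +kernel,
    by decide +kernel⟩

theorem base16 : Cfg (hexSet 6 23) {9, -9, 13, -13, 26, -26, 27, -27, 34, -34,
    73/7, -73/7, 138/7, -138/7, 211/7, -211/7} :=
  ⟨⟨-2973003264000 * (4002 ^ 2 - (73 * 138 * 211 / 343) ^ 2),
    by norm_num, by decide +kernel⟩, by decide +kernel, 34, by decide +kernel,
    by decide +kernel⟩

theorem base14 : Cfg (hexSet 35 39) {17, -17, 56, -56, 69, -69, 130, -130,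
    9514/271, -9514/271, 10541/271, -10541/271, 20055/271, -20055/271} :=
  ⟨⟨-99141695452800 * (101010 ^ 2 - (9514 * 10541 * 20055 / 271 ^ 3) ^ 2),
    by norm_num, by decide +kernel⟩, by decide +kernel, 130, by decide +kernel,
    by decide +kernel⟩

theorem exists_cfg_even {d : ℕ} (hd : 12 ≤ d) (h2 : Even d) :
    ∃ T S : Finset ℚ, Cfg T S ∧ T.card = 6 ∧ S.card = d := by
  obtain ⟨k, rfl⟩ := h2
  obtain ⟨n, hn⟩ : ∃ n, k + k = 12 + 6 * n ∨ k + k = 14 + 6 * n ∨ k + k = 16 + 6 * n :=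
    ⟨(k + k - 12) / 6, by omega⟩
  rcases hn with h | h | h
  · obtain ⟨S, hS, hc⟩ := base12.steps (conic_family (by norm_num) (by norm_num) (by norm_num)) n
    refine ⟨_, S, hS, by decide +kernel, ?_⟩
    rw [hc, h, show Finset.card _ = 12 by decide +kernel]
  · obtain ⟨S, hS, hc⟩ := base14.steps (conic_family (by norm_num) (by norm_num) (by norm_num)) n
    refine ⟨_, S, hS, by decide +kernel, ?_⟩
    rw [hc, h, show Finset.card _ = 14 by decide +kernel]
  · obtain ⟨S, hS, hc⟩ := base16.steps (conic_family (by norm_num) (by norm_num) (by norm_num)) n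
    refine ⟨_, S, hS, by decide +kernel, ?_⟩
    rw [hc, h, show Finset.card _ = 16 by decide +kernel]

theorem rank_even_degrees {d : ℕ} (hd : 8 ≤ d) (h2 : Even d) {m : ℕ} (hm : 0 < m) :
    ∃ (K : Type) (_ : Field K) (_ : NumberField K), Module.finrank ℚ K = d ∧
      ∃ f : Multiplicative (Fin (d / 2 + 6) → ZMod m) →* ClassGroup (𝓞 K),
        Function.Injective f := by
  by_cases h12 : 12 ≤ d
  · obtain ⟨T, S, hS, hT, hc⟩ := exists_cfg_even h12 h2
    have hTne : T.Nonempty := Finset.card_pos.mp (by omega)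
    obtain ⟨K, i1, i2, hK, f, hf⟩ := rank_of_cfg hS hTne hm
    exact ⟨K, i1, i2, hK.trans hc, exists_hom_of_le (by rw [hc, hT]) f hf⟩
  · obtain ⟨k, rfl⟩ := h2
    obtain h | h : k + k = 8 ∨ k + k = 10 := by omega
    · rw [h]
      obtain ⟨K, i1, i2, hK, f, hf⟩ := rank_of_pte (g := 7) (C0 := 1210809600)
        ![1, 2, 11, 20, 30, 39, 48, 49] ![0, 4, 9, 23, 27, 41, 46, 50] (by decide) (by decide)
        (by norm_num) (by decide) hm
      exact ⟨K, i1, i2, hK, exists_hom_of_le (by norm_num) f hf⟩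
    · rw [h]
      obtain ⟨K, i1, i2, hK, f, hf⟩ := rank_of_pte (g := 9) (C0 := 5687272703608009113600)
        ![5, 6, 133, 182, 242, 384, 444, 493, 620, 621]
        ![0, 12, 125, 213, 214, 412, 413, 501, 614, 626] (by decide) (by decide)
        (by norm_num) (by decide) hm
      exact ⟨K, i1, i2, hK, exists_hom_of_le (by norm_num) f hf⟩

end Pool.Agent.Lib.MP_176ace_nt
end
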